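import Pool.Agent.SXS.Defs

/-!
# SXT-AbE: abelian groups of exponent `e` contain large elementary abelian groups

Proof without the structure theorem: the number of solutions of `a ^ (m n) = 1` is at most the product of those of
`a ^ m = 1` and `a ^ n = 1`; for a prime `l` the solutions of `a ^ l = 1` form a vector space over `ZMod l`. Take for `r`
the largest rank of these spaces.
-/

set_option autoImplicit false

namespace Pool.Agent.SXT

open Finset Pool.Agent.SXS

open Classical in
private theorem abe_mul {A : Type*} [CommGroup A] [Fintype A] (m n : ℕ) :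
    (univ.filter fun a : A => a ^ (m * n) = 1).card ≤
      (univ.filter fun a : A => a ^ m = 1).card * (univ.filter fun a : A => a ^ n = 1).card := by
  refine (card_le_mul_card_image (f := fun a : A => a ^ m) _
    (univ.filter fun a : A => a ^ m = 1).card ?_).trans (Nat.mul_le_mul_left _ (card_le_card ?_))
  · intro b hb
    obtain ⟨x, -, hx⟩ := mem_image.1 hb
    refine card_le_card_of_injOn (fun y => y * x⁻¹) ?_ ?_
    · intro y hy
      have hy' : y ^ m = b := (mem_filter.1 (mem_coe.1 hy)).2
      refine mem_coe.2 (mem_filter.2 ⟨mem_univ _, ?_⟩)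
      show (y * x⁻¹) ^ m = 1
      have hx' : x ^ m = b := hx
      rw [mul_pow, inv_pow, hy', hx', mul_inv_cancel]
    · intro y _ z _ h
      exact mul_right_cancel h
  · intro b hb
    obtain ⟨x, hx, rfl⟩ := mem_image.1 hb
    have hx' := (mem_filter.1 hx).2
    refine mem_filter.2 ⟨mem_univ _, ?_⟩
    show (x ^ m) ^ n = 1
    rw [← pow_mul]
    exact hx'

private theorem abe_vec {M : Type*} [AddCommGroup M] [Finite M] (l : ℕ) [Fact l.Prime]
    [Module (ZMod l) M] : ∃ k : ℕ, Nonempty (E l k ≃+ M) :=
  ⟨Module.finrank (ZMod l) M, ⟨(Module.finBasis (ZMod l) M).equivFun.symm.toAddEquiv⟩⟩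

open Classical in
private theorem abe_prime {A : Type*} [CommGroup A] [Fintype A] (l : ℕ) [Fact l.Prime] :
    ∃ (k : ℕ) (L : Multiplicative (E l k) →* A), Function.Injective L ∧
      (univ.filter fun a : A => a ^ l = 1).card = l ^ k := by
  obtain ⟨K, hK⟩ : ∃ K : Subgroup A, K = (powMonoidHom l : A →* A).ker := ⟨_, rfl⟩
  have hKm : ∀ a, a ∈ K ↔ a ^ l = 1 := by
    intro a
    rw [hK, MonoidHom.mem_ker]
    rfl
  have hz : ∀ x : Additive K, l • x = 0 := by
    intro x
    have h1 : (x.toMul : K) ^ l = 1 := Subtype.ext ((hKm _).1 x.toMul.2)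
    exact h1
  let : Module (ZMod l) (Additive K) := AddCommGroup.zmodModule hz
  obtain ⟨k, ⟨φ⟩⟩ := abe_vec (M := Additive K) l
  have hφ : Function.Injective φ := φ.injective
  refine ⟨k, K.subtype.comp (AddMonoidHom.toMultiplicative φ.toAddMonoidHom), ?_, ?_⟩
  · intro x y h
    have h1 : φ x.toAdd = φ y.toAdd := Subtype.ext h
    exact hφ h1
  · have h1 : Nat.card K = l ^ k := by
      have h2 : Nat.card (E l k) = Nat.card (Additive K) := Nat.card_congr φ.toEquiv
      rw [Nat.card_pi, prod_const, Nat.card_zmod, card_univ, Fintype.card_fin] at h2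
      exact h2.symm
    rw [← h1, Nat.card_eq_fintype_card, Fintype.card_subtype]
    congr 1
    ext a
    simp only [mem_filter, mem_univ, true_and]
    exact (hKm a).symm

theorem exists_emb_exp {A : Type*} [CommGroup A] [Finite A] {e : ℕ} (he : 1 ≤ e)
    (h : ∀ a : A, a ^ e = 1) :
    ∃ (p r : ℕ) (_ : Fact p.Prime) (L : Multiplicative (E p r) →* A),
      Function.Injective L ∧ Nat.card A ≤ e ^ r := by
  classical
  have : Fintype A := Fintype.ofFinite A
  obtain ⟨S, hS⟩ : ∃ S : Set ℕ, S = {r | ∃ (p : ℕ) (_ : Fact p.Prime)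
    (L : Multiplicative (E p r) →* A), Function.Injective L} := ⟨_, rfl⟩
  have h0 : S.Nonempty := by
    rw [hS]
    refine ⟨0, 2, ⟨Nat.prime_two⟩, 1, ?_⟩
    intro x y _
    have : x.toAdd = y.toAdd := Subsingleton.elim _ _
    exact this
  have hb : ∀ r ∈ S, r ≤ Nat.card A := by
    intro r hr
    rw [hS] at hr
    obtain ⟨p, hp, L, hL⟩ := hr
    have h1 : Nat.card (Multiplicative (E p r)) ≤ Nat.card A := Nat.card_le_card_of_injective L hL
    have h2 : Nat.card (Multiplicative (E p r)) = p ^ r := by
      have h3 : Nat.card (Multiplicative (E p r)) = Nat.card (E p r) := rfl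
      rw [h3, Nat.card_pi, prod_const, Nat.card_zmod, card_univ, Fintype.card_fin]
    rw [h2] at h1
    have h3 : r < p ^ r := Nat.lt_pow_self hp.out.one_lt
    omega
  have hbdd : BddAbove S := ⟨Nat.card A, fun r hr => hb r hr⟩
  have hmem : sSup S ∈ S := Nat.sSup_mem h0 hbdd
  have hmax : ∀ r ∈ S, r ≤ sSup S := fun r hr => le_csSup hbdd hr
  obtain ⟨r, hr⟩ : ∃ r, r = sSup S := ⟨_, rfl⟩
  rw [← hr] at hmem hmax
  have hpr : ∀ l : ℕ, l.Prime → (univ.filter fun a : A => a ^ l = 1).card ≤ l ^ r := by
    intro l hl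
    have : Fact l.Prime := ⟨hl⟩
    obtain ⟨k, L, hL, hk⟩ := abe_prime (A := A) l
    rw [hk]
    refine Nat.pow_le_pow_right hl.one_lt.le (hmax k ?_)
    rw [hS]
    exact ⟨l, inferInstance, L, hL⟩
  have hall : ∀ e : ℕ, 1 ≤ e → (univ.filter fun a : A => a ^ e = 1).card ≤ e ^ r := by
    intro e
    induction e using Nat.recOnMul with
    | zero => intro h; omega
    | one =>
      intro _
      rw [one_pow]
      refine card_le_one.2 ?_
      intro a ha b hb
      have ha' := (mem_filter.1 ha).2
      have hb' := (mem_filter.1 hb).2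
      rw [pow_one] at ha' hb'
      rw [ha', hb']
    | prime q hq => exact fun _ => hpr q hq
    | mul m n hm hn =>
      intro h1
      have hm1 : 1 ≤ m := by
        rcases Nat.eq_zero_or_pos m with h2 | h2
        · rw [h2, zero_mul] at h1
          omega
        · exact h2
      have hn1 : 1 ≤ n := by
        rcases Nat.eq_zero_or_pos n with h2 | h2
        · rw [h2, mul_zero] at h1
          omega
        · exact h2
      rw [mul_pow]
      exact (abe_mul m n).trans (Nat.mul_le_mul (hm hm1) (hn hn1))
  rw [hS] at hmem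
  obtain ⟨p, hp, L, hL⟩ := hmem
  refine ⟨p, r, hp, L, hL, ?_⟩
  have h2 := hall e he
  have h3 : (univ.filter fun a : A => a ^ e = 1) = univ := filter_true_of_mem fun a _ => h a
  rw [h3, card_univ] at h2
  rw [Nat.card_eq_fintype_card]
  exact h2

end Pool.Agent.SXT
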