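import Pool.Agent.SXS.CWD

/-!
# SXT-ApfP: Behrend's construction in a product of cyclic groups

PLAN. Put `b = 2 * q` and `D i = Nat.log b (N i)`, so `b ^ D i ≤ N i` (`Nat.pow_log_le_self`, `N i ≠ 0`) and
`N i < b ^ (D i + 1)` (`Nat.lt_pow_succ_log_self`, `1 < b`). Let `u i = (N i / b ^ D i + 1) / 2`; then `1 ≤ u i ≤ q`,
`(2 * u i - 1) * b ^ D i ≤ N i` and `N i ≤ 3 * u i * b ^ D i`.
Digit vectors: `a : ∀ i, Fin (D i + 1) → ℕ` with `a i j < q` for `j ≠ last` and `a i (last) < u i`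
(`X = Fintype.piFinset fun i => Fintype.piFinset fun j => range (if j = Fin.last _ then u i else q)`,
`X.card = ∏ i, u i * q ^ D i`). The map `F a = fun i => ((∑ j, a i j * b ^ j : ℕ) : ZMod (N i))`
(`Behrend.map b (a i)` is this sum). For `a, c ∈ X`: `∑ j, (a i j + c i j) * b ^ j < N i` (the top digit of `a` contributes at
most `(u i - 1) * b ^ D i`, the lower digits of `a + c` are at most `b - 2`, so they contribute `< b ^ D i`). So
`F a + F c = F d + F d` (all in `X`) implies equality of the natural numbers and, by `Behrend.map_injOn` (digits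
`< b`), `a i j + c i j = d i j + d i j` for all `i, j`. In particular `F` is injective on `X`.
Sphere: for `a ∈ X` put `Q a = ∑ i, ∑ j, a i j ^ 2 ≤ (r + ∑ D i) * q ^ 2`; by pigeonhole some value `R` is taken on
a subset `Y` of `X` with `X.card ≤ Y.card * ((r + ∑ D i) * q ^ 2 + 1)` (`Finset.exists_le_card_fiber_of_mul_le_card_of_maps_to`
or a sum over the fibres). `B = Y.image F` is APF: `a + c = d + d` and `Q a = Q c = Q d` give `∑ ∑ (a - c)^2 = 0`
(over `ℤ`: `(a - c)^2 = 2 a^2 + 2 c^2 - (2 d)^2`), so `a = c = d`.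
Finally `∏ N i ≤ ∏ 3 * u i * b ^ D i = 3 ^ r * 2 ^ (∑ D i) * X.card`.
-/

set_option autoImplicit false

namespace Pool.Agent.SXT

open Finset Pool.Agent.SXS

private theorem apfp_lt {b : ℕ} (D : ℕ) (x : Fin D → ℕ) (hx : ∀ j, x j < b) :
    ∑ j, x j * b ^ (j : ℕ) < b ^ D := by
  induction D with
  | zero => simp
  | succ D ih =>
    rw [Fin.sum_univ_castSucc, pow_succ]
    have h1 := ih (fun j => x j.castSucc) fun j => hx _
    have h2 : x (Fin.last D) + 1 ≤ b := hx _
    have h3 := Nat.mul_le_mul_right (b ^ D) h2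
    simp only [Fin.val_castSucc, Fin.val_last] at h1 ⊢
    calc ∑ j : Fin D, x j.castSucc * b ^ (j : ℕ) + x (Fin.last D) * b ^ D
        < b ^ D + x (Fin.last D) * b ^ D := Nat.add_lt_add_right h1 _
      _ = (x (Fin.last D) + 1) * b ^ D := by ring
      _ ≤ b ^ D * b := by rw [mul_comm (b ^ D) b]; exact h3

private theorem apfp_sum {b q u N D : ℕ} (hb : b = 2 * q) (hu1 : 1 ≤ u) (hu : (2 * u - 1) * b ^ D ≤ N)
    (a c : Fin (D + 1) → ℕ) (ha : ∀ j : Fin D, a j.castSucc < q) (hc : ∀ j : Fin D, c j.castSucc < q)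
    (ha' : a (Fin.last D) < u) (hc' : c (Fin.last D) < u) :
    ∑ j, (a j + c j) * b ^ (j : ℕ) < N := by
  refine lt_of_lt_of_le ?_ hu
  rw [Fin.sum_univ_castSucc]
  rcases Nat.eq_zero_or_pos D with hD | hD
  · subst hD
    simp only [Finset.univ_eq_empty, Finset.sum_empty, Fin.val_last, pow_zero, mul_one, zero_add]
    omega
  · have hq : 1 ≤ q := by
      have := ha ⟨0, hD⟩
      omega
    have h1 := apfp_lt (b := b) D (fun j => a j.castSucc + c j.castSucc) fun j => by
      have := ha j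
      have := hc j
      omega
    simp only [Fin.val_castSucc, Fin.val_last]
    have h2 : a (Fin.last D) + c (Fin.last D) + 1 ≤ 2 * u - 1 := by omega
    have h3 := Nat.mul_le_mul_right (b ^ D) h2
    calc ∑ j : Fin D, (a j.castSucc + c j.castSucc) * b ^ (j : ℕ) + (a (Fin.last D) + c (Fin.last D)) * b ^ D
        < b ^ D + (a (Fin.last D) + c (Fin.last D)) * b ^ D := Nat.add_lt_add_right h1 _
      _ = (a (Fin.last D) + c (Fin.last D) + 1) * b ^ D := by ring
      _ ≤ (2 * u - 1) * b ^ D := h3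

theorem exists_apf_pi {r : ℕ} (N : Fin r → ℕ) (hN : ∀ i, 1 ≤ N i) {q : ℕ} (hq : 1 ≤ q) :
    ∃ B : Finset (∀ i, ZMod (N i)), APF B ∧
      ∏ i, N i ≤ B.card * (3 ^ r * 2 ^ (∑ i, Nat.log (2 * q) (N i)) *
        ((r + ∑ i, Nat.log (2 * q) (N i)) * q ^ 2 + 1)) := by
  classical
  obtain ⟨b, hb⟩ : ∃ b, b = 2 * q := ⟨_, rfl⟩
  rw [← hb]
  obtain ⟨D, hD⟩ : ∃ D : Fin r → ℕ, D = fun i => Nat.log b (N i) := ⟨_, rfl⟩
  obtain ⟨u, hu⟩ : ∃ u : Fin r → ℕ, u = fun i => (N i / b ^ D i + 1) / 2 := ⟨_, rfl⟩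
  have hb1 : 1 < b := by omega
  have hpow : ∀ i, 0 < b ^ D i := fun i => pow_pos (by omega) _
  have ht1 : ∀ i, 1 ≤ N i / b ^ D i := by
    intro i
    rw [Nat.one_le_div_iff (hpow i), hD]
    exact Nat.pow_log_le_self b (by have := hN i; omega)
  have ht2 : ∀ i, N i / b ^ D i < b := by
    intro i
    rw [Nat.div_lt_iff_lt_mul (hpow i), ← pow_succ', hD]
    exact Nat.lt_pow_succ_log_self hb1 _
  have hu1 : ∀ i, 1 ≤ u i := by
    intro i
    have := ht1 i
    simp only [hu]
    omega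
  have huq : ∀ i, u i ≤ q := by
    intro i
    have := ht2 i
    simp only [hu]
    omega
  have hu2 : ∀ i, (2 * u i - 1) * b ^ D i ≤ N i := by
    intro i
    refine le_trans (Nat.mul_le_mul_right _ ?_) (Nat.div_mul_le_self (N i) (b ^ D i))
    have := ht1 i
    simp only [hu]
    omega
  have hu3 : ∀ i, N i ≤ 3 * u i * b ^ D i := by
    intro i
    have h1 : N i < (N i / b ^ D i + 1) * b ^ D i := by
      rw [← Nat.div_lt_iff_lt_mul (hpow i)]
      omega
    refine h1.le.trans (Nat.mul_le_mul_right _ ?_)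
    have := ht1 i
    simp only [hu]
    omega
  obtain ⟨X, hX⟩ : ∃ X : Finset (∀ i, Fin (D i + 1) → ℕ), X = Fintype.piFinset fun i =>
    Fintype.piFinset fun j : Fin (D i + 1) => range (if j = Fin.last (D i) then u i else q) := ⟨_, rfl⟩
  have hXm : ∀ a ∈ X, ∀ i, (∀ j : Fin (D i), a i j.castSucc < q) ∧ a i (Fin.last (D i)) < u i := by
    intro a ha i
    rw [hX, Fintype.mem_piFinset] at ha
    have h1 := Fintype.mem_piFinset.1 (ha i)
    refine ⟨fun j => ?_, ?_⟩
    · have h2 := mem_range.1 (h1 j.castSucc)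
      rwa [if_neg (Fin.castSucc_lt_last j).ne] at h2
    · have h2 := mem_range.1 (h1 (Fin.last (D i)))
      rwa [if_pos rfl] at h2
  have hXq : ∀ a ∈ X, ∀ i j, a i j < q := by
    intro a ha i j
    obtain ⟨h1, h2⟩ := hXm a ha i
    refine Fin.lastCases ?_ (fun j => h1 j) j
    exact lt_of_lt_of_le h2 (huq i)
  have hXc : X.card = ∏ i, (u i * q ^ D i) := by
    rw [hX, Fintype.card_piFinset]
    refine prod_congr rfl fun i _ => ?_
    rw [Fintype.card_piFinset, Fin.prod_univ_castSucc, if_pos rfl, card_range]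
    rw [prod_congr rfl fun j _ => by rw [if_neg (Fin.castSucc_lt_last j).ne, card_range], prod_const,
      card_univ, Fintype.card_fin, mul_comm]
  obtain ⟨F, hF⟩ : ∃ F : (∀ i, Fin (D i + 1) → ℕ) → ∀ i, ZMod (N i), F = fun a i =>
    ((∑ j : Fin (D i + 1), a i j * b ^ (j : ℕ) : ℕ) : ZMod (N i)) := ⟨_, rfl⟩
  have key : ∀ a ∈ X, ∀ c ∈ X, ∀ d ∈ X, ∀ e ∈ X, F a + F c = F d + F e →
      ∀ i j, a i j + c i j = d i j + e i j := by
    intro a ha c hc d hd e he h i
    have h1 := congrFun h i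
    simp only [hF, Pi.add_apply] at h1
    rw [← Nat.cast_add, ← Nat.cast_add, ← sum_add_distrib, ← sum_add_distrib] at h1
    simp only [← add_mul] at h1
    have h2 := apfp_sum hb (hu1 i) (hu2 i) (a i) (c i) (hXm a ha i).1 (hXm c hc i).1 (hXm a ha i).2 (hXm c hc i).2
    have h3 := apfp_sum hb (hu1 i) (hu2 i) (d i) (e i) (hXm d hd i).1 (hXm e he i).1 (hXm d hd i).2 (hXm e he i).2
    rw [ZMod.natCast_eq_natCast_iff', Nat.mod_eq_of_lt h2, Nat.mod_eq_of_lt h3] at h1
    have h4 : (fun j => a i j + c i j) = fun j => d i j + e i j := by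
      refine Behrend.map_injOn (d := b) ?_ ?_ h1
      · intro j
        have := hXq a ha i j
        have := hXq c hc i j
        show a i j + c i j < b
        omega
      · intro j
        have := hXq d hd i j
        have := hXq e he i j
        show d i j + e i j < b
        omega
    exact fun j => congrFun h4 j
  have hinj : Set.InjOn F X := by
    intro a ha d hd h
    funext i j
    have := key a ha a ha d hd d hd (by rw [h]) i j
    omega
  obtain ⟨K, hK⟩ : ∃ K, K = (r + ∑ i, D i) * q ^ 2 := ⟨_, rfl⟩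
  obtain ⟨Q, hQ⟩ : ∃ Q : (∀ i, Fin (D i + 1) → ℕ) → ℕ, Q = fun a => ∑ i, ∑ j : Fin (D i + 1), a i j ^ 2 := ⟨_, rfl⟩
  have hQK : ∀ a ∈ X, Q a ∈ range (K + 1) := by
    intro a ha
    rw [mem_range, Nat.lt_succ_iff, hQ, hK]
    calc ∑ i : Fin r, ∑ j : Fin (D i + 1), a i j ^ 2 ≤ ∑ i, ∑ _j : Fin (D i + 1), q ^ 2 :=
          sum_le_sum fun i _ => sum_le_sum fun j _ => Nat.pow_le_pow_left (hXq a ha i j).le 2
      _ = (r + ∑ i, D i) * q ^ 2 := by
          simp only [sum_const, card_univ, Fintype.card_fin, smul_eq_mul]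
          rw [← sum_mul, sum_add_distrib, sum_const, card_univ, Fintype.card_fin, smul_eq_mul, mul_one,
            add_comm r]
  obtain ⟨R, -, hmax⟩ := exists_max_image (range (K + 1)) (fun y => (X.filter fun a => Q a = y).card)
    ⟨0, mem_range.2 (Nat.succ_pos _)⟩
  have hcard := card_le_mul_card_image_of_maps_to hQK _ hmax
  rw [card_range] at hcard
  obtain ⟨Y, hY⟩ : ∃ Y, Y = X.filter fun a => Q a = R := ⟨_, rfl⟩
  rw [← hY] at hcard
  have hYX : Y ⊆ X := by rw [hY]; exact filter_subset _ _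
  refine ⟨Y.image F, ?_, ?_⟩
  · intro a' ha' c' hc' d' hd' h
    obtain ⟨a, ha, rfl⟩ := mem_image.1 ha'
    obtain ⟨c, hc, rfl⟩ := mem_image.1 hc'
    obtain ⟨d, hd, rfl⟩ := mem_image.1 hd'
    have h1 := key a (hYX ha) c (hYX hc) d (hYX hd) d (hYX hd) h
    have hQa : Q a = R := by rw [hY] at ha; exact (mem_filter.1 ha).2
    have hQc : Q c = R := by rw [hY] at hc; exact (mem_filter.1 hc).2
    have hQd : Q d = R := by rw [hY] at hd; exact (mem_filter.1 hd).2
    have h2 : ∑ i : Fin r, ∑ j : Fin (D i + 1), ((a i j : ℤ) - c i j) ^ 2 = 0 := by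
      have e1 : ∀ i j, ((a i j : ℤ) - c i j) ^ 2 =
          2 * (a i j : ℤ) ^ 2 + 2 * (c i j : ℤ) ^ 2 - 4 * (d i j : ℤ) ^ 2 := by
        intro i j
        have h3 : (a i j : ℤ) + c i j = d i j + d i j := by exact_mod_cast h1 i j
        have h4 : (c i j : ℤ) = d i j + d i j - a i j := by linarith
        rw [h4]
        ring
      simp only [e1, sum_sub_distrib, sum_add_distrib, ← mul_sum]
      have e2 : ∀ a : ∀ i, Fin (D i + 1) → ℕ, ((Q a : ℕ) : ℤ) = ∑ i, ∑ j, (a i j : ℤ) ^ 2 := by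
        intro a
        rw [hQ]
        push_cast
        rfl
      rw [← e2 a, ← e2 c, ← e2 d, hQa, hQc, hQd]
      ring
    have h3 : a = c := by
      funext i j
      have h4 := (sum_eq_zero_iff_of_nonneg fun i _ => sum_nonneg fun j _ => sq_nonneg _).1 h2 i (mem_univ _)
      have h5 := (sum_eq_zero_iff_of_nonneg fun j _ => sq_nonneg _).1 h4 j (mem_univ _)
      have h6 := pow_eq_zero_iff (two_ne_zero) |>.1 h5
      omega
    subst h3
    have h4 : a = d := by
      funext i j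
      have := h1 i j
      omega
    rw [h4]
    exact ⟨rfl, rfl⟩
  · rw [card_image_of_injOn (hinj.mono (by exact_mod_cast hYX))]
    have hDs : ∑ i, Nat.log b (N i) = ∑ i, D i := by rw [hD]
    rw [hDs, ← hK]
    calc ∏ i, N i ≤ ∏ i, (3 * (2 ^ D i * (u i * q ^ D i))) := by
          refine prod_le_prod' fun i _ => (hu3 i).trans (le_of_eq ?_)
          rw [hb, mul_pow]
          ring
      _ = 3 ^ r * 2 ^ (∑ i, D i) * X.card := by
          rw [prod_mul_distrib, prod_mul_distrib, prod_const, card_univ, Fintype.card_fin, hXc,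
            prod_pow_eq_pow_sum, mul_assoc]
      _ ≤ 3 ^ r * 2 ^ (∑ i, D i) * (Y.card * (K + 1)) := Nat.mul_le_mul_left _ hcard
      _ = Y.card * (3 ^ r * 2 ^ (∑ i, D i) * (K + 1)) := by ring

end Pool.Agent.SXT
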