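import Mathlib

/-! Project SXT, module SXT-Comb (Mathlib only): a lemma on integer intervals of length at most one.

`I j = [a j, a j + e j]`, `s = min (a j)`, `t = max (a j + e j)`; suppose `t - s ≥ τ`.  The first
and the last uncovered edges `c0`, `c1` give the sets `U`, `V` of intervals to their left and right.
With `t - s - τ` marked uncovered edges `K`, `κ j` the number of marked edges before `I j` and
`pos j = 2 a j + e j - 2 κ j` one has `nd l r ≤ τ - pos r + pos l`, and the two inequalities `hcut`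
contradict the estimates of `∑ U pos` and `∑ V pos`. -/

namespace SXT

private theorem odd_sum (n : ℕ) : ∑ k ∈ Finset.range n, (2 * (k : ℤ) + 1) = (n : ℤ) ^ 2 := by
  induction n with
  | zero => simp
  | succ n ih =>
    rw [Finset.sum_range_succ, ih]
    push_cast
    ring

private theorem cov_sum {J : Type*} (U : Finset J) (f : J → ℤ) (n : ℕ)
    (hf : ∀ j ∈ U, 0 ≤ f j) (hcov : ∀ k < n, ∃ j ∈ U, f j = 2 * (k : ℤ) + 1) :
    (n : ℤ) ^ 2 ≤ ∑ j ∈ U, f j := by
  classical
  rcases Nat.eq_zero_or_pos n with h0 | h0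
  · subst h0
    have : 0 ≤ ∑ j ∈ U, f j := Finset.sum_nonneg hf
    simpa using this
  obtain ⟨j0, -, -⟩ := hcov 0 h0
  have h1 : ∀ k : ℕ, ∃ j : J, k < n → j ∈ U ∧ f j = 2 * (k : ℤ) + 1 := by
    intro k
    by_cases hk : k < n
    · obtain ⟨j, hj, hfj⟩ := hcov k hk
      exact ⟨j, fun _ => ⟨hj, hfj⟩⟩
    · exact ⟨j0, fun h => absurd h hk⟩
  choose g hg using h1
  have hinj : Set.InjOn g (Finset.range n) := by
    intro k hk k' hk' hkk
    have h2 := (hg k (Finset.mem_range.1 hk)).2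
    have h3 := (hg k' (Finset.mem_range.1 hk')).2
    rw [hkk, h3] at h2
    omega
  rw [← odd_sum]
  calc ∑ k ∈ Finset.range n, (2 * (k : ℤ) + 1) = ∑ k ∈ Finset.range n, f (g k) :=
        Finset.sum_congr rfl fun k hk => ((hg k (Finset.mem_range.1 hk)).2).symm
    _ = ∑ j ∈ (Finset.range n).image g, f j := (Finset.sum_image hinj).symm
    _ ≤ ∑ j ∈ U, f j := by
        refine Finset.sum_le_sum_of_subset_of_nonneg ?_ (fun j hj _ => hf j hj)
        intro j hj
        obtain ⟨k, hk, rfl⟩ := Finset.mem_image.1 hj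
        exact (hg k (Finset.mem_range.1 hk)).1

private theorem dbl_sum {J : Type*} (U V : Finset J) (τ : ℤ) (pos : J → ℤ) :
    ∑ l ∈ U, ∑ r ∈ V, (τ - pos r + pos l) =
      (U.card : ℤ) * V.card * τ - U.card * (∑ r ∈ V, pos r) + V.card * (∑ l ∈ U, pos l) := by
  have h1 : ∀ l ∈ U, ∑ r ∈ V, (τ - pos r + pos l) =
      V.card * τ - (∑ r ∈ V, pos r) + V.card * pos l := by
    intro l _
    rw [Finset.sum_add_distrib, Finset.sum_sub_distrib, Finset.sum_const, Finset.sum_const,
      nsmul_eq_mul, nsmul_eq_mul]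
  rw [Finset.sum_congr rfl h1, Finset.sum_add_distrib, Finset.sum_const, nsmul_eq_mul,
    ← Finset.mul_sum]
  ring

private theorem final_ineq {n1 nr m τ s SU SV ST : ℤ} (h1 : 1 ≤ n1) (h2 : 1 ≤ nr) (hm : m + 1 ≤ τ)
    (hm0 : 0 ≤ m)
    (hSU : SU ≤ 2 * s * n1 + n1 ^ 2) (hSV : 2 * (s + τ) * nr - nr ^ 2 ≤ SV)
    (hc0 : 0 ≤ n1 * (m - n1) * τ - n1 * ST + m * SU)
    (hc1 : 0 ≤ nr * (m - nr) * τ + nr * ST - m * SV) : False := by
  have e1 : 0 ≤ nr * (n1 * (m - n1) * τ - n1 * ST + m * SU) +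
      n1 * (nr * (m - nr) * τ + nr * ST - m * SV) :=
    add_nonneg (mul_nonneg (by linarith) hc0) (mul_nonneg (by linarith) hc1)
  have e2 : m * nr * SU ≤ m * nr * (2 * s * n1 + n1 ^ 2) :=
    mul_le_mul_of_nonneg_left hSU (mul_nonneg hm0 (by linarith))
  have e3 : m * n1 * (2 * (s + τ) * nr - nr ^ 2) ≤ m * n1 * SV :=
    mul_le_mul_of_nonneg_left hSV (mul_nonneg hm0 (by linarith))
  have e4 : 0 ≤ n1 * nr * (n1 + nr) * (m - τ) := by nlinarith
  have e5 : 0 < n1 * nr * (n1 + nr) := by positivity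
  nlinarith

theorem comb {J : Type*} [Fintype J] (a e : J → ℤ) (τ : ℤ) (nd : J → J → ℤ)
    (he : ∀ j, 0 ≤ e j ∧ e j ≤ 1) (hcard : (Fintype.card J : ℤ) + 1 ≤ τ)
    (hnd : ∀ l r, a l + e l < a r → ∀ i j : ℤ, (i = a l ∨ i = a l + e l) →
      (j = a r ∨ j = a r + e r) → nd l r ≤ |i - j + τ| - (a r - a l - e l))
    (hcut : ∀ c : ℤ, (∀ j, a j + e j ≤ c ∨ c + 1 ≤ a j) →
      0 ≤ ∑ l ∈ Finset.univ.filter (fun l => a l + e l ≤ c),
        ∑ r ∈ Finset.univ.filter (fun r => c + 1 ≤ a r), nd l r) :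
    ∃ s t : ℤ, t - s + 1 ≤ τ ∧ ∀ j, s ≤ a j ∧ a j + e j ≤ t := by
  classical
  rcases isEmpty_or_nonempty J with hJ | hJ
  · refine ⟨0, 0, ?_, fun j => isEmptyElim j⟩
    rw [Fintype.card_eq_zero] at hcard
    simpa using hcard
  obtain ⟨js, -, hjs⟩ := Finset.exists_min_image Finset.univ a Finset.univ_nonempty
  obtain ⟨jt, -, hjt⟩ := Finset.exists_max_image Finset.univ (fun j => a j + e j)
    Finset.univ_nonempty
  obtain ⟨s, hs⟩ : ∃ s, s = a js := ⟨_, rfl⟩
  obtain ⟨t, ht⟩ : ∃ t, t = a jt + e jt := ⟨_, rfl⟩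
  have hsj : ∀ j, s ≤ a j := fun j => by rw [hs]; exact hjs j (Finset.mem_univ j)
  have htj : ∀ j, a j + e j ≤ t := fun j => by rw [ht]; exact hjt j (Finset.mem_univ j)
  refine ⟨s, t, ?_, fun j => ⟨hsj j, htj j⟩⟩
  by_contra hcon
  have hts : τ ≤ t - s := by omega
  obtain ⟨m, hm⟩ : ∃ m : ℤ, m = (Fintype.card J : ℤ) := ⟨_, rfl⟩
  rw [← hm] at hcard
  have hm0 : 0 ≤ m := by rw [hm]; exact Int.natCast_nonneg _
  -- uncovered edges
  obtain ⟨Un, hUn⟩ : ∃ Un : Finset ℤ, Un = (Finset.Ico s t).filter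
      (fun c => ∀ j, a j + e j ≤ c ∨ c + 1 ≤ a j) := ⟨_, rfl⟩
  have hUnm : ∀ c ∈ Un, (s ≤ c ∧ c < t) ∧ ∀ j, a j + e j ≤ c ∨ c + 1 ≤ a j := by
    intro c hc
    rw [hUn, Finset.mem_filter, Finset.mem_Ico] at hc
    exact hc
  have hcov : ∀ c, s ≤ c → c < t → c ∉ Un → ∃ j, a j = c ∧ e j = 1 := by
    intro c h1 h2 h3
    rw [hUn, Finset.mem_filter, Finset.mem_Ico] at h3
    have h4 : ¬ ∀ j, a j + e j ≤ c ∨ c + 1 ≤ a j := fun h => h3 ⟨⟨h1, h2⟩, h⟩
    push Not at h4
    obtain ⟨j, h5, h6⟩ := h4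
    have := he j
    exact ⟨j, by omega, by omega⟩
  have hUncard : t - s - m ≤ (Un.card : ℤ) := by
    have h1 : (Finset.Ico s t) \ Un ⊆ Finset.univ.image a := by
      intro c hc
      rw [Finset.mem_sdiff, Finset.mem_Ico] at hc
      obtain ⟨j, hj, -⟩ := hcov c hc.1.1 hc.1.2 hc.2
      exact Finset.mem_image.2 ⟨j, Finset.mem_univ j, hj⟩
    have h2 := (Finset.card_le_card h1).trans Finset.card_image_le
    have h3 : (Finset.Ico s t).card ≤ Un.card + ((Finset.Ico s t) \ Un).card := by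
      refine le_trans (Finset.card_le_card ?_) (Finset.card_union_le _ _)
      intro c hc
      rw [Finset.mem_union, Finset.mem_sdiff]
      by_cases h : c ∈ Un
      · exact Or.inl h
      · exact Or.inr ⟨hc, h⟩
    rw [Int.card_Ico] at h3
    rw [Finset.card_univ] at h2
    omega
  have hUnne : Un.Nonempty := by
    rw [← Finset.card_pos]
    omega
  obtain ⟨K, hKU, hKc⟩ := Finset.exists_subset_card_eq
    (show (t - s - τ).toNat ≤ Un.card by omega)
  have hKc' : (K.card : ℤ) = t - s - τ := by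
    rw [hKc]; omega
  obtain ⟨c0, hc0, hc0min⟩ := Finset.exists_min_image Un id hUnne
  obtain ⟨c1, hc1, hc1max⟩ := Finset.exists_max_image Un id hUnne
  obtain ⟨⟨hc0s, hc0t⟩, hc0u⟩ := hUnm c0 hc0
  obtain ⟨⟨hc1s, hc1t⟩, hc1u⟩ := hUnm c1 hc1
  obtain ⟨κ, hκ⟩ : ∃ κ : J → ℤ, κ = fun j => ((K.filter (fun c => c < a j)).card : ℤ) := ⟨_, rfl⟩
  obtain ⟨pos, hpos⟩ : ∃ pos : J → ℤ, pos = fun j => 2 * a j + e j - 2 * κ j := ⟨_, rfl⟩
  -- the basic inequality
  have hbasic : ∀ l r c, a l + e l ≤ c → c + 1 ≤ a r → nd l r ≤ τ - pos r + pos l := by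
    intro l r c hl hr
    have hel := he l
    have her := he r
    have k1 : κ l ≤ κ r := by
      rw [hκ]
      have : (K.filter (fun c => c < a l)).card ≤ (K.filter (fun c => c < a r)).card := by
        refine Finset.card_le_card ?_
        intro x hx
        rw [Finset.mem_filter] at hx ⊢
        exact ⟨hx.1, by omega⟩
      dsimp only
      exact_mod_cast this
    have k2 : κ l ≤ a l - s := by
      rw [hκ]
      have h1 : (K.filter (fun c => c < a l)).card ≤ (Finset.Ico s (a l)).card := by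
        refine Finset.card_le_card ?_
        intro x hx
        rw [Finset.mem_filter] at hx
        rw [Finset.mem_Ico]
        exact ⟨(hUnm x (hKU hx.1)).1.1, hx.2⟩
      rw [Int.card_Ico] at h1
      have := hsj l
      dsimp only
      omega
    have k3 : (K.card : ℤ) ≤ κ r + (t - (a r + e r)) := by
      rw [hκ]
      have h1 : K.card ≤ (K.filter (fun c => c < a r)).card + (Finset.Ico (a r + e r) t).card := by
        refine le_trans (Finset.card_le_card ?_) (Finset.card_union_le _ _)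
        intro x hx
        rw [Finset.mem_union, Finset.mem_filter, Finset.mem_Ico]
        obtain ⟨⟨h2, h3⟩, h4⟩ := hUnm x (hKU hx)
        rcases h4 r with h5 | h5
        · exact Or.inr ⟨h5, h3⟩
        · exact Or.inl ⟨hx, by omega⟩
      rw [Int.card_Ico] at h1
      have := htj r
      dsimp only
      omega
    have h6 := hnd l r (by omega) (a l) (a r + e r) (Or.inl rfl) (Or.inr rfl)
    have h7 : |a l - (a r + e r) + τ| ≤ (a l - (a r + e r) + τ) + 2 * (κ r - κ l) := by
      rw [abs_le]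
      constructor <;> omega
    rw [hpos]
    dsimp only
    omega
  -- the two extreme sets
  obtain ⟨U, hU⟩ : ∃ U : Finset J, U = Finset.univ.filter (fun l => a l + e l ≤ c0) := ⟨_, rfl⟩
  obtain ⟨V, hV⟩ : ∃ V : Finset J, V = Finset.univ.filter (fun r => c1 + 1 ≤ a r) := ⟨_, rfl⟩
  have hUm : ∀ j, j ∈ U ↔ a j + e j ≤ c0 := by
    intro j; rw [hU, Finset.mem_filter]; exact ⟨fun h => h.2, fun h => ⟨Finset.mem_univ j, h⟩⟩
  have hVm : ∀ j, j ∈ V ↔ c1 + 1 ≤ a j := by
    intro j; rw [hV, Finset.mem_filter]; exact ⟨fun h => h.2, fun h => ⟨Finset.mem_univ j, h⟩⟩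
  have hU1 : 1 ≤ (U.card : ℤ) := by
    have h1 : js ∈ U := by
      rw [hUm]
      rcases hc0u js with h | h
      · exact h
      · omega
    have := Finset.card_pos.2 ⟨js, h1⟩
    omega
  have hV1 : 1 ≤ (V.card : ℤ) := by
    have h1 : jt ∈ V := by
      rw [hVm]
      rcases hc1u jt with h | h
      · omega
      · exact h
    have := Finset.card_pos.2 ⟨jt, h1⟩
    omega
  have hSU : ∑ j ∈ U, pos j ≤ 2 * s * U.card + (U.card : ℤ) ^ 2 := by
    have h1 := cov_sum U (fun j => 2 * c0 - (2 * a j + e j)) (c0 - s).toNat (by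
      intro j hj
      have := (hUm j).1 hj
      have := he j
      omega) (by
      intro k hk
      obtain ⟨j, hj1, hj2⟩ := hcov (c0 - 1 - k) (by omega) (by omega) (by
        intro h
        have h2 : c0 ≤ c0 - 1 - k := hc0min _ h
        omega)
      refine ⟨j, (hUm j).2 (by omega), ?_⟩
      omega)
    have h2 : ((c0 - s).toNat : ℤ) = c0 - s := by omega
    rw [h2, Finset.sum_sub_distrib, Finset.sum_const, nsmul_eq_mul] at h1
    have h3 : ∑ j ∈ U, pos j = ∑ j ∈ U, (2 * a j + e j) := by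
      refine Finset.sum_congr rfl fun j hj => ?_
      have h4 : κ j = 0 := by
        rw [hκ]
        have : K.filter (fun c => c < a j) = ∅ := by
          rw [Finset.filter_eq_empty_iff]
          intro x hx hxa
          have h5 : c0 ≤ x := hc0min x (hKU hx)
          have := (hUm j).1 hj
          have := he j
          omega
        dsimp only
        rw [this]
        rfl
      rw [hpos]
      dsimp only
      omega
    rw [h3]
    nlinarith [sq_nonneg ((U.card : ℤ) - (c0 - s))]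
  have hSV : 2 * (s + τ) * V.card - (V.card : ℤ) ^ 2 ≤ ∑ j ∈ V, pos j := by
    have h1 := cov_sum V (fun j => (2 * a j + e j) - 2 * (c1 + 1)) (t - c1 - 1).toNat (by
      intro j hj
      have := (hVm j).1 hj
      have := he j
      omega) (by
      intro k hk
      obtain ⟨j, hj1, hj2⟩ := hcov (c1 + 1 + k) (by omega) (by omega) (by
        intro h
        have h2 : c1 + 1 + k ≤ c1 := hc1max _ h
        omega)
      refine ⟨j, (hVm j).2 (by omega), ?_⟩
      omega)
    have h2 : ((t - c1 - 1).toNat : ℤ) = t - c1 - 1 := by omega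
    rw [h2, Finset.sum_sub_distrib, Finset.sum_const, nsmul_eq_mul] at h1
    have h3 : ∑ j ∈ V, pos j = ∑ j ∈ V, (2 * a j + e j) - V.card * (2 * (t - s - τ)) := by
      rw [← nsmul_eq_mul, ← Finset.sum_const, ← Finset.sum_sub_distrib]
      refine Finset.sum_congr rfl fun j hj => ?_
      have h4 : κ j = t - s - τ := by
        rw [hκ]
        have : K.filter (fun c => c < a j) = K := by
          rw [Finset.filter_eq_self]
          intro x hx
          have h5 : x ≤ c1 := hc1max x (hKU hx)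
          have := (hVm j).1 hj
          omega
        dsimp only
        rw [this]
        exact hKc'
      rw [hpos]
      dsimp only
      omega
    rw [h3]
    nlinarith [sq_nonneg ((V.card : ℤ) - (t - c1 - 1))]
  have hUcard : ∀ c (_ : ∀ j, a j + e j ≤ c ∨ c + 1 ≤ a j),
      Finset.univ.filter (fun r : J => c + 1 ≤ a r) =
        Finset.univ.filter (fun r : J => ¬ (a r + e r ≤ c)) := by
    intro c hc
    ext j
    rw [Finset.mem_filter, Finset.mem_filter]
    refine and_congr_right fun _ => ?_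
    have := he j
    rcases hc j with h | h
    · constructor <;> intro _ <;> omega
    · constructor <;> intro _ <;> omega
  have hsplitc : ∀ c (_ : ∀ j, a j + e j ≤ c ∨ c + 1 ≤ a j),
      ((Finset.univ.filter (fun l : J => a l + e l ≤ c)).card : ℤ) +
        ((Finset.univ.filter (fun r : J => c + 1 ≤ a r)).card : ℤ) = m := by
    intro c hc
    rw [hUcard c hc, hm, ← Finset.card_univ]
    exact_mod_cast Finset.card_filter_add_card_filter_not (s := (Finset.univ : Finset J))
      (fun l => a l + e l ≤ c)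
  have hsplits : ∀ c (_ : ∀ j, a j + e j ≤ c ∨ c + 1 ≤ a j),
      (∑ l ∈ Finset.univ.filter (fun l : J => a l + e l ≤ c), pos l) +
        (∑ r ∈ Finset.univ.filter (fun r : J => c + 1 ≤ a r), pos r) = ∑ j, pos j := by
    intro c hc
    rw [hUcard c hc]
    exact Finset.sum_filter_add_sum_filter_not _ _ _
  have hcutc : ∀ c (_ : ∀ j, a j + e j ≤ c ∨ c + 1 ≤ a j),
      0 ≤ ∑ l ∈ Finset.univ.filter (fun l => a l + e l ≤ c),
        ∑ r ∈ Finset.univ.filter (fun r => c + 1 ≤ a r), (τ - pos r + pos l) := by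
    intro c hc
    refine (hcut c hc).trans ?_
    refine Finset.sum_le_sum fun l hl => Finset.sum_le_sum fun r hr => ?_
    exact hbasic l r c (Finset.mem_filter.1 hl).2 (Finset.mem_filter.1 hr).2
  have q0 := hcutc c0 hc0u
  have q1 := hcutc c1 hc1u
  rw [dbl_sum] at q0 q1
  have r0 := hsplitc c0 hc0u
  have r1 := hsplitc c1 hc1u
  have t0 := hsplits c0 hc0u
  have t1 := hsplits c1 hc1u
  rw [← hU] at q0 r0 t0
  rw [← hV] at q1 r1 t1
  obtain ⟨ST, hST⟩ : ∃ ST : ℤ, ST = ∑ j, pos j := ⟨_, rfl⟩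
  rw [← hST] at t0 t1
  refine final_ineq (n1 := U.card) (nr := V.card) (m := m) (τ := τ) (s := s)
    (SU := ∑ j ∈ U, pos j) (SV := ∑ j ∈ V, pos j) (ST := ST) hU1 hV1 hcard hm0 hSU hSV ?_ ?_
  · have u1 : ((Finset.univ.filter (fun r : J => c0 + 1 ≤ a r)).card : ℤ) = m - U.card := by
      linarith
    have u2 : ∑ r ∈ Finset.univ.filter (fun r : J => c0 + 1 ≤ a r), pos r =
        ST - ∑ j ∈ U, pos j := by linarith
    rw [u1, u2] at q0
    linarith
  · have u1 : ((Finset.univ.filter (fun l : J => a l + e l ≤ c1)).card : ℤ) = m - V.card := by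
      linarith
    have u2 : ∑ l ∈ Finset.univ.filter (fun l : J => a l + e l ≤ c1), pos l =
        ST - ∑ j ∈ V, pos j := by linarith
    rw [u1, u2] at q1
    linarith

end SXT
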