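import Mathlib

/-! Project SXT, module SXT-PP (Mathlib only): a ping-pong lemma for stabilisers.

Define inductively a predicate `Q : G → Prop` (parameters `y D L i0`):
* `base`: `g ∈ zpowers (y i0) → Q g`;
* `step`: `n ≠ 0 → Q h → (∀ v ∈ L, h • v ∉ D i) → (i = i0 → h ∉ zpowers (y i0)) → Q (y i ^ n * h)`.
(a) If `Q g` then `g ∈ zpowers (y i0)` or `g = y i ^ n * h` is a `step` (with all its data) and
`g • v ∈ D i` for all `v ∈ L` (`hpp`).
(b) `Q g → Q (y j ^ m * g)` for all `j`, `m`: `m = 0` trivial.  If `g ∈ zpowers (y i0)`: for `j = i0` it is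
`base`; for `j ≠ i0` it is a `step`, since `g • v ∈ L` for `v ∈ L` (`hyL`, powers) is not in `D j` (`hL1`).
If `g ∉ zpowers (y i0)`, `g = y i ^ n * h` as in (a): if `i = j`: `y j ^ m * g = y i ^ (m + n) * h`, which is
`h` or a `step`; if `i ≠ j`: `g • v ∈ D i` is not in `D j`, so it is a `step`.
(c) So every `g ∈ closure (range y)` is `Q` (`Subgroup.closure_induction`, prove
`∀ h, Q h → Q (g * h) ∧ Q (g⁻¹ * h)`).
(d) Let `g` preserve `L` (with its inverse), `g ∉ zpowers (y i0)`, `g = y i ^ n * h` as in (a).  If `i ≠ i0`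
take any `v ∈ L`: `g • v ∈ L ∩ D i`, contradiction to `hL1`.  If `i = i0` take `v ∈ L`, `v ∉ D i0`
(`hL2`); `g⁻¹ • v ∈ L`, so `v = g • (g⁻¹ • v) ∈ D i0`, contradiction. -/

namespace SXT

/-- reduced products -/
private inductive PQ {G V ι : Type*} [Group G] [MulAction G V] (y : ι → G) (D : ι → Set V)
    (L : Set V) (i0 : ι) : G → Prop
  | base (g : G) (hg : g ∈ Subgroup.zpowers (y i0)) : PQ y D L i0 g
  | step (i : ι) (n : ℤ) (h : G) (hn : n ≠ 0) (hQ : PQ y D L i0 h) (hD : ∀ v ∈ L, h • v ∉ D i)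
      (hz : i = i0 → h ∉ Subgroup.zpowers (y i0)) : PQ y D L i0 (y i ^ n * h)

private theorem pp_pow {G V : Type*} [Group G] [MulAction G V] {y : G} {L : Set V}
    (hyL : ∀ v ∈ L, y • v ∈ L ∧ y⁻¹ • v ∈ L) {g : G} (hg : g ∈ Subgroup.zpowers y) {v : V}
    (hv : v ∈ L) : g • v ∈ L := by
  obtain ⟨n, rfl⟩ := Subgroup.mem_zpowers_iff.1 hg
  induction n with
  | zero => rwa [zpow_zero, one_smul]
  | succ n ih =>
    rw [add_comm, zpow_add, zpow_one, mul_smul]
    exact (hyL _ (ih (Subgroup.zpow_mem_zpowers y _))).1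
  | pred n ih =>
    rw [sub_eq_add_neg, add_comm, zpow_add, zpow_neg_one, mul_smul]
    exact (hyL _ (ih (Subgroup.zpow_mem_zpowers y _))).2

theorem pp {G V ι : Type*} [Group G] [MulAction G V] (y : ι → G) (D : ι → Set V) (L : Set V)
    (i0 : ι) (hdisj : ∀ i j, i ≠ j → ∀ v, v ∈ D i → v ∈ D j → False)
    (hpp : ∀ i, ∀ n : ℤ, n ≠ 0 → ∀ v, v ∉ D i → y i ^ n • v ∈ D i)
    (hL1 : ∀ i, i ≠ i0 → ∀ v ∈ L, v ∉ D i) (hL2 : ∃ v ∈ L, v ∉ D i0)
    (hyL : ∀ v ∈ L, y i0 • v ∈ L ∧ (y i0)⁻¹ • v ∈ L) {g : G}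
    (hg : g ∈ Subgroup.closure (Set.range y)) (hgL : ∀ v ∈ L, g • v ∈ L ∧ g⁻¹ • v ∈ L) :
    g ∈ Subgroup.zpowers (y i0) := by
  obtain ⟨v₀, hv₀, hv₀D⟩ := hL2
  have hstep : ∀ (j : ι) (m : ℤ) (g : G), PQ y D L i0 g → PQ y D L i0 (y j ^ m * g) := by
    intro j m g hQ
    by_cases hm : m = 0
    · rwa [hm, zpow_zero, one_mul]
    · cases hQ with
      | base _ hg =>
        by_cases hj : j = i0
        · refine PQ.base _ ?_
          rw [hj]
          exact Subgroup.mul_mem _ (Subgroup.zpow_mem_zpowers _ _) hg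
        · exact PQ.step j m g hm (PQ.base g hg)
            (fun v hv => hL1 j hj _ (pp_pow hyL hg hv)) fun h => absurd h hj
      | step i n h hn hQ hD hz =>
        by_cases hij : i = j
        · subst hij
          rw [← mul_assoc, ← zpow_add]
          by_cases hmn : m + n = 0
          · rwa [hmn, zpow_zero, one_mul]
          · exact PQ.step i (m + n) h hmn hQ hD hz
        · refine PQ.step j m _ hm (PQ.step i n h hn hQ hD hz) (fun v hv hvD => ?_) fun hj hmem => ?_
          · rw [mul_smul] at hvD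
            exact hdisj i j hij _ (hpp i n hn _ (hD v hv)) hvD
          · have h1 : (y i ^ n * h) • v₀ ∈ L := pp_pow hyL hmem hv₀
            refine hL1 i (fun h2 => hij (h2.trans hj.symm)) _ h1 ?_
            rw [mul_smul]
            exact hpp i n hn _ (hD v₀ hv₀)
  have hcl : ∀ g ∈ Subgroup.closure (Set.range y), ∀ h, PQ y D L i0 h →
      PQ y D L i0 (g * h) ∧ PQ y D L i0 (g⁻¹ * h) := by
    intro g hg
    induction hg using Subgroup.closure_induction with
    | mem x hx =>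
      obtain ⟨j, rfl⟩ := hx
      intro h hQ
      refine ⟨?_, ?_⟩
      · have := hstep j 1 h hQ
        rwa [zpow_one] at this
      · have := hstep j (-1) h hQ
        rwa [zpow_neg_one] at this
    | one =>
      intro h hQ
      rw [inv_one, one_mul]
      exact ⟨hQ, hQ⟩
    | mul a b _ _ iha ihb =>
      intro h hQ
      refine ⟨?_, ?_⟩
      · rw [mul_assoc]
        exact (iha _ (ihb h hQ).1).1
      · rw [mul_inv_rev, mul_assoc]
        exact (ihb _ (iha h hQ).2).2
    | inv a _ iha =>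
      intro h hQ
      rw [inv_inv]
      exact ⟨(iha h hQ).2, (iha h hQ).1⟩
  have hQ : PQ y D L i0 g := by
    have := (hcl g hg 1 (PQ.base 1 (Subgroup.one_mem _))).1
    rwa [mul_one] at this
  cases hQ with
  | base _ h => exact h
  | step i n h hn hQ hD hz =>
    exfalso
    by_cases hi : i = i0
    · subst hi
      have h1 := (hgL v₀ hv₀).2
      have h2 := hpp i n hn _ (hD _ h1)
      rw [← mul_smul, ← mul_smul, mul_inv_cancel, one_smul] at h2
      exact hv₀D h2
    · have h1 := (hgL v₀ hv₀).1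
      refine hL1 i hi _ h1 ?_
      rw [mul_smul]
      exact hpp i n hn _ (hD v₀ hv₀)

end SXT
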