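import Pool.Agent.SXG.Del
import Pool.Agent.SXT.PP

/-! Project SXT, module SXT-Core: finitely many translations of a tree with short hulls.

`hull i` says: the projections of the axes of the other `y j` to the axis of `y i` lie in an
interval `[s, t]` with `t - s + 1 ≤ τ`.
The ping-pong lemma `pp` is applied to the sets `D i = {v | t i + 1 ≤ ix (y i) v ∨ ix (y i) v ≤ s i - 1}` and
the axis of `y i0`.  A power `y i ^ n`, `n ≠ 0`, shifts the index by `n τ`, so it maps the complement of `D i` to `D i`.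
If `v ∈ D i ∩ D j`, `i ≠ j`, let `p` be the projection of `v` to the axis of `y i`.  For all `z` on the
axis of `y j`, `p` is between `v` and `z`, so `v` and `p` have the same projection to the axis of `y j`;
this is a contradiction to the hull of `j`. -/

namespace SXT

open SXP SXG

variable {V G : Type*} [Group G] [MulAction G V] {d : V → V → ℕ} {R : Set G}

theorem core (hC : CG d R) {ι : Type*} (y : ι → R)
    (hull : ∀ i, ∃ s t : ℤ, t - s + 1 ≤ tau hC (y i) ∧
      ∀ j, j ≠ i → ∀ z, z ∈ Ax d (y j).1 → s ≤ ix hC (y i) z ∧ ix hC (y i) z ≤ t)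
    (i0 j0 : ι) (hij : j0 ≠ i0) {g : G}
    (hg : g ∈ Subgroup.closure (Set.range fun i => (y i).1)) (hcomm : Commute g (y i0).1) :
    g ∈ Subgroup.zpowers (y i0).1 := by
  choose s t hst hz using hull
  have hself : ∀ (i : ι) (n : ℤ), ix hC (y i) (cht hC (y i) n) = n := fun i n =>
    idx_uniq (ix_spec hC (y i) _) (idx_self hC.tm (cht_spec hC (y i)).line n)
  have hax : ∀ (i : ι) (n : ℤ), cht hC (y i) n ∈ Ax d (y i).1 := fun i n =>
    ((cht_spec hC (y i)).rng _).2 ⟨n, rfl⟩
  have hix : ∀ (i : ι) (n : ℤ) (v : V),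
      ix hC (y i) ((y i).1 ^ n • v) = ix hC (y i) v + n * tau hC (y i) := fun i n v =>
    idx_uniq (ix_spec hC (y i) _) (idx_pow hC.iso (cht_spec hC (y i)).tr (ix_spec hC (y i) v) n).1
  refine pp (fun i => (y i).1) (fun i => {v | t i + 1 ≤ ix hC (y i) v ∨ ix hC (y i) v ≤ s i - 1})
    (Ax d (y i0).1) i0 ?_ ?_ ?_ ?_ ?_ hg ?_
  · intro i j hne v hi hj
    have hi' : t i + 1 ≤ ix hC (y i) v ∨ ix hC (y i) v ≤ s i - 1 := hi
    have hj' : t j + 1 ≤ ix hC (y j) v ∨ ix hC (y j) v ≤ s j - 1 := hj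
    have key : ∀ z, z ∈ Ax d (y j).1 →
        d v z = d v (cht hC (y i) (ix hC (y i) v)) + d (cht hC (y i) (ix hC (y i) v)) z := by
      intro z hzj
      have h1 := hz i j (Ne.symm hne) z hzj
      have hne' : ix hC (y i) v ≠ ix hC (y i) z := by omega
      exact (btw_proj hC (y i) hne' (min_le_left _ _) (le_max_left _ _)).symm
    have h2 : ix hC (y j) v = ix hC (y j) (cht hC (y i) (ix hC (y i) v)) := by
      refine idx_uniq (ix_spec hC (y j) v) (fun n => ?_)
      have h3 := ix_spec hC (y j) (cht hC (y i) (ix hC (y i) v)) n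
      rw [key _ (hax j n), key _ (hax j _)]
      push_cast
      linarith
    have h4 := hz j i hne _ (hax i (ix hC (y i) v))
    omega
  · intro i n hn v hv
    have hv' : ¬ (t i + 1 ≤ ix hC (y i) v ∨ ix hC (y i) v ≤ s i - 1) := hv
    show t i + 1 ≤ ix hC (y i) ((y i).1 ^ n • v) ∨ ix hC (y i) ((y i).1 ^ n • v) ≤ s i - 1
    rw [hix]
    have ht := hst i
    have h0 : (0 : ℤ) ≤ tau hC (y i) := Int.natCast_nonneg _
    rcases lt_or_gt_of_ne hn with h | h
    · right
      have h1 : n * (tau hC (y i) : ℤ) ≤ -(tau hC (y i) : ℤ) := by nlinarith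
      omega
    · left
      have h1 : (tau hC (y i) : ℤ) ≤ n * (tau hC (y i) : ℤ) := by nlinarith
      omega
  · intro i hi v hv hv'
    have h1 := hz i i0 (Ne.symm hi) v hv
    have h2 : t i + 1 ≤ ix hC (y i) v ∨ ix hC (y i) v ≤ s i - 1 := hv'
    omega
  · refine ⟨cht hC (y i0) (ix hC (y i0) (cht hC (y j0) 0)), hax _ _, fun hv' => ?_⟩
    have h1 := hz i0 j0 hij _ (hax j0 0)
    have h2 : t i0 + 1 ≤ ix hC (y i0) (cht hC (y i0) (ix hC (y i0) (cht hC (y j0) 0))) ∨
        ix hC (y i0) (cht hC (y i0) (ix hC (y i0) (cht hC (y j0) 0))) ≤ s i0 - 1 := hv'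
    rw [hself] at h2
    omega
  · intro v hv
    exact ⟨ax_smul hC.iso rfl hv, ax_smul hC.iso (by rw [inv_mul_cancel, mul_inv_cancel]) hv⟩
  · intro v hv
    exact ⟨ax_smul hC.iso hcomm hv, ax_smul hC.iso hcomm.inv_left hv⟩

end SXT
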