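import Pool.Agent.SXT.Uni

/-!
# SXT-Emb: groups containing an elementary abelian group

The bound for a group which contains `(ℤ/p)^r`, and the embedding of `(ℤ/p)^r` into a product of `r` cyclic groups
of orders divisible by `p`.
-/

set_option autoImplicit false

namespace Pool.Agent.SXT

open Finset Pool.Agent.RSV Pool.Agent.SXS

theorem upper_of_emb {A : Type*} [Group A] {p r n : ℕ} [Fact p.Prime] (hn : 6 ≤ n)
    {H : Finset (Finset (Fin n))} (h3 : Three H) (h6 : SixThree H) (φ : A →* Equiv.Perm (Fin n))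
    (hA : Auts H φ) (hF : Free φ) (L : Multiplicative (E p r) →* A)
    (hL : Function.Injective L) : (H.card : ℝ) ≤ (n : ℝ) ^ 2 * (19 / 20) ^ r := by
  obtain ⟨t, ht0, ht1, ht⟩ := exists_t_uni (Fact.out : p.Prime)
  have hA' : Auts H (φ.comp L) := fun g e he => hA (L g) e he
  have hF' : Free (φ.comp L) := fun g hg v =>
    hF (L g) (fun h => hg (hL (h.trans (map_one L).symm))) v
  have h := upper_gp hn h3 h6 (φ.comp L) hA' hF' ht0 ht1.le
  have h0 : 0 ≤ gp p t / p := by
    unfold gp
    positivity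
  exact h.trans (mul_le_mul_of_nonneg_left (pow_le_pow_left₀ h0 ht r) (by positivity))

private theorem emb_one {p N : ℕ} [Fact p.Prime] (hN : 1 ≤ N) (hp : p ∣ N) :
    ∃ f : ZMod p →+ ZMod N, Function.Injective f := by
  have hpN : p * (N / p) = N := Nat.mul_div_cancel' hp
  have hq : 0 < N / p := by
    rcases Nat.eq_zero_or_pos (N / p) with h | h
    · rw [h, mul_zero] at hpN
      omega
    · exact h
  have h0 : (zmultiplesHom (ZMod N) ((N / p : ℕ) : ZMod N)) (p : ℤ) = 0 := by
    rw [zmultiplesHom_apply, natCast_zsmul, nsmul_eq_mul, ← Nat.cast_mul, hpN]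
    exact ZMod.natCast_self N
  refine ⟨ZMod.lift p ⟨zmultiplesHom (ZMod N) ((N / p : ℕ) : ZMod N), h0⟩, ?_⟩
  rw [ZMod.lift_injective]
  intro m hm
  have h1 : ((m * ((N / p : ℕ) : ℤ) : ℤ) : ZMod N) = 0 := by
    have h2 : m • ((N / p : ℕ) : ZMod N) = 0 := hm
    rw [zsmul_eq_mul] at h2
    rw [Int.cast_mul, Int.cast_natCast]
    exact h2
  rw [ZMod.intCast_zmod_eq_zero_iff_dvd] at h1
  rw [ZMod.intCast_zmod_eq_zero_iff_dvd]
  have h3 : (N : ℤ) = (p : ℤ) * ((N / p : ℕ) : ℤ) := by
    exact_mod_cast hpN.symm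
  rw [h3] at h1
  exact Int.dvd_of_mul_dvd_mul_right (by exact_mod_cast hq.ne') h1

theorem emb_pi {r p : ℕ} [Fact p.Prime] (N : Fin r → ℕ) (hN : ∀ i, 1 ≤ N i) (hp : ∀ i, p ∣ N i) :
    ∃ L : Multiplicative (E p r) →* Multiplicative (∀ i, ZMod (N i)), Function.Injective L := by
  choose f hf using fun i => emb_one (hN i) (hp i)
  refine ⟨AddMonoidHom.toMultiplicative
    { toFun := fun c i => f i (c i)
      map_zero' := by
        funext i
        exact map_zero (f i)
      map_add' := by
        intro c d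
        funext i
        exact map_add (f i) (c i) (d i) }, ?_⟩
  intro c d hcd
  have h1 : (fun i => f i (c.toAdd i)) = fun i => f i (d.toAdd i) := hcd
  have h2 : c.toAdd = d.toAdd := by
    funext i
    exact hf i (congrFun h1 i)
  exact h2

end Pool.Agent.SXT
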