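import Mathlib

/-!
# SXT-PGrA: maximal abelian normal subgroups of `p`-groups are self-centralizing

Let `M` be an abelian normal subgroup of maximal order and `C` its centralizer. If `C ≠ M` then the image `C'` of `C` in
`Q = P / M` is a nontrivial normal subgroup, and the action of `Q` on `C'` by conjugation has a fixed point other than `1`.
It is the image of `x ∈ C`, and `M ⊔ ⟨x⟩` is a larger abelian normal subgroup.
-/

set_option autoImplicit false

namespace Pool.Agent.SXT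

private theorem pgra_larger {P : Type*} [Group P] (M : Subgroup P) (hM : M.Normal)
    (hMc : ∀ a ∈ M, ∀ b ∈ M, a * b = b * a) (x : P) (hx : ∀ a ∈ M, x * a = a * x)
    (hxg : ∀ g : P, g * x * g⁻¹ * x⁻¹ ∈ M) :
    (M ⊔ Subgroup.zpowers x).Normal ∧
      ∀ a ∈ M ⊔ Subgroup.zpowers x, ∀ b ∈ M ⊔ Subgroup.zpowers x, a * b = b * a := by
  constructor
  · constructor
    intro n hn g
    have h1 : M ⊔ Subgroup.zpowers x ≤
        (M ⊔ Subgroup.zpowers x).comap (MulAut.conj g).toMonoidHom := by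
      refine sup_le ?_ ?_
      · intro m hm
        exact Subgroup.mem_sup_left (hM.conj_mem m hm g)
      · rw [Subgroup.zpowers_le]
        show g * x * g⁻¹ ∈ M ⊔ Subgroup.zpowers x
        have h2 : g * x * g⁻¹ = (g * x * g⁻¹ * x⁻¹) * x := by group
        rw [h2]
        exact mul_mem (Subgroup.mem_sup_left (hxg g)) (Subgroup.mem_sup_right (Subgroup.mem_zpowers x))
    exact h1 hn
  · have hMM : M ≤ Subgroup.centralizer (M : Set P) := fun a ha =>
      Subgroup.mem_centralizer_iff.2 fun b hb => hMc b hb a ha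
    have hxM : Subgroup.zpowers x ≤ Subgroup.centralizer (M : Set P) := by
      rw [Subgroup.zpowers_le]
      exact Subgroup.mem_centralizer_iff.2 fun b hb => (hx b hb).symm
    have hxx : Subgroup.zpowers x ≤ Subgroup.centralizer (Subgroup.zpowers x : Set P) := by
      rw [Subgroup.zpowers_le]
      refine Subgroup.mem_centralizer_iff.2 fun b hb => ?_
      obtain ⟨k, rfl⟩ := Subgroup.mem_zpowers_iff.1 hb
      exact ((Commute.refl x).zpow_left k).eq
    have h1 : M ⊔ Subgroup.zpowers x ≤ Subgroup.centralizer (M : Set P) := sup_le hMM hxM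
    have h2 : M ⊔ Subgroup.zpowers x ≤ Subgroup.centralizer (Subgroup.zpowers x : Set P) :=
      sup_le (Subgroup.le_centralizer_iff.1 hxM) hxx
    have h3 : M ⊔ Subgroup.zpowers x ≤ Subgroup.centralizer ((M ⊔ Subgroup.zpowers x : Subgroup P) : Set P) :=
      sup_le (Subgroup.le_centralizer_iff.1 h1) (Subgroup.le_centralizer_iff.1 h2)
    intro a ha b hb
    exact Subgroup.mem_centralizer_iff.1 (h3 hb) a ha

private theorem pgra_fix {p : ℕ} [Fact p.Prime] {P : Type*} [Group P] [Finite P]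
    (hP : IsPGroup p P) (M : Subgroup P) (hM : M.Normal) (C : Subgroup P) (hC : C.Normal) (x0 : P)
    (hx0 : x0 ∈ C) (hx0M : x0 ∉ M) : ∃ x ∈ C, x ∉ M ∧ ∀ g : P, g * x * g⁻¹ * x⁻¹ ∈ M := by
  have hQ : IsPGroup p (P ⧸ M) := hP.to_quotient M
  obtain ⟨C', hC'⟩ : ∃ C' : Subgroup (P ⧸ M), C' = C.map (QuotientGroup.mk' M) := ⟨_, rfl⟩
  have hC'n : C'.Normal := by
    rw [hC']
    exact hC.map _ (QuotientGroup.mk'_surjective M)
  have hx1 : (QuotientGroup.mk' M x0 : P ⧸ M) ≠ 1 := by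
    intro h
    exact hx0M ((QuotientGroup.eq_one_iff x0).1 h)
  have hx1C : QuotientGroup.mk' M x0 ∈ C' := by
    rw [hC']
    exact Subgroup.mem_map_of_mem _ hx0
  have hcard : p ∣ Nat.card C' := by
    rcases (hQ.to_subgroup C').card_eq_or_dvd with h | h
    · exfalso
      have h1 : C' = ⊥ := Subgroup.eq_bot_of_card_eq _ h
      rw [h1] at hx1C
      exact hx1 (Subgroup.mem_bot.1 hx1C)
    · exact h
  obtain ⟨b, hb, hb1⟩ := (hQ.of_equiv ConjAct.toConjAct).exists_fixed_point_of_prime_dvd_card_of_fixed_point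
    C' hcard (a := 1) (fun g => smul_one g)
  obtain ⟨b, hbC⟩ := b
  have hbC2 := hbC
  rw [hC'] at hbC2
  obtain ⟨x, hxC, hxb⟩ := Subgroup.mem_map.1 hbC2
  refine ⟨x, hxC, fun hxM => ?_, fun g => ?_⟩
  · apply hb1
    apply Subtype.ext
    show (1 : P ⧸ M) = b
    rw [← hxb]
    exact ((QuotientGroup.eq_one_iff x).2 hxM).symm
  · have h1 := hb (ConjAct.toConjAct (QuotientGroup.mk' M g))
    have h2 := congrArg Subtype.val h1
    rw [ConjAct.Subgroup.val_conj_smul, ConjAct.smul_def, ConjAct.ofConjAct_toConjAct] at h2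
    have h3 : QuotientGroup.mk' M g * b * (QuotientGroup.mk' M g)⁻¹ = b := h2
    rw [← QuotientGroup.eq_one_iff]
    show QuotientGroup.mk' M (g * x * g⁻¹ * x⁻¹) = 1
    rw [map_mul, map_mul, map_mul, map_inv, map_inv, hxb, h3, mul_inv_cancel]

theorem exists_abelian {p : ℕ} [Fact p.Prime] {P : Type*} [Group P] [Finite P]
    (hP : IsPGroup p P) :
    ∃ M : Subgroup P, M.Normal ∧ (∀ a ∈ M, ∀ b ∈ M, a * b = b * a) ∧
      ∀ x, (∀ a ∈ M, x * a = a * x) → x ∈ M := by
  obtain ⟨M, ⟨hM, hMc⟩, hmax⟩ := Set.exists_max_image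
    {M : Subgroup P | M.Normal ∧ ∀ a ∈ M, ∀ b ∈ M, a * b = b * a} (fun M => Nat.card M) (Set.toFinite _)
    ⟨⊥, inferInstance, fun a ha b hb => by rw [Subgroup.mem_bot.1 ha, Subgroup.mem_bot.1 hb]⟩
  refine ⟨M, hM, hMc, ?_⟩
  by_contra hcon
  push Not at hcon
  obtain ⟨x0, hx0, hx0M⟩ := hcon
  have hC : (Subgroup.centralizer (M : Set P)).Normal := by
    constructor
    intro n hn g
    rw [Subgroup.mem_centralizer_iff] at hn ⊢
    intro h hh
    have h1 := hn (g⁻¹ * h * g) (by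
      have h2 := hM.conj_mem h hh g⁻¹
      rwa [inv_inv] at h2)
    calc h * (g * n * g⁻¹) = g * ((g⁻¹ * h * g) * n) * g⁻¹ := by group
      _ = g * (n * (g⁻¹ * h * g)) * g⁻¹ := by rw [h1]
      _ = g * n * g⁻¹ * h := by group
  obtain ⟨x, hxC, hxM, hxg⟩ := pgra_fix hP M hM _ hC x0
    (Subgroup.mem_centralizer_iff.2 fun a ha => (hx0 a ha).symm) hx0M
  obtain ⟨h1, h2⟩ := pgra_larger M hM hMc x (fun a ha => (Subgroup.mem_centralizer_iff.1 hxC a ha).symm) hxg
  have h3 := hmax (M ⊔ Subgroup.zpowers x) ⟨h1, h2⟩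
  have h4 := Subgroup.eq_of_le_of_card_ge (le_sup_left : M ≤ M ⊔ Subgroup.zpowers x) h3
  apply hxM
  rw [h4]
  exact Subgroup.mem_sup_right (Subgroup.mem_zpowers x)

end Pool.Agent.SXT
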