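import Mathlib

/-!
# SXT-PGrB: the order of a group with a self-centralizing normal subgroup `M`

A finite group `G` has a generating set `S` with `2 ^ S.card ≤ Nat.card G`, an automorphism is determined by its values
on `S`, and conjugation maps `P` to `MulAut M` with kernel inside `M`.
-/

set_option autoImplicit false

namespace Pool.Agent.SXT

private theorem exists_small_gen (G : Type*) [Group G] [Finite G] :
    ∃ S : Finset G, Subgroup.closure (S : Set G) = ⊤ ∧ 2 ^ S.card ≤ Nat.card G := by
  classical
  by_contra hcon
  push Not at hcon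
  have key : ∀ n : ℕ, ∃ S : Finset G, S.card = n ∧
      2 ^ n ≤ Nat.card (Subgroup.closure (S : Set G)) := by
    intro n
    induction n with
    | zero =>
      refine ⟨∅, rfl, ?_⟩
      have : 0 < Nat.card (Subgroup.closure ((∅ : Finset G) : Set G)) := Nat.card_pos
      simpa using this
    | succ n ih =>
      obtain ⟨S, hS, hn⟩ := ih
      have hle : 2 ^ S.card ≤ Nat.card G := by
        rw [hS]
        exact hn.trans (Subgroup.card_le_card_group _)
      have hne : Subgroup.closure (S : Set G) ≠ ⊤ := fun h => by
        have := hcon S h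
        omega
      obtain ⟨x, hx⟩ : ∃ x, x ∉ Subgroup.closure (S : Set G) := by
        by_contra hall
        push Not at hall
        exact hne (Subgroup.eq_top_iff' _ |>.2 hall)
      have hxS : x ∉ S := fun h => hx (Subgroup.subset_closure h)
      refine ⟨insert x S, by rw [Finset.card_insert_of_notMem hxS, hS], ?_⟩
      set H := Subgroup.closure (S : Set G) with hH
      set K := Subgroup.closure ((insert x S : Finset G) : Set G) with hK
      have hHK : H ≤ K := Subgroup.closure_mono (by
        intro y hy
        simp only [Finset.coe_insert]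
        exact Set.mem_insert_of_mem _ hy)
      have hxK : x ∈ K := Subgroup.subset_closure (by simp)
      have hdvd : Nat.card H ∣ Nat.card K := Subgroup.card_dvd_of_le hHK
      have hneq : Nat.card H ≠ Nat.card K := by
        intro h
        have := Subgroup.eq_of_le_of_card_ge hHK h.ge
        exact hx (this ▸ hxK)
      obtain ⟨c, hc⟩ := hdvd
      have hKpos : 0 < Nat.card K := Nat.card_pos
      have hc2 : 2 ≤ c := by
        rcases c with _ | _ | c
        · simp at hc
          omega
        · simp at hc
          exact absurd hc.symm hneq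
        · omega
      calc 2 ^ (n + 1) = 2 ^ n * 2 := pow_succ _ _
        _ ≤ Nat.card H * c := Nat.mul_le_mul hn hc2
        _ = Nat.card K := hc.symm
  obtain ⟨S, hS, hn⟩ := key (Nat.card G)
  have h1 := hn.trans (Subgroup.card_le_card_group _)
  have h2 : Nat.card G < 2 ^ Nat.card G := Nat.lt_two_pow_self
  omega

private theorem card_mulAut_le (M : Type*) [Group M] [Finite M] :
    Nat.card (MulAut M) ≤ Nat.card M ^ Nat.log 2 (Nat.card M) := by
  classical
  obtain ⟨S, hS, hc⟩ := exists_small_gen M
  have hinj : Function.Injective (fun (f : MulAut M) (s : S) => f (s : M)) := by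
    intro f g hfg
    have heq : f.toMonoidHom = g.toMonoidHom := by
      refine MonoidHom.eq_of_eqOn_dense hS ?_
      intro s hs
      exact congrFun hfg ⟨s, hs⟩
    ext m
    exact DFunLike.congr_fun heq m
  have h1 := Nat.card_le_card_of_injective _ hinj
  rw [Nat.card_fun] at h1
  have h2 : Nat.card S = S.card := by simp
  rw [h2] at h1
  refine h1.trans (Nat.pow_le_pow_right Nat.card_pos ?_)
  exact Nat.le_log_of_pow_le (by norm_num) hc

theorem card_le_of_self {P : Type*} [Group P] [Finite P] (M : Subgroup P) (hM : M.Normal)
    (hC : ∀ x, (∀ a ∈ M, x * a = a * x) → x ∈ M) :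
    Nat.card P ≤ Nat.card M ^ (Nat.log 2 (Nat.card M) + 1) := by
  classical
  let φ : P →* MulAut M := MulAut.conjNormal
  have hker : φ.ker ≤ M := by
    intro x hx
    refine hC x ?_
    intro a ha
    have h1 : φ x = 1 := hx
    have h2 : ((φ x ⟨a, ha⟩ : M) : P) = a := by rw [h1]; rfl
    have h3 : ((φ x ⟨a, ha⟩ : M) : P) = x * a * x⁻¹ := MulAut.conjNormal_apply x ⟨a, ha⟩
    rw [h3] at h2
    calc x * a = x * a * x⁻¹ * x := by group
      _ = a * x := by rw [h2]
  have h1 : Nat.card P = Nat.card φ.ker * Nat.card φ.range := by
    have h := Subgroup.card_mul_index φ.ker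
    rw [Subgroup.index_ker] at h
    exact h.symm
  have h2 : Nat.card φ.ker ≤ Nat.card M := Nat.card_le_card_of_injective _ (Subgroup.inclusion_injective hker)
  have h3 : Nat.card φ.range ≤ Nat.card (MulAut M) := by
    have : Finite (MulAut M) := inferInstance
    exact Subgroup.card_le_card_group _
  calc Nat.card P = Nat.card φ.ker * Nat.card φ.range := h1
    _ ≤ Nat.card M * Nat.card M ^ Nat.log 2 (Nat.card M) := Nat.mul_le_mul h2 (h3.trans (card_mulAut_le M))
    _ = Nat.card M ^ (Nat.log 2 (Nat.card M) + 1) := by rw [pow_succ]; ring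

end Pool.Agent.SXT
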