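import Pool.Agent.SXT.AbE
import Pool.Agent.SXT.PGrA
import Pool.Agent.SXT.PGrB

/-!
# SXT-ExpG: finite groups of exponent `e` contain elementary abelian groups of rank `c_e √(log |A|)`

PLAN. Let `a = Nat.card A ≥ 2` (if `A` is trivial take `p = 2`, `r = 0`; `log 1 = 0`). All prime divisors of `a` divide `e` (Cauchy), so there are
at most `e` of them and `a = ∏_p p ^ (v_p a)` (`Nat.factorization_prod_pow_eq_self`) has a prime `p` with `a ≤ (p ^ (v_p a)) ^ e`. Let `P` be a
Sylow `p`-subgroup (`Sylow.card_eq_multiplicity`), `a ≤ |P| ^ e`. Let `M` be the subgroup of `exists_abelian` for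
`P`, `m = |M|`: `|P| ≤ m ^ (Nat.log 2 m + 1)` (`card_le_of_self`). `M` is a commutative group of exponent dividing `e`:
`exists_emb_exp` gives `(ℤ/p')^r` inside `M`, `m ≤ e ^ r`. (The prime `p'` need not be shown equal to `p`.)
Then `log a ≤ e * (log₂ m + 1) * log m` and `log m ≤ r * log e`, `log₂ m ≤ r * log e / log 2`; if `r = 0` then `m = 1`, `a = 1`,
contradiction; so `1 ≤ r` and `log a ≤ e * (log e / log 2 + 1) * log e * r ^ 2`. So `c = 1 / √(e * (log e / log 2 + 1) * log e + 1)` works.
-/

set_option autoImplicit false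

namespace Pool.Agent.SXT

open Finset Pool.Agent.SXS

universe u

private theorem eg_prime {e a : ℕ} (ha : 2 ≤ a) (h : ∀ p, p.Prime → p ∣ a → p ∣ e) (he : 1 ≤ e) :
    ∃ p, p.Prime ∧ a ≤ (p ^ a.factorization p) ^ e := by
  by_contra hc
  push Not at hc
  have hne : a.primeFactors.Nonempty := Nat.nonempty_primeFactors.2 (by omega)
  have h1 : ∏ p ∈ a.primeFactors, (p ^ a.factorization p) ^ e < ∏ p ∈ a.primeFactors, a := by
    refine Finset.prod_lt_prod_of_nonempty (fun p hp => ?_) (fun p hp => hc p (Nat.prime_of_mem_primeFactors hp)) hne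
    exact pow_pos (pow_pos (Nat.prime_of_mem_primeFactors hp).pos _) _
  have h2 : ∏ p ∈ a.primeFactors, (p ^ a.factorization p) ^ e = a ^ e := by
    rw [Finset.prod_pow]
    congr 1
    exact Nat.prod_factorization_pow_eq_self (by omega)
  have h3 : a.primeFactors.card ≤ e := by
    have : a.primeFactors ⊆ Finset.Icc 1 e := by
      intro p hp
      have hp1 := Nat.prime_of_mem_primeFactors hp
      rw [Finset.mem_Icc]
      exact ⟨hp1.one_lt.le, Nat.le_of_dvd (by omega) (h p hp1 (Nat.dvd_of_mem_primeFactors hp))⟩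
    calc a.primeFactors.card ≤ (Finset.Icc 1 e).card := Finset.card_le_card this
      _ = e := by simp
  rw [h2, Finset.prod_const] at h1
  exact absurd h1 (not_lt.2 (Nat.pow_le_pow_right (by omega) h3))

private theorem eg_real {e a P m r : ℕ} (he : 1 ≤ e) (ha : 1 ≤ a) (hP1 : 1 ≤ P) (hm1 : 1 ≤ m) (h1 : a ≤ P ^ e)
    (h2 : P ≤ m ^ (Nat.log 2 m + 1)) (h3 : m ≤ e ^ r) :
    (1 / √((e : ℝ) * (Real.log e / Real.log 2 + 1) * Real.log e + 1)) * √(Real.log a) ≤ r := by
  have hl2 : 0 < Real.log 2 := Real.log_pos (by norm_num)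
  have hle : 0 ≤ Real.log e := Real.log_natCast_nonneg e
  have hlm : 0 ≤ Real.log m := Real.log_natCast_nonneg m
  have hlP : 0 ≤ Real.log P := Real.log_natCast_nonneg P
  set K : ℝ := (e : ℝ) * (Real.log e / Real.log 2 + 1) * Real.log e + 1 with hK
  have hKpos : 0 < K := by positivity
  have e1 : Real.log a ≤ e * Real.log P := by
    have := Real.log_le_log (by exact_mod_cast ha) (show (a : ℝ) ≤ (P : ℝ) ^ e by exact_mod_cast h1)
    rwa [Real.log_pow] at this
  have e2 : Real.log P ≤ (Nat.log 2 m + 1) * Real.log m := by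
    have := Real.log_le_log (by exact_mod_cast hP1) (show (P : ℝ) ≤ (m : ℝ) ^ (Nat.log 2 m + 1) by exact_mod_cast h2)
    rw [Real.log_pow] at this
    exact_mod_cast this
  have e3 : Real.log m ≤ r * Real.log e := by
    have := Real.log_le_log (by exact_mod_cast hm1) (show (m : ℝ) ≤ (e : ℝ) ^ r by exact_mod_cast h3)
    rwa [Real.log_pow] at this
  have e4 : (Nat.log 2 m : ℝ) ≤ Real.log m / Real.log 2 := by
    have : 2 ^ Nat.log 2 m ≤ m := Nat.pow_log_le_self 2 (by omega)
    have := Real.log_le_log (by positivity) (show ((2 : ℝ) ^ Nat.log 2 m) ≤ (m : ℝ) by exact_mod_cast this)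
    rw [Real.log_pow] at this
    rwa [le_div_iff₀ hl2]
  have e5 : Real.log a ≤ K * (r : ℝ) ^ 2 := by
    have h0 : (0 : ℝ) ≤ r := Nat.cast_nonneg r
    have f1 : (Nat.log 2 m : ℝ) + 1 ≤ r * Real.log e / Real.log 2 + 1 := by
      have : Real.log m / Real.log 2 ≤ r * Real.log e / Real.log 2 := by gcongr
      linarith
    have f2 : Real.log P ≤ (r * Real.log e / Real.log 2 + 1) * (r * Real.log e) :=
      e2.trans (mul_le_mul f1 e3 hlm (by positivity))
    rcases Nat.eq_zero_or_pos r with hr | hr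
    · subst hr
      simp only [Nat.cast_zero, zero_mul, mul_zero] at f2
      have : Real.log P = 0 := le_antisymm f2 hlP
      rw [this] at e1
      simpa using e1
    · have hr1 : (1 : ℝ) ≤ r := by exact_mod_cast hr
      have f3 : r * Real.log e / Real.log 2 + 1 ≤ r * (Real.log e / Real.log 2 + 1) := by
        have : r * (Real.log e / Real.log 2 + 1) = r * Real.log e / Real.log 2 + r := by ring
        rw [this]; linarith
      have f4 : Real.log P ≤ (r * (Real.log e / Real.log 2 + 1)) * (r * Real.log e) :=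
        f2.trans (mul_le_mul_of_nonneg_right f3 (by positivity))
      calc Real.log a ≤ e * Real.log P := e1
        _ ≤ e * ((r * (Real.log e / Real.log 2 + 1)) * (r * Real.log e)) := by gcongr
        _ = ((e : ℝ) * (Real.log e / Real.log 2 + 1) * Real.log e) * (r : ℝ) ^ 2 := by ring
        _ ≤ K * (r : ℝ) ^ 2 := by
          apply mul_le_mul_of_nonneg_right _ (by positivity)
          rw [hK]; linarith
  have e6 : √(Real.log a) ≤ √K * r := by
    calc √(Real.log a) ≤ √(K * (r : ℝ) ^ 2) := Real.sqrt_le_sqrt e5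
      _ = √K * r := by rw [Real.sqrt_mul hKpos.le, Real.sqrt_sq (Nat.cast_nonneg r)]
  have hs : 0 < √K := Real.sqrt_pos.2 hKpos
  rw [one_div, inv_mul_le_iff₀ hs]
  exact e6

theorem exists_emb_group {e : ℕ} (he : 1 ≤ e) :
    ∃ c > (0 : ℝ), ∀ (A : Type u) [Group A] [Finite A], (∀ a : A, a ^ e = 1) →
      ∃ (p r : ℕ) (_ : Fact p.Prime) (L : Multiplicative (E p r) →* A),
        Function.Injective L ∧ c * √(Real.log (Nat.card A)) ≤ r := by
  have hle : 0 ≤ Real.log e := Real.log_natCast_nonneg e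
  have hl2 : 0 < Real.log 2 := Real.log_pos (by norm_num)
  refine ⟨1 / √((e : ℝ) * (Real.log e / Real.log 2 + 1) * Real.log e + 1), by positivity, ?_⟩
  intro A _ _ hA
  have hcard : 0 < Nat.card A := Nat.card_pos
  rcases Nat.lt_or_ge (Nat.card A) 2 with h1 | h1
  · refine ⟨2, 0, ⟨Nat.prime_two⟩, 1, ?_, ?_⟩
    · intro x y _
      exact Subsingleton.elim (α := Fin 0 → ZMod 2) x y
    · have : Nat.card A = 1 := by omega
      rw [this]; simp
  obtain ⟨p, hp, hpa⟩ := eg_prime h1 (fun q hq hqa => by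
    haveI := Fact.mk hq
    obtain ⟨x, hx⟩ := exists_prime_orderOf_dvd_card' q hqa
    rw [← hx]
    exact orderOf_dvd_of_pow_eq_one (hA x)) he
  haveI := Fact.mk hp
  obtain ⟨P⟩ : Nonempty (Sylow p A) := inferInstance
  have hPc : Nat.card P = p ^ (Nat.card A).factorization p := P.card_eq_multiplicity
  obtain ⟨M, hMn, hMc, hMs⟩ := exists_abelian (P := P) P.isPGroup'
  have hle2 := card_le_of_self M hMn hMs
  letI : CommGroup M := { (inferInstance : Group M) with
    mul_comm := fun a b => Subtype.ext (hMc a a.2 b b.2) }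
  obtain ⟨p', r, hp', L, hL, hr⟩ := exists_emb_exp (A := M) he (fun a => by
    have := hA ((a : P) : A)
    apply Subtype.ext
    apply Subtype.ext
    simpa using this)
  refine ⟨p', r, hp', ((P : Subgroup A).subtype.comp M.subtype).comp L, ?_, ?_⟩
  · have i1 : Function.Injective ((P : Subgroup A).subtype.comp M.subtype) := by
      rw [MonoidHom.coe_comp]
      exact (Subgroup.subtype_injective _).comp (Subgroup.subtype_injective _)
    rw [MonoidHom.coe_comp]
    exact i1.comp hL
  · refine eg_real he (by omega) (P := Nat.card P) Nat.card_pos (m := Nat.card M) Nat.card_pos ?_ hle2 hr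
    rw [hPc]; exact hpa

end Pool.Agent.SXT
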