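import Pool.Agent.SXS.Cyc
import Pool.Agent.SXT.ApfP

/-!
# SXT-LowA: the lower bound for finite abelian groups with an absolute constant
-/

set_option autoImplicit false

namespace Pool.Agent.SXT

open Finset Real Pool.Agent.RSV Pool.Agent.SXS

private theorem la_one {n : ℕ} (hn : 3 ≤ n) : (1 : ℝ) ≤ √(log n) := by
  have h0 : (3 : ℝ) ≤ n := by exact_mod_cast hn
  have h1 : (1 : ℝ) ≤ log n := by
    rw [Real.le_log_iff_exp_le (by linarith)]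
    have := Real.exp_one_lt_d9
    linarith
  rw [Real.one_le_sqrt]
  exact h1

private theorem la_exp {t : ℝ} (ht : 1 ≤ t) : (25 : ℝ) ≤ exp (4 * t) := by
  have h3 : exp 4 ≤ exp (4 * t) := Real.exp_le_exp.2 (by linarith)
  have h4 : exp (4 : ℝ) = exp 1 ^ 4 := by
    rw [← Real.exp_nat_mul]
    norm_num
  have h5 : (2.7 : ℝ) < exp 1 := lt_trans (by norm_num) Real.exp_one_gt_d9
  have h6 : (2.7 : ℝ) ^ 4 ≤ exp 1 ^ 4 := pow_le_pow_left₀ (by norm_num) h5.le 4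
  have h7 : (25 : ℝ) ≤ (2.7 : ℝ) ^ 4 := by norm_num
  rw [h4] at h3
  linarith

private theorem la_two : (4 : ℝ) ≤ exp 2 := by
  have h4 : exp (2 : ℝ) = exp 1 ^ 2 := by
    rw [← Real.exp_nat_mul]
    norm_num
  have h5 : (2.7 : ℝ) < exp 1 := lt_trans (by norm_num) Real.exp_one_gt_d9
  have h6 : (2.7 : ℝ) ^ 2 ≤ exp 1 ^ 2 := pow_le_pow_left₀ (by norm_num) h5.le 2
  have h7 : (4 : ℝ) ≤ (2.7 : ℝ) ^ 2 := by norm_num
  rw [h4]
  linarith

private theorem la_mono {M n : ℕ} (hM : 1 ≤ M) (hMn : M ≤ n) : √(log (M : ℝ)) ≤ √(log n) := by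
  have h1 : (0 : ℝ) < M := by exact_mod_cast hM
  exact Real.sqrt_le_sqrt (Real.log_le_log h1 (by exact_mod_cast hMn))

private theorem la_log {b N : ℕ} (hb : 2 ≤ b) (hN : 1 ≤ N) :
    (Nat.log b N : ℝ) * log b ≤ log N := by
  have h1 : b ^ Nat.log b N ≤ N := Nat.pow_log_le_self b (by omega)
  have h2 : ((b : ℝ)) ^ Nat.log b N ≤ N := by exact_mod_cast h1
  have hb0 : (0 : ℝ) < b := by
    have : 0 < b := by omega
    exact_mod_cast this
  have h3 := Real.log_le_log (pow_pos hb0 _) h2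
  rwa [Real.log_pow] at h3

private theorem la_sum {r : ℕ} {N : Fin r → ℕ} (hN : ∀ i, 1 ≤ N i) {q : ℕ} {s : ℝ} (hs : 0 ≤ s)
    (hs2 : s ^ 2 = log ((∏ i, N i : ℕ) : ℝ)) (hq1 : 1 ≤ q) (hq : exp s ≤ q) :
    ((∑ i, Nat.log (2 * q) (N i) : ℕ) : ℝ) ≤ s := by
  have hb : 2 ≤ 2 * q := by omega
  have h1 : ((∑ i, Nat.log (2 * q) (N i) : ℕ) : ℝ) * log ((2 * q : ℕ) : ℝ) ≤ s ^ 2 := by
    rw [hs2]
    push_cast
    rw [Finset.sum_mul, Real.log_prod (fun i _ => by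
      have := hN i
      have h0 : (0 : ℝ) < N i := by exact_mod_cast this
      exact h0.ne')]
    refine Finset.sum_le_sum fun i _ => ?_
    have h2 := la_log hb (hN i)
    push_cast at h2
    exact h2
  have h2 : s + log 2 ≤ log ((2 * q : ℕ) : ℝ) := by
    push_cast
    have hq0 : (0 : ℝ) < q := by exact_mod_cast hq1
    rw [Real.log_mul (by norm_num) hq0.ne']
    have h3 : s ≤ log q := by
      rw [Real.le_log_iff_exp_le hq0]
      exact hq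
    linarith
  have h3 : (0 : ℝ) < log 2 := Real.log_pos (by norm_num)
  obtain ⟨S, hS⟩ : ∃ S : ℝ, S = ((∑ i, Nat.log (2 * q) (N i) : ℕ) : ℝ) := ⟨_, rfl⟩
  have hS0 : 0 ≤ S := by
    rw [hS]
    exact Nat.cast_nonneg _
  rw [← hS] at h1 ⊢
  by_contra hcon
  push Not at hcon
  have h4 : S * (s + log 2) ≤ S * log ((2 * q : ℕ) : ℝ) := mul_le_mul_of_nonneg_left h2 hS0
  nlinarith

private theorem la_big {r : ℕ} {S q : ℕ} {s : ℝ} (hS : (S : ℝ) ≤ s) (hq1 : 1 ≤ q)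
    (hq : (q : ℝ) ≤ 2 * exp s) :
    ((3 ^ r * 2 ^ S * ((r + S) * q ^ 2 + 1) : ℕ) : ℝ) ≤ exp (3 * r + 4 * s + 2) := by
  have h2 := la_two
  have he1 : (2 : ℝ) ≤ exp 1 := by
    have := Real.exp_one_gt_d9
    linarith
  have h3r : (3 : ℝ) ^ r ≤ exp (2 * r) := by
    have h3 : (3 : ℝ) ≤ exp 2 := by linarith
    have h4 : exp (2 * (r : ℝ)) = exp 2 ^ r := by
      rw [← Real.exp_nat_mul]
      congr 1
      ring
    rw [h4]
    exact pow_le_pow_left₀ (by norm_num) h3 r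
  have h2s : (2 : ℝ) ^ S ≤ exp s := by
    have h4 : (2 : ℝ) ^ S ≤ exp 1 ^ S := pow_le_pow_left₀ (by norm_num) he1 S
    rw [← Real.exp_nat_mul] at h4
    refine h4.trans (Real.exp_le_exp.2 ?_)
    linarith
  have hq1' : (1 : ℝ) ≤ q := by exact_mod_cast hq1
  have hq2 : (q : ℝ) ^ 2 ≤ 4 * exp (2 * s) := by
    have h4 : (q : ℝ) ^ 2 ≤ (2 * exp s) ^ 2 := pow_le_pow_left₀ (by linarith) hq 2
    have h5 : (2 * exp s) ^ 2 = 4 * exp (2 * s) := by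
      rw [mul_pow, ← Real.exp_nat_mul]
      norm_num
    rwa [h5] at h4
  have h6 : ((r : ℝ) + S) * q ^ 2 + 1 ≤ exp (r + s) * exp (2 * s + 2) := by
    have h7 : ((r : ℝ) + S) + 1 ≤ exp (r + s) := by
      refine (Real.add_one_le_exp _).trans (Real.exp_le_exp.2 ?_)
      linarith
    have h8 : (1 : ℝ) ≤ (q : ℝ) ^ 2 := one_le_pow₀ hq1'
    have h9 : (q : ℝ) ^ 2 ≤ exp (2 * s + 2) := by
      rw [Real.exp_add]
      have h10 : 0 < exp (2 * s) := Real.exp_pos _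
      nlinarith
    calc ((r : ℝ) + S) * q ^ 2 + 1 ≤ ((r : ℝ) + S + 1) * q ^ 2 := by nlinarith
      _ ≤ exp (r + s) * exp (2 * s + 2) := by
          refine mul_le_mul h7 h9 (by positivity) (Real.exp_pos _).le
  have h11 : exp (3 * (r : ℝ) + 4 * s + 2) =
      exp (2 * r) * exp s * (exp (r + s) * exp (2 * s + 2)) := by
    rw [← Real.exp_add, ← Real.exp_add, ← Real.exp_add]
    congr 1
    ring
  rw [h11]
  push_cast
  refine mul_le_mul (mul_le_mul h3r h2s (by positivity) (Real.exp_pos _).le) h6 (by positivity)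
    (by positivity)

private theorem la_card {r : ℕ} (N : Fin r → ℕ) (hN : ∀ i, 1 ≤ N i) :
    ∃ B : Finset (∀ i, ZMod (N i)), APF B ∧
      ((∏ i, N i : ℕ) : ℝ) ≤
        B.card * exp (3 * r + 4 * √(log ((∏ i, N i : ℕ) : ℝ)) + 2) := by
  obtain ⟨P, hP⟩ : ∃ P, P = ∏ i, N i := ⟨_, rfl⟩
  have hP1 : 1 ≤ P := by
    rw [hP]
    exact Nat.one_le_iff_ne_zero.2 (Finset.prod_ne_zero_iff.2 fun i _ => by have := hN i; omega)
  have hP1' : (1 : ℝ) ≤ P := by exact_mod_cast hP1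
  obtain ⟨s, hs⟩ : ∃ s : ℝ, s = √(log (P : ℝ)) := ⟨_, rfl⟩
  have hs0 : 0 ≤ s := by
    rw [hs]
    exact Real.sqrt_nonneg _
  have hs2 : s ^ 2 = log (P : ℝ) := by
    rw [hs]
    exact Real.sq_sqrt (Real.log_nonneg hP1')
  obtain ⟨q, hqd⟩ : ∃ q, q = ⌈exp s⌉₊ := ⟨_, rfl⟩
  have hq : exp s ≤ q := by
    rw [hqd]
    exact Nat.le_ceil _
  have he : (1 : ℝ) ≤ exp s := Real.one_le_exp hs0
  have hq1 : 1 ≤ q := by
    have : (1 : ℝ) ≤ q := he.trans hq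
    exact_mod_cast this
  have hq2 : (q : ℝ) ≤ 2 * exp s := by
    have h1 : (q : ℝ) < exp s + 1 := by
      rw [hqd]
      exact Nat.ceil_lt_add_one (Real.exp_pos _).le
    linarith
  obtain ⟨B, hB, hBc⟩ := exists_apf_pi N hN hq1
  refine ⟨B, hB, ?_⟩
  have h1 := la_sum hN hs0 (by rw [hs2, hP]) hq1 hq
  have h2 := la_big (r := r) h1 hq1 hq2
  rw [← hP, ← hs]
  rw [← hP] at hBc
  have h3 : (P : ℝ) ≤ (B.card : ℝ) * ((3 ^ r * 2 ^ (∑ i, Nat.log (2 * q) (N i)) *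
      ((r + ∑ i, Nat.log (2 * q) (N i)) * q ^ 2 + 1) : ℕ) : ℝ) := by
    exact_mod_cast hBc
  exact h3.trans (mul_le_mul_of_nonneg_left h2 (Nat.cast_nonneg _))

theorem lower_ab : ∃ C > (0 : ℝ), ∀ (r n : ℕ) (N : Fin r → ℕ), (∀ i, 1 ≤ N i) →
    (∏ i, N i) ∣ n → 3 * ∏ i, N i ≤ n →
    ∃ (H : Finset (Finset (Fin n)))
      (φ : Multiplicative (∀ i, ZMod (N i)) →* Equiv.Perm (Fin n)),
      Three H ∧ SixThree H ∧ Auts H φ ∧ Free φ ∧
      (n : ℝ) ^ 2 * exp (-C * (r + √(log n))) ≤ H.card := by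
  classical
  obtain ⟨C1, hC1, hapf⟩ := exists_apf
  refine ⟨C1 + 10, by positivity, ?_⟩
  intro r n N hN hdvd hle
  have hNne : ∀ i, NeZero (N i) := fun i => ⟨by have := hN i; omega⟩
  obtain ⟨m, hm⟩ := hdvd
  obtain ⟨B1, hB1, hB1c⟩ := la_card N hN
  obtain ⟨P, hP⟩ : ∃ P, P = ∏ i, N i := ⟨_, rfl⟩
  rw [← hP] at hm hle hB1c
  have hP1 : 1 ≤ P := by
    rw [hP]
    exact Nat.one_le_iff_ne_zero.2 (Finset.prod_ne_zero_iff.2 fun i _ => by have := hN i; omega)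
  have hm3 : 3 ≤ m := by
    by_contra h
    have h1 : P * m ≤ P * 2 := Nat.mul_le_mul_left P (by omega)
    omega
  obtain ⟨M, hM⟩ : ∃ M, M = m / 3 := ⟨_, rfl⟩
  have hM1 : 1 ≤ M := by omega
  have hM3 : 3 * M ≤ m := by omega
  have hM5 : m ≤ 5 * M := by omega
  have hMne : NeZero M := ⟨by omega⟩
  have hcard : Fintype.card (∀ i, ZMod (N i)) = P := by
    rw [Fintype.card_pi, hP]
    exact Finset.prod_congr rfl fun i _ => ZMod.card (N i)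
  have hn3 : 3 ≤ n := by
    have h1 : 3 * 1 ≤ 3 * P := Nat.mul_le_mul_left 3 hP1
    omega
  have hMPn : 3 * (M * P) ≤ n := by
    rw [hm]
    calc 3 * (M * P) = P * (3 * M) := by ring
      _ ≤ P * m := Nat.mul_le_mul_left P hM3
  obtain ⟨B0, hB0, hB0c⟩ := hapf M
  obtain ⟨S0, hS0, hS0c⟩ := mat_of_apf hB0
  obtain ⟨T, hT, hTc⟩ := mat_of_apf hB1
  obtain ⟨U, hU, hUc⟩ := mat_prod hS0 hT
  obtain ⟨H, φ, h1, h2, h3, h4, h5⟩ := build (A := ∀ i, ZMod (N i)) (M := M) (n := n)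
    (by rw [hcard, hm]; exact Dvd.intro m rfl) (by rw [hcard]; exact hMPn) hU
  refine ⟨H, φ, h1, h2, h3, h4, ?_⟩
  rw [h5, hcard, hUc, hS0c, hTc]
  push_cast
  have hMle : M ≤ n := by
    have : M * 1 ≤ M * P := Nat.mul_le_mul_left M hP1
    omega
  have hPle : P ≤ n := by omega
  obtain ⟨t, ht⟩ : ∃ t : ℝ, t = √(log (n : ℝ)) := ⟨_, rfl⟩
  have ht1 : 1 ≤ t := by
    rw [ht]
    exact la_one hn3
  have hM2 : √(log (M : ℝ)) ≤ t := by
    rw [ht]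
    exact la_mono hM1 hMle
  have hP2 : √(log (P : ℝ)) ≤ t := by
    rw [ht]
    exact la_mono hP1 hPle
  rw [← ht]
  have hM0 : (0 : ℝ) < M := by exact_mod_cast hM1
  have hP0 : (0 : ℝ) < P := by exact_mod_cast hP1
  have e1 : (M : ℝ) * exp (-C1 * t) ≤ B0.card := by
    refine le_trans (mul_le_mul_of_nonneg_left (Real.exp_le_exp.2 ?_) hM0.le) hB0c
    nlinarith
  have e2 : (P : ℝ) * exp (-(3 * r + 4 * t + 2)) ≤ B1.card := by
    rw [Real.exp_neg, ← div_eq_mul_inv, div_le_iff₀ (Real.exp_pos _)]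
    refine hB1c.trans (mul_le_mul_of_nonneg_left (Real.exp_le_exp.2 ?_) (Nat.cast_nonneg _))
    linarith
  have e4 : ((M : ℝ) * exp (-C1 * t)) * ((P : ℝ) * exp (-(3 * r + 4 * t + 2))) ≤
      (B0.card : ℝ) * B1.card := mul_le_mul e1 e2 (by positivity) (by positivity)
  have e6 := la_exp ht1
  have hr0 : (0 : ℝ) ≤ r := Nat.cast_nonneg r
  have e7 : exp (-(C1 + 10) * (r + t)) * 25 ≤ exp (-C1 * t) * exp (-(3 * r + 4 * t + 2)) := by
    calc exp (-(C1 + 10) * (r + t)) * 25 ≤ exp (-(C1 + 10) * (r + t)) * exp (4 * t) :=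
          mul_le_mul_of_nonneg_left e6 (Real.exp_pos _).le
      _ = exp (-(C1 + 10) * (r + t) + 4 * t) := by rw [Real.exp_add]
      _ ≤ exp (-C1 * t + -(3 * r + 4 * t + 2)) := Real.exp_le_exp.2 (by nlinarith)
      _ = exp (-C1 * t) * exp (-(3 * r + 4 * t + 2)) := by rw [Real.exp_add]
  have e8 : (n : ℝ) ≤ 5 * (M * P) := by
    have h6 : n ≤ 5 * (M * P) := by
      rw [hm]
      calc P * m ≤ P * (5 * M) := Nat.mul_le_mul_left P hM5
        _ = 5 * (M * P) := by ring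
    exact_mod_cast h6
  have e9 : (n : ℝ) ^ 2 ≤ 25 * ((M : ℝ) * P) ^ 2 := by
    have h6 : (n : ℝ) ^ 2 ≤ (5 * ((M : ℝ) * P)) ^ 2 := pow_le_pow_left₀ (Nat.cast_nonneg _) e8 2
    linarith
  obtain ⟨F, hF⟩ : ∃ F : ℝ, F = exp (-(C1 + 10) * (r + t)) := ⟨_, rfl⟩
  have hF0 : 0 < F := by rw [hF]; exact Real.exp_pos _
  rw [← hF] at e7 ⊢
  calc (n : ℝ) ^ 2 * F ≤ (25 * ((M : ℝ) * P) ^ 2) * F := mul_le_mul_of_nonneg_right e9 hF0.le
    _ = ((M : ℝ) * P) ^ 2 * (F * 25) := by ring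
    _ ≤ ((M : ℝ) * P) ^ 2 * (exp (-C1 * t) * exp (-(3 * r + 4 * t + 2))) :=
        mul_le_mul_of_nonneg_left e7 (by positivity)
    _ = (M : ℝ) * P * (((M : ℝ) * exp (-C1 * t)) * ((P : ℝ) * exp (-(3 * r + 4 * t + 2)))) := by
        ring
    _ ≤ (M : ℝ) * P * ((B0.card : ℝ) * B1.card) :=
        mul_le_mul_of_nonneg_left e4 (by positivity)

end Pool.Agent.SXT
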