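import Pool.Agent.SXT.UpTwo
import Pool.Agent.SXT.LowA
import Pool.Agent.SXT.Emb
import Pool.Agent.SXT.ExpG

/-!
# SXT-Fin: the assembled statement (to be copied into the hand-in)
-/

set_option autoImplicit false

namespace Pool.Agent.SXT

open Finset Pool.Agent.RSV Pool.Agent.SXS

/-- free actions of groups of bounded exponent -/
theorem upper_exp {e : ℕ} (he : 1 ≤ e) : ∃ c > (0 : ℝ), ∀ n : ℕ, 6 ≤ n →
    ∀ (A : Type) [Group A] [Finite A], (∀ a : A, a ^ e = 1) →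
      ∀ (H : Finset (Finset (Fin n))) (φ : A →* Equiv.Perm (Fin n)),
        Three H → SixThree H → Auts H φ → Free φ →
        (H.card : ℝ) ≤ (n : ℝ) ^ 2 * Real.exp (-c * √(Real.log (Nat.card A))) ∧
        ((∀ a b : A, a * b = b * a) → (H.card : ℝ) ≤ (n : ℝ) ^ 2 * (Nat.card A : ℝ) ^ (-c)) := by
  obtain ⟨c, hc, hcA⟩ := exists_emb_group.{0} he
  have hl : 0 < Real.log (20 / 19) := Real.log_pos (by norm_num)
  have hle : 0 < Real.log e + 1 := by
    have : 0 ≤ Real.log (e : ℝ) := Real.log_nonneg (by exact_mod_cast he)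
    linarith
  have h1920 : ∀ r : ℕ, ((19 : ℝ) / 20) ^ r = Real.exp (-(Real.log (20 / 19) * r)) := by
    intro r
    rw [show (19 : ℝ) / 20 = Real.exp (-Real.log (20 / 19)) by
      rw [Real.exp_neg, Real.exp_log (by norm_num)]; norm_num, ← Real.exp_nat_mul]
    congr 1
    ring
  refine ⟨min (c * Real.log (20 / 19)) (Real.log (20 / 19) / (Real.log e + 1)),
    lt_min (mul_pos hc hl) (div_pos hl hle), ?_⟩
  intro n hn A _ _ hA H φ h3 h6 hAu hF
  have hn0 : (0 : ℝ) ≤ (n : ℝ) ^ 2 := by positivity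
  have hA1 : (1 : ℝ) ≤ Nat.card A := by exact_mod_cast Nat.card_pos
  constructor
  · obtain ⟨p, r, _, L, hL, hr⟩ := hcA A hA
    refine (upper_of_emb hn h3 h6 φ hAu hF L hL).trans (mul_le_mul_of_nonneg_left ?_ hn0)
    rw [h1920]
    refine Real.exp_le_exp.2 ?_
    have h1 : min (c * Real.log (20 / 19)) (Real.log (20 / 19) / (Real.log e + 1)) *
        √(Real.log (Nat.card A)) ≤ c * Real.log (20 / 19) * √(Real.log (Nat.card A)) :=
      mul_le_mul_of_nonneg_right (min_le_left _ _) (Real.sqrt_nonneg _)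
    have h2 : Real.log (20 / 19) * (c * √(Real.log (Nat.card A))) ≤ Real.log (20 / 19) * r :=
      mul_le_mul_of_nonneg_left hr hl.le
    nlinarith
  · intro hcomm
    let _ : CommGroup A := { (inferInstance : Group A) with mul_comm := hcomm }
    obtain ⟨p, r, _, L, hL, hr⟩ := exists_emb_exp (A := A) he hA
    refine (upper_of_emb hn h3 h6 φ hAu hF L hL).trans (mul_le_mul_of_nonneg_left ?_ hn0)
    rw [h1920, Real.rpow_def_of_pos (by linarith)]
    refine Real.exp_le_exp.2 ?_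
    have h0 : 0 ≤ Real.log (Nat.card A : ℝ) := Real.log_nonneg hA1
    have h1 : Real.log (Nat.card A : ℝ) ≤ r * Real.log e := by
      have h2 : (Nat.card A : ℝ) ≤ (e : ℝ) ^ r := by exact_mod_cast hr
      have h3 := Real.log_le_log (by linarith) h2
      rwa [Real.log_pow] at h3
    have h2 : Real.log (Nat.card A : ℝ) ≤ r * (Real.log e + 1) := by
      have : (0 : ℝ) ≤ r := Nat.cast_nonneg r
      nlinarith
    have h3 : Real.log (Nat.card A : ℝ) *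
        min (c * Real.log (20 / 19)) (Real.log (20 / 19) / (Real.log e + 1)) ≤
        Real.log (Nat.card A : ℝ) * (Real.log (20 / 19) / (Real.log e + 1)) :=
      mul_le_mul_of_nonneg_left (min_le_right _ _) h0
    have h4 : Real.log (Nat.card A : ℝ) * (Real.log (20 / 19) / (Real.log e + 1)) ≤
        Real.log (20 / 19) * r := by
      rw [← mul_div_assoc, div_le_iff₀ hle]
      calc Real.log (Nat.card A : ℝ) * Real.log (20 / 19) ≤
          (r * (Real.log e + 1)) * Real.log (20 / 19) := mul_le_mul_of_nonneg_right h2 hl.le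
        _ = _ := by ring
    have h5 : Real.log (Nat.card A : ℝ) *
        -min (c * Real.log (20 / 19)) (Real.log (20 / 19) / (Real.log e + 1)) =
        -(Real.log (Nat.card A : ℝ) *
        min (c * Real.log (20 / 19)) (Real.log (20 / 19) / (Real.log e + 1))) := by ring
    linarith

theorem all_parts :
    (∀ n k : ℕ, 6 ≤ n → ∀ (H : Finset (Finset (Fin n)))
      (φ : Multiplicative (Fin k → ZMod 2) →* Equiv.Perm (Fin n)),
      Three H → SixThree H → Auts H φ → Free φ →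
      (H.card : ℝ) ≤ (n : ℝ) ^ 2 * (3 / 2 ^ (5 / 3 : ℝ)) ^ k ∧
      (n < 3 * 2 ^ k → 3 * H.card ≤ 2 * n)) ∧
    (∃ C > (0 : ℝ), ∀ n k : ℕ, 2 ^ k ∣ n → 3 * 2 ^ k ≤ n →
      ∃ (H : Finset (Finset (Fin n)))
        (φ : Multiplicative (Fin k → ZMod 2) →* Equiv.Perm (Fin n)),
        Three H ∧ SixThree H ∧ Auts H φ ∧ Free φ ∧
        (n : ℝ) ^ 2 * (3 / 2 ^ (5 / 3 : ℝ)) ^ k * Real.exp (-C * √(Real.log n)) ≤ H.card) ∧
    (∀ n k K : ℕ, 6 ≤ n → 1 ≤ K → ∀ (H : Finset (Finset (Fin n)))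
      (φ : Multiplicative (Fin k → ZMod 2) →* Equiv.Perm (Fin n)),
      Three H → SixThree H → Auts H φ → Orb φ K →
      (H.card : ℝ) ≤ 4 * (n : ℝ) ^ 2 * (K : ℝ) ^ (-(5 / 3 - Real.log 3 / Real.log 2))) ∧
    (∀ p : ℕ, p.Prime →
      (∀ t : ℝ, 0 < t → t ≤ 1 → ∀ n k : ℕ, 6 ≤ n → ∀ (H : Finset (Finset (Fin n)))
        (φ : Multiplicative (Fin k → ZMod p) →* Equiv.Perm (Fin n)),
        Three H → SixThree H → Auts H φ →
        (Free φ → (H.card : ℝ) ≤ (n : ℝ) ^ 2 *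
          (t ^ (-(((p : ℝ) - 1) / 3)) * (∑ j ∈ range p, t ^ j) / p) ^ k) ∧
        (∀ d K : ℕ, p ^ (d + 2) ≤ K → Orb φ K → (H.card : ℝ) ≤ 3 * (n : ℝ) ^ 2 *
          (t ^ (-(((p : ℝ) - 1) / 3)) * (∑ j ∈ range p, t ^ j) / p) ^ d)) ∧
      ∃ t : ℝ, 0 < t ∧ t < 1 ∧
        t ^ (-(((p : ℝ) - 1) / 3)) * (∑ j ∈ range p, t ^ j) / p ≤ 19 / 20) ∧
    (∀ (r n p : ℕ) (N : Fin r → ℕ), 6 ≤ n → p.Prime → (∀ i, 1 ≤ N i) → (∀ i, p ∣ N i) →
      ∀ (H : Finset (Finset (Fin n))) (φ : Multiplicative (∀ i, ZMod (N i)) →* Equiv.Perm (Fin n)),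
        Three H → SixThree H → Auts H φ → Free φ → (H.card : ℝ) ≤ (n : ℝ) ^ 2 * (19 / 20) ^ r) ∧
    (∃ C > (0 : ℝ), ∀ (r n : ℕ) (N : Fin r → ℕ), (∀ i, 1 ≤ N i) →
      (∏ i, N i) ∣ n → 3 * ∏ i, N i ≤ n →
      ∃ (H : Finset (Finset (Fin n))) (φ : Multiplicative (∀ i, ZMod (N i)) →* Equiv.Perm (Fin n)),
        Three H ∧ SixThree H ∧ Auts H φ ∧ Free φ ∧
        (n : ℝ) ^ 2 * Real.exp (-C * (r + √(Real.log n))) ≤ H.card) ∧
    (∀ e : ℕ, 1 ≤ e → ∃ c > (0 : ℝ), ∀ n : ℕ, 6 ≤ n →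
      ∀ (A : Type) [Group A] [Finite A], (∀ a : A, a ^ e = 1) →
        ∀ (H : Finset (Finset (Fin n))) (φ : A →* Equiv.Perm (Fin n)),
          Three H → SixThree H → Auts H φ → Free φ →
          (H.card : ℝ) ≤ (n : ℝ) ^ 2 * Real.exp (-c * √(Real.log (Nat.card A))) ∧
          ((∀ a b : A, a * b = b * a) →
            (H.card : ℝ) ≤ (n : ℝ) ^ 2 * (Nat.card A : ℝ) ^ (-c))) := by
  refine ⟨fun n k hn H φ h3 h6 hA hF => ⟨upper_two hn h3 h6 φ hA hF,
    fun hk => few_orbits hn hk h3 h6 φ hA hF⟩, lower_two,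
    fun n k K hn hK H φ h3 h6 hA hO => upper_two_K hn hK h3 h6 φ hA hO, ?_, ?_, lower_ab,
    fun e he => upper_exp he⟩
  · intro p hp
    have : Fact p.Prime := ⟨hp⟩
    refine ⟨fun t h0 h1 n k hn H φ h3 h6 hA => ⟨fun hF => upper_gp hn h3 h6 φ hA hF h0 h1,
      fun d K hd hK => upper_Kg hn h3 h6 φ hA hK d hd h0 h1⟩, ?_⟩
    obtain ⟨t, h0, h1, h2⟩ := exists_t_uni hp
    exact ⟨t, h0, h1, h2⟩
  · intro r n p N hn hp hN hpN H φ h3 h6 hA hF
    have : Fact p.Prime := ⟨hp⟩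
    obtain ⟨L, hL⟩ := emb_pi N hN hpN
    exact upper_of_emb hn h3 h6 φ hA hF L hL

end Pool.Agent.SXT
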