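import Pool.Agent.SXT.Proj

/-! Project SXT, module SXT-Hull: if `z` cannot be brought closer to `y` by conjugation with powers
of `x`, then the projections of the axes of `y` and `z` to the axis of `x` are in a short interval.

The indices of `Ax y` are `a` and possibly `a + 1`, those of `Ax z` are `b` and possibly `b + 1` (`hl_iv`); the
indices of the axis of `x^k z x^(-k)` are shifted by `k τ`, so `hmin` gives an upper bound for
`ldist y z` (`hl_key`), to be compared with the lower bound `ldist_lb` if `|a - b| ≥ 2`. -/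

namespace SXT

open SXP SXG

variable {V G : Type*} [Group G] [MulAction G V] {d : V → V → ℕ} {R : Set G}

private theorem hl_iv (hC : CG d R) {x y : R} (hxy : x ≠ y) : ∃ a e : ℤ, 0 ≤ e ∧ e ≤ 1 ∧
    (∀ z, z ∈ Ax d y.1 → a ≤ ix hC x z ∧ ix hC x z ≤ a + e) ∧
    (∃ z, z ∈ Ax d y.1 ∧ ix hC x z = a) ∧ ∃ z, z ∈ Ax d y.1 ∧ ix hC x z = a + e := by
  obtain ⟨a, h1, h2⟩ := proj_int hC hxy
  by_cases h : ∃ z, z ∈ Ax d y.1 ∧ ix hC x z = a + 1
  · exact ⟨a, 1, by norm_num, le_refl _, h1, h2, h⟩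
  · refine ⟨a, 0, le_refl _, by norm_num, fun z hz => ⟨(h1 z hz).1, ?_⟩, h2, ?_⟩
    · have h3 := h1 z hz
      have h4 : ix hC x z ≠ a + 1 := fun h5 => h ⟨z, hz, h5⟩
      omega
    · rw [add_zero]
      exact h2

private theorem hl_key (hC : CG d R) {x y z : R} (hxy : x ≠ y) (hxz : x ≠ z)
    (hmin : ∀ k : ℤ, ldist d y.1 z.1 ≤ ldist d y.1 (x.1 ^ k * z.1 * (x.1 ^ k)⁻¹)) (k : ℤ) {u v : V}
    (hu : u ∈ Ax d y.1) (hv : v ∈ Ax d z.1) :
    (ldist d y.1 z.1 : ℤ) ≤ ldist d x.1 y.1 + |ix hC x u - (ix hC x v + k * tau hC x)| +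
      ldist d x.1 z.1 := by
  have hxk : x.1 * x.1 ^ k = x.1 ^ k * x.1 := (Commute.self_zpow x.1 k).eq
  have hxz' : x ≠ (⟨x.1 ^ k * z.1 * (x.1 ^ k)⁻¹, hC.conj _ _ z.2⟩ : R) := by
    intro h
    have h1 : x.1 = x.1 ^ k * z.1 * (x.1 ^ k)⁻¹ := congrArg Subtype.val h
    rw [eq_mul_inv_iff_mul_eq, hxk] at h1
    exact hxz (Subtype.ext (mul_left_cancel h1))
  have h1 := ldist_ub hC hxy hxz' hu ((ax_conj hC.iso z.1 (x.1 ^ k) v).2 hv)
  have h2 : ix hC x (x.1 ^ k • v) = ix hC x v + k * tau hC x :=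
    idx_uniq (ix_spec hC x _) (idx_pow hC.iso (cht_spec hC x).tr (ix_spec hC x v) k).1
  have h3 := ldist_conj hC (x.1 ^ k) x.1 z.1
  have h4 : x.1 ^ k * x.1 * (x.1 ^ k)⁻¹ = x.1 := by rw [← hxk, mul_inv_cancel_right]
  rw [h4] at h3
  rw [h2] at h1
  have h5 : (ldist d y.1 z.1 : ℤ) ≤ ldist d y.1 (x.1 ^ k * z.1 * (x.1 ^ k)⁻¹) := by
    exact_mod_cast hmin k
  have h6 : (ldist d x.1 (x.1 ^ k * z.1 * (x.1 ^ k)⁻¹) : ℤ) = ldist d x.1 z.1 := by
    rw [h3]
  have h7 : (ldist d y.1 (x.1 ^ k * z.1 * (x.1 ^ k)⁻¹) : ℤ) ≤ ldist d x.1 y.1 +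
      |ix hC x u - (ix hC x v + k * tau hC x)| + ldist d x.1 (x.1 ^ k * z.1 * (x.1 ^ k)⁻¹) := h1
  linarith

theorem hull3 (hC : CG d R) {x y z : R} (hxy : x ≠ y) (hxz : x ≠ z) (hτ : 3 ≤ tau hC x)
    (hmin : ∀ k : ℤ, ldist d y.1 z.1 ≤ ldist d y.1 (x.1 ^ k * z.1 * (x.1 ^ k)⁻¹)) :
    ∃ s t : ℤ, t - s + 1 ≤ tau hC x ∧
      (∀ u, u ∈ Ax d y.1 → s ≤ ix hC x u ∧ ix hC x u ≤ t) ∧
      ∀ v, v ∈ Ax d z.1 → s ≤ ix hC x v ∧ ix hC x v ≤ t := by
  obtain ⟨a, e, he0, he1, hy, ⟨u0, hu0, hu0'⟩, ⟨u1, hu1, hu1'⟩⟩ := hl_iv hC hxy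
  obtain ⟨b, f, hf0, hf1, hz, ⟨v0, hv0, hv0'⟩, ⟨v1, hv1, hv1'⟩⟩ := hl_iv hC hxz
  have hτ' : (3 : ℤ) ≤ tau hC x := by exact_mod_cast hτ
  rcases le_total a b with hab | hab
  · by_cases h2 : b ≤ a + 1
    · refine ⟨a, b + 1, by omega, fun u hu => ?_, fun v hv => ?_⟩
      · have h3 := hy u hu
        omega
      · have h3 := hz v hv
        omega
    · have hne : ∀ u v, u ∈ Ax d y.1 → v ∈ Ax d z.1 → ix hC x u ≠ ix hC x v := by
        intro u v hu hv h
        have h3 := hy u hu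
        have h4 := hz v hv
        omega
      obtain ⟨u, v, hu, hv, h3⟩ := ldist_lb hC hne
      have h4 := hl_key hC hxy hxz hmin (-1) hu0 hv1
      rw [hu0', hv1'] at h4
      have h5 := hy u hu
      have h6 := hz v hv
      rw [abs_of_nonpos (by omega)] at h3
      refine ⟨a, b + f, ?_, fun u hu => ?_, fun v hv => ?_⟩
      · rcases abs_cases (a - (b + f + -1 * (tau hC x : ℤ))) with ⟨h7, h8⟩ | ⟨h7, h8⟩
        · rw [h7] at h4
          omega
        · rw [h7] at h4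
          omega
      · have h3 := hy u hu
        omega
      · have h3 := hz v hv
        omega
  · by_cases h2 : a ≤ b + 1
    · refine ⟨b, a + 1, by omega, fun u hu => ?_, fun v hv => ?_⟩
      · have h3 := hy u hu
        omega
      · have h3 := hz v hv
        omega
    · have hne : ∀ u v, u ∈ Ax d y.1 → v ∈ Ax d z.1 → ix hC x u ≠ ix hC x v := by
        intro u v hu hv h
        have h3 := hy u hu
        have h4 := hz v hv
        omega
      obtain ⟨u, v, hu, hv, h3⟩ := ldist_lb hC hne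
      have h4 := hl_key hC hxy hxz hmin 1 hu1 hv0
      rw [hu1', hv0'] at h4
      have h5 := hy u hu
      have h6 := hz v hv
      rw [abs_of_nonneg (by omega)] at h3
      refine ⟨b, a + e, ?_, fun u hu => ?_, fun v hv => ?_⟩
      · rcases abs_cases (a + e - (b + 1 * (tau hC x : ℤ))) with ⟨h7, h8⟩ | ⟨h7, h8⟩
        · rw [h7] at h4
          omega
        · rw [h7] at h4
          omega
      · have h3 := hy u hu
        omega
      · have h3 := hz v hv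
        omega

end SXT
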