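import Pool.Agent.SXT.Move
import Pool.Agent.SXT.Core

/-! Project SXT, module SXT-Many: groups generated by `k` translations of `R` of length at least `k`.
Compare `SXT/Three.lean`.

Induction on `k`.  `k = 1`: every `g` is in `zpowers (y 0)` (`Subgroup.zpowers_eq_closure`).
`k ≥ 2`: among all families `y : Fin k → R` with `closure (range y) = ⊤` take one with the least
`∑ i, ∑ j, ldist (y i) (y j)` (`Nat.find`).  If `y i = y j`, `i ≠ j`: the family `y ∘ i.succAbove`
has the same range; induction hypothesis for `k - 1`.  If `y` is injective: `hullm` gives the hull of each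
`i` (`hmin`: a family `z` as there is in `R` by `hC.conj`, and its closure contains `z i0 = y i0`, so all `y i`),
and `core` with `i0 = 0`, `j0 = 1` finishes. -/

namespace SXT

open SXP SXG

variable {V G : Type*} [Group G] [MulAction G V] {d : V → V → ℕ} {R : Set G}

private theorem mn_one {x : G} (hgen : Subgroup.closure {x} = ⊤) (g : G) : g ∈ Subgroup.zpowers x := by
  rw [Subgroup.zpowers_eq_closure, hgen]
  exact Subgroup.mem_top g

private theorem mn_aux (hC : CG d R) (n : ℕ) : ∀ (_ : ∀ x : R, n + 1 ≤ tau hC x)
    (y : Fin (n + 1) → R) (_ : Subgroup.closure (Set.range fun i => (y i).1) = ⊤),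
    ∃ w : R, ∀ g : G, Commute g w.1 → g ∈ Subgroup.zpowers w.1 := by
  classical
  induction n with
  | zero =>
    intro _ y hgen
    refine ⟨y 0, fun g _ => mn_one ?_ g⟩
    have h1 : (Set.range fun i : Fin (0 + 1) => (y i).1) = {(y 0).1} := by
      ext z
      constructor
      · rintro ⟨i, rfl⟩
        have h2 : i = 0 := Fin.ext (by omega)
        rw [h2]
        rfl
      · rintro rfl
        exact ⟨0, rfl⟩
    rw [← h1]
    exact hgen
  | succ n ih =>
    intro hτ y0 hgen0
    have hex : ∃ N, ∃ y : Fin (n + 1 + 1) → R,
        Subgroup.closure (Set.range fun i => (y i).1) = ⊤ ∧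
        ∑ i, ∑ j, ldist d (y i).1 (y j).1 = N := ⟨_, y0, hgen0, rfl⟩
    obtain ⟨y, hgen, hN⟩ := Nat.find_spec hex
    have hmin : ∀ y : Fin (n + 1 + 1) → R,
        Subgroup.closure (Set.range fun i => (y i).1) = ⊤ →
        Nat.find hex ≤ ∑ i, ∑ j, ldist d (y i).1 (y j).1 :=
      fun y h => Nat.find_min' hex ⟨y, h, rfl⟩
    by_cases hinj : Function.Injective y
    · have hull : ∀ i0, ∃ s t : ℤ, t - s + 1 ≤ tau hC (y i0) ∧
          ∀ j, j ≠ i0 → ∀ z, z ∈ Ax d (y j).1 →
            s ≤ ix hC (y i0) z ∧ ix hC (y i0) z ≤ t := by
        intro i0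
        refine hullm hC y hinj i0 ?_ ?_
        · rw [Fintype.card_fin]
          exact hτ _
        · intro z hz
          have hzR : ∀ i, z i ∈ R := by
            intro i
            rcases hz i with h | h
            · rw [h]
              exact (y i).2
            · have h1 := hC.conj (y i0).1⁻¹ (y i).1 (y i).2
              rw [inv_inv] at h1
              rw [h]
              exact h1
          have hz0 : z i0 = (y i0).1 := by
            rcases hz i0 with h | h
            · exact h
            · rw [h]
              group
          have hcl : Subgroup.closure (Set.range z) = ⊤ := by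
            rw [eq_top_iff, ← hgen, Subgroup.closure_le]
            rintro w ⟨i, rfl⟩
            have h0 : (y i0).1 ∈ Subgroup.closure (Set.range z) := by
              rw [← hz0]
              exact Subgroup.subset_closure ⟨i0, rfl⟩
            have hi : z i ∈ Subgroup.closure (Set.range z) := Subgroup.subset_closure ⟨i, rfl⟩
            rcases hz i with h | h
            · rw [h] at hi
              exact hi
            · have h2 := Subgroup.mul_mem _ (Subgroup.mul_mem _ h0 hi) (Subgroup.inv_mem _ h0)
              have h3 : (y i0).1 * z i * (y i0).1⁻¹ = (y i).1 := by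
                rw [h]
                group
              rw [h3] at h2
              exact h2
          have h4 := hmin (fun i => ⟨z i, hzR i⟩) hcl
          rw [hN]
          exact h4
      refine ⟨y 0, fun g hg => core hC y hull 0 1 (by simp) ?_ hg⟩
      rw [hgen]
      exact Subgroup.mem_top g
    · rw [Function.Injective] at hinj
      push Not at hinj
      obtain ⟨i, j, hij, hne⟩ := hinj
      refine ih (fun x => by
        have := hτ x
        omega) (y ∘ i.succAbove) ?_
      rw [← hgen]
      congr 1
      ext w
      constructor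
      · rintro ⟨a, rfl⟩
        exact ⟨i.succAbove a, rfl⟩
      · rintro ⟨a, rfl⟩
        by_cases ha : a = i
        · obtain ⟨b, hb⟩ := Fin.exists_succAbove_eq (Ne.symm hne)
          refine ⟨b, ?_⟩
          show (y (i.succAbove b)).1 = (y a).1
          rw [hb, ha, hij]
        · obtain ⟨b, hb⟩ := Fin.exists_succAbove_eq ha
          refine ⟨b, ?_⟩
          show (y (i.succAbove b)).1 = (y a).1
          rw [hb]

theorem many (hC : CG d R) {k : ℕ} (hk : 1 ≤ k) (hτ : ∀ x : R, k ≤ tau hC x) (y : Fin k → R)
    (hgen : Subgroup.closure (Set.range fun i => (y i).1) = ⊤) :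
    ∃ w : R, ∀ g : G, Commute g w.1 → g ∈ Subgroup.zpowers w.1 := by
  obtain ⟨n, rfl⟩ : ∃ n, k = n + 1 := ⟨k - 1, by omega⟩
  exact mn_aux hC n hτ y hgen

end SXT
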