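import Pool.Agent.SXT.Wall
import Pool.Agent.SXT.Many

/-! Project SXT, module SXT-WallM: translation of `many` to wall spaces. -/

namespace SXT

open SXP SXG

variable {X W G : Type*} [Group G] [MulAction G X] [MulAction G W] {sep : W → X → X → Prop}

theorem ws_many (hS : WS sep)
    (heq : ∀ (g : G) w x y, sep (g • w) (g • x) (g • y) ↔ sep w x y) [Nonempty X] (R : Set G)
    (hconj : ∀ g : G, ∀ x ∈ R, g * x * g⁻¹ ∈ R) {k : ℕ} (hk : 2 ≤ k)
    (hd : ∀ x ∈ R, ∀ p : X, k ≤ ds sep p (x • p))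
    (hov : ∀ x ∈ R, ∀ y ∈ R, x ≠ y → ∀ w w', w ≠ w' → Cross sep x w → Cross sep x w' →
      Cross sep y w → Cross sep y w' → False)
    (y : Fin k → G) (hy : ∀ i, y i ∈ R) (hgen : Subgroup.closure (Set.range y) = ⊤) :
    ∃ w ∈ R, ∀ g : G, Commute g w → g ∈ Subgroup.zpowers w := by
  letI := regAct hS heq
  obtain ⟨hC, hτ⟩ := wall_CG hS heq R hconj hk hd hov
  obtain ⟨w, hw⟩ := many hC (by omega) hτ (fun i => ⟨y i, hy i⟩) hgen
  exact ⟨w.1, w.2, hw⟩

end SXT
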