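import Pool.Agent.SXG.MainG
import Pool.Agent.SXT.WallM

/-! Project SXT: assembly, groups generated by `k` conjugates of a peripheral element. -/

set_option linter.style.haveILetI false

namespace SXT

open SXP SXG

variable {G : Type*} [Group G] {ρ : G →* Matrix.SpecialLinearGroup (Fin 2) ℂ} {μ lam : G}
  {m l : ℂ} {P : Set (Set H3)}

theorem lam_not (hc : TorusCusp ρ μ lam m l) : lam ∉ Subgroup.zpowers μ := by
  intro h
  obtain ⟨n, hn⟩ := Subgroup.mem_zpowers_iff.mp h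
  have h2 : (ρ lam).1 = (ρ (μ ^ n)).1 := by rw [hn]
  have key : ∃ s : ℝ, l = (s : ℂ) * m := by
    rcases hc.hlam with h3 | h3 <;> rcases rho_zpow hc.hμ n with h4 | h4 <;>
    · rw [h3, h4] at h2
      have h5 := congrFun (congrFun h2 0) 1
      simp at h5
      first
        | exact ⟨(n : ℝ), by push_cast; linear_combination h5⟩
        | exact ⟨(n : ℝ), by push_cast; linear_combination -h5⟩
        | exact ⟨-(n : ℝ), by push_cast; linear_combination h5⟩
        | exact ⟨-(n : ℝ), by push_cast; linear_combination -h5⟩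
  obtain ⟨s, hs⟩ := key
  have hli := hc.ind
  rw [LinearIndependent.pair_iff] at hli
  have := hli s (-1) (by
    simp only [Complex.real_smul]
    rw [hs]; push_cast; ring)
  have h7 : (-1 : ℝ) = 0 := this.2
  norm_num at h7

theorem no_conj (hc : TorusCusp ρ μ lam m l) {k : G}
    (h : ∀ g : G, Commute g (k * μ * k⁻¹) → g ∈ Subgroup.zpowers (k * μ * k⁻¹)) : False := by
  have h1 : Commute (k * lam * k⁻¹) (k * μ * k⁻¹) := by
    have e : lam * μ = μ * lam := hc.comm.symm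
    show k * lam * k⁻¹ * (k * μ * k⁻¹) = k * μ * k⁻¹ * (k * lam * k⁻¹)
    have a1 : k * lam * k⁻¹ * (k * μ * k⁻¹) = k * (lam * μ) * k⁻¹ := by group
    have a2 : k * μ * k⁻¹ * (k * lam * k⁻¹) = k * (μ * lam) * k⁻¹ := by group
    rw [a1, a2, e]
  obtain ⟨n, hn⟩ := Subgroup.mem_zpowers_iff.mp (h _ h1)
  apply lam_not hc
  refine Subgroup.mem_zpowers_iff.mpr ⟨n, ?_⟩
  have h2 : (k * μ * k⁻¹) ^ n = k * μ ^ n * k⁻¹ := conj_zpow
  rw [h2] at hn
  have := congrArg (fun x => k⁻¹ * x * k) hn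
  simpa [mul_assoc] using this

theorem hrep {y : G} (hy : y ∈ Group.conjugatesOfSet ({μ} : Set G)) : ∃ k : G, k * μ * k⁻¹ = y := by
  rw [Group.mem_conjugatesOfSet_iff] at hy
  obtain ⟨a, ha, hay⟩ := hy
  rw [Set.mem_singleton_iff] at ha
  subst ha
  rw [isConj_iff] at hay
  exact hay

theorem hmem (k : G) : k * μ * k⁻¹ ∈ Group.conjugatesOfSet ({μ} : Set G) := by
  rw [Group.mem_conjugatesOfSet_iff]
  exact ⟨μ, rfl, isConj_iff.mpr ⟨k, rfl⟩⟩

theorem hcj (k y : G) (hy : y ∈ Group.conjugatesOfSet ({μ} : Set G)) :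
    k * y * k⁻¹ ∈ Group.conjugatesOfSet ({μ} : Set G) := by
  rw [Group.mem_conjugatesOfSet_iff] at hy ⊢
  obtain ⟨a, ha, hay⟩ := hy
  refine ⟨a, ha, hay.trans ?_⟩
  rw [isConj_iff]; exact ⟨k, rfl⟩

theorem hover (hc : TorusCusp ρ μ lam m l) (hP : TGSurface ρ P) {x : H3} (hx : x ∉ ⋃₀ P) :
    letI := ptsAct hP
    letI := planeAct hP
    ∀ y ∈ Group.conjugatesOfSet ({μ} : Set G), ∀ z ∈ Group.conjugatesOfSet ({μ} : Set G), y ≠ z →
      ∀ w w' : P, w ≠ w' → Cross (psep P) y w → Cross (psep P) y w' →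
      Cross (psep P) z w → Cross (psep P) z w' → False := by
  letI := ptsAct hP
  letI := planeAct hP
  haveI : Nonempty (Pts P) := ⟨⟨x, hx⟩⟩
  intro y hy z hz hyz w w' hww' h1 h2 h3 h4
  obtain ⟨k, rfl⟩ := hrep hy
  obtain ⟨j, rfl⟩ := hrep hz
  have i1 := cross_atInf hc hP k w ⟨x, hx⟩ h1
  have i2 := cross_atInf hc hP k w' ⟨x, hx⟩ h2
  have i3 := cross_atInf hc hP j w ⟨x, hx⟩ h3
  have i4 := cross_atInf hc hP j w' ⟨x, hx⟩ h4
  have e : ∀ v : P, act (ρ (j⁻¹ * k)) '' (act (ρ k⁻¹) '' v.1) = act (ρ j⁻¹) '' v.1 := by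
    intro v
    rw [Set.image_image]
    congr 1
    ext y
    rw [← act_mul, ← map_mul]; simp
  have hd : Disjoint (act (ρ k⁻¹) '' w.1) (act (ρ k⁻¹) '' w'.1) := by
    apply hP.disj _ (hP.inv _ _ w.2) _ (hP.inv _ _ w'.2)
    intro h
    apply hww'
    have : k⁻¹ • w = k⁻¹ • w' := Subtype.ext h
    exact MulAction.injective _ this
  have i5 := inf_same hd i1 i2 (ρ (j⁻¹ * k)) (by rw [e]; exact i3) (by rw [e]; exact i4)
  exact fix_ne hc hyz i5

theorem main_many (hc : TorusCusp ρ μ lam m l) (hP : TGSurface ρ P) {x : H3} (hx : x ∉ ⋃₀ P)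
    {k : ℕ} (hk : (k : ℕ∞) ≤ crossNum ρ P μ x) (c : Fin k → G)
    (hgen : Subgroup.closure (Set.range fun i => c i * μ * (c i)⁻¹) = ⊤) : False := by
  letI := ptsAct hP
  letI := planeAct hP
  haveI : Nonempty (Pts P) := ⟨⟨x, hx⟩⟩
  rcases Nat.lt_or_ge k 2 with h2 | h2
  · have key : ∃ j : G, ∀ g : G, g ∈ Subgroup.zpowers (j * μ * j⁻¹) := by
      rcases Nat.eq_zero_or_pos k with h0 | h0
      · subst h0
        refine ⟨1, fun g => ?_⟩
        have : g ∈ Subgroup.closure (Set.range fun i : Fin 0 => c i * μ * (c i)⁻¹) := by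
          rw [hgen]; exact Subgroup.mem_top g
        rw [Set.range_eq_empty, Subgroup.closure_empty, Subgroup.mem_bot] at this
        rw [this]
        exact Subgroup.one_mem _
      · obtain rfl : k = 1 := by omega
        refine ⟨c 0, fun g => ?_⟩
        rw [Subgroup.zpowers_eq_closure]
        have : g ∈ Subgroup.closure (Set.range fun i : Fin 1 => c i * μ * (c i)⁻¹) := by
          rw [hgen]; exact Subgroup.mem_top g
        rwa [Set.range_unique] at this
    obtain ⟨j, hj⟩ := key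
    exact no_conj hc (k := j) (fun g _ => hj g)
  · have key := ws_many (ws hP) (psep_smul hP) (Group.conjugatesOfSet {μ}) (hconj := hcj) h2
      (hd := ?_) (hov := hover hc hP hx) (fun i => c i * μ * (c i)⁻¹) (fun i => hmem (c i)) hgen
    · obtain ⟨w, hw, hcen⟩ := key
      obtain ⟨j, rfl⟩ := hrep hw
      exact no_conj hc hcen
    · intro y hy p
      obtain ⟨j, rfl⟩ := hrep hy
      exact main_disp hc hP hx hk j p

end SXT
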