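import Pool.Agent.SXT.Proj
import Pool.Agent.SXT.Comb

/-! Project SXT, module SXT-Move: a finite family of axes with the least sum of distances projects to
short intervals.  Compare `SXT/Hull.lean` (three axes), whose private lemmas `hl_iv`, `hl_key` can be copied.

`x := y i0`, `J := {j // j ≠ i0}` (`Fintype.card J = card ι - 1`).  For `j : J` let the indices of
`Ax (y j)` with respect to `x` be in `[a j, a j + e j]`, both ends attained, `e j ∈ {0, 1}` (`proj_int`, see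
`hl_iv`).  `nd l r := ldist (y l) (x⁻¹ y_r x) - ldist (y l) (y r)`.  Apply `comb` with `τ = tau x`:
* `hnd`: `ldist_lb`: `ldist (y l) (y r) ≥ ldist x (y l) + (a r - a l - e l) + ldist x (y r)`.  `ldist_ub` for
  `y l` and `x⁻¹ y_r x` (different from `x`; its axis is `x⁻¹ (Ax (y r))`, indices shifted by `-τ`; its distance
  from `x` is `ldist x (y r)` by `ldist_conj`): `≤ ldist x (y l) + |i - (j - τ)| + ldist x (y r)` for attained
  `i`, `j`.
* `hcut c`: apply `hmin` to `z i := x⁻¹ y_i x` if `i ≠ i0` and `c + 1 ≤ a i`, else `y i`.  The difference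
  of the two double sums: pairs of the same kind and pairs with `i0` contribute `0` (`ldist_conj`), a pair
  `l` (left), `r` (right) contributes `nd l r` twice (`ldist_symm`).  So `0 ≤ 2 ∑ ∑ nd`. -/

namespace SXT

open SXP SXG

variable {V G : Type*} [Group G] [MulAction G V] {d : V → V → ℕ} {R : Set G}

private theorem mv_iv (hC : CG d R) {x y : R} (hxy : x ≠ y) : ∃ a e : ℤ, (0 ≤ e ∧ e ≤ 1) ∧
    (∀ z, z ∈ Ax d y.1 → a ≤ ix hC x z ∧ ix hC x z ≤ a + e) ∧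
    (∃ z, z ∈ Ax d y.1 ∧ ix hC x z = a) ∧ ∃ z, z ∈ Ax d y.1 ∧ ix hC x z = a + e := by
  obtain ⟨a, h1, h2⟩ := proj_int hC hxy
  by_cases h : ∃ z, z ∈ Ax d y.1 ∧ ix hC x z = a + 1
  · exact ⟨a, 1, ⟨by norm_num, le_refl _⟩, h1, h2, h⟩
  · refine ⟨a, 0, ⟨le_refl _, by norm_num⟩, fun z hz => ⟨(h1 z hz).1, ?_⟩, h2, ?_⟩
    · have h3 := h1 z hz
      have h4 : ix hC x z ≠ a + 1 := fun h5 => h ⟨z, hz, h5⟩
      omega
    · rw [add_zero]
      exact h2

private theorem mv_key (hC : CG d R) {x y z : R} (hxy : x ≠ y) (hxz : x ≠ z) {u v : V}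
    (hu : u ∈ Ax d y.1) (hv : v ∈ Ax d z.1) :
    (ldist d y.1 (x.1⁻¹ * z.1 * x.1) : ℤ) ≤ ldist d x.1 y.1 +
      |ix hC x u - ix hC x v + tau hC x| + ldist d x.1 z.1 := by
  have hxk : x.1 * x.1 ^ (-1 : ℤ) = x.1 ^ (-1 : ℤ) * x.1 := (Commute.self_zpow x.1 (-1)).eq
  have hxz' : x ≠ (⟨x.1 ^ (-1 : ℤ) * z.1 * (x.1 ^ (-1 : ℤ))⁻¹, hC.conj _ _ z.2⟩ : R) := by
    intro h
    have h1 : x.1 = x.1 ^ (-1 : ℤ) * z.1 * (x.1 ^ (-1 : ℤ))⁻¹ := congrArg Subtype.val h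
    rw [eq_mul_inv_iff_mul_eq, hxk] at h1
    exact hxz (Subtype.ext (mul_left_cancel h1))
  have h1 := ldist_ub hC hxy hxz' hu ((ax_conj hC.iso z.1 (x.1 ^ (-1 : ℤ)) v).2 hv)
  have h2 : ix hC x (x.1 ^ (-1 : ℤ) • v) = ix hC x v + (-1) * tau hC x :=
    idx_uniq (ix_spec hC x _) (idx_pow hC.iso (cht_spec hC x).tr (ix_spec hC x v) (-1)).1
  have h3 := ldist_conj hC (x.1 ^ (-1 : ℤ)) x.1 z.1
  have h4 : x.1 ^ (-1 : ℤ) * x.1 * (x.1 ^ (-1 : ℤ))⁻¹ = x.1 := by rw [← hxk, mul_inv_cancel_right]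
  rw [h4] at h3
  rw [h2] at h1
  have h6 : (ldist d x.1 (x.1 ^ (-1 : ℤ) * z.1 * (x.1 ^ (-1 : ℤ))⁻¹) : ℤ) = ldist d x.1 z.1 := by
    rw [h3]
  have h7 : (ldist d y.1 (x.1 ^ (-1 : ℤ) * z.1 * (x.1 ^ (-1 : ℤ))⁻¹) : ℤ) ≤ ldist d x.1 y.1 +
      |ix hC x u - (ix hC x v + (-1) * tau hC x)| +
        ldist d x.1 (x.1 ^ (-1 : ℤ) * z.1 * (x.1 ^ (-1 : ℤ))⁻¹) := h1
  have h8 : x.1 ^ (-1 : ℤ) * z.1 * (x.1 ^ (-1 : ℤ))⁻¹ = x.1⁻¹ * z.1 * x.1 := by
    rw [zpow_neg_one, inv_inv]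
  have h9 : ix hC x u - (ix hC x v + (-1) * tau hC x) = ix hC x u - ix hC x v + tau hC x := by ring
  rw [h6, h8, h9] at h7
  exact h7

private theorem mv_conj (hC : CG d R) (x y z : G) :
    ldist d (x⁻¹ * y * x) (x⁻¹ * z * x) = ldist d y z := by
  have h := ldist_conj hC x⁻¹ y z
  rw [inv_inv] at h
  exact h

private theorem mv_self (hC : CG d R) (x z : G) :
    ldist d x (x⁻¹ * z * x) = ldist d x z := by
  have h := mv_conj hC x x z
  rw [inv_mul_cancel, one_mul] at h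
  exact h

private theorem mv_sum {J : Type*} [Fintype J] (P Q : J → Prop) [DecidablePred P] [DecidablePred Q]
    (f : J → J → ℤ) : ∑ l ∈ Finset.univ.filter P, ∑ r ∈ Finset.univ.filter Q, f l r =
      ∑ l, ∑ r, if P l ∧ Q r then f l r else 0 := by
  rw [Finset.sum_filter]
  refine Finset.sum_congr rfl (fun l _ => ?_)
  rw [Finset.sum_filter]
  split_ifs with h
  · simp only [h, true_and]
  · simp only [h, false_and, if_false, Finset.sum_const_zero]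

private theorem mv_cut (hC : CG d R) {ι : Type*} [Fintype ι] [DecidableEq ι] (y : ι → R)
    (i0 : ι) (a e : {j : ι // j ≠ i0} → ℤ) (he : ∀ j, 0 ≤ e j ∧ e j ≤ 1)
    (hmin : ∀ z : ι → G,
      (∀ i, z i = (y i).1 ∨ z i = (y i0).1⁻¹ * (y i).1 * (y i0).1) →
      ∑ i, ∑ j, ldist d (y i).1 (y j).1 ≤ ∑ i, ∑ j, ldist d (z i) (z j)) (c : ℤ)
    (hc : ∀ j, a j + e j ≤ c ∨ c + 1 ≤ a j) :
    0 ≤ ∑ l ∈ Finset.univ.filter (fun l => a l + e l ≤ c),
        ∑ r ∈ Finset.univ.filter (fun r => c + 1 ≤ a r),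
          ((ldist d (y l.1).1 ((y i0).1⁻¹ * (y r.1).1 * (y i0).1) : ℤ) -
            ldist d (y l.1).1 (y r.1).1) := by
  classical
  let Rt : ι → Prop := fun i => ∃ h : i ≠ i0, c + 1 ≤ a ⟨i, h⟩
  let z : ι → G := fun i => if Rt i then (y i0).1⁻¹ * (y i).1 * (y i0).1 else (y i).1
  have hz : ∀ i, z i = (y i).1 ∨ z i = (y i0).1⁻¹ * (y i).1 * (y i0).1 := by
    intro i
    by_cases h : Rt i
    · right
      exact if_pos h
    · left
      exact if_neg h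
  have h0 := hmin z hz
  have h1 : (∑ i, ∑ j, (ldist d (y i).1 (y j).1 : ℤ)) ≤ ∑ i, ∑ j, (ldist d (z i) (z j) : ℤ) := by
    exact_mod_cast h0
  have hR0 : ¬ Rt i0 := fun h => h.1 rfl
  have hz0 : z i0 = (y i0).1 := if_neg hR0
  have hRj : ∀ j : {j : ι // j ≠ i0}, Rt j.1 ↔ c + 1 ≤ a j :=
    fun j => ⟨fun h => h.2, fun h => ⟨j.2, h⟩⟩
  have hzR : ∀ j : {j : ι // j ≠ i0}, c + 1 ≤ a j → z j.1 = (y i0).1⁻¹ * (y j.1).1 * (y i0).1 :=
    fun j h => if_pos ((hRj j).2 h)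
  have hzL : ∀ j : {j : ι // j ≠ i0}, ¬ c + 1 ≤ a j → z j.1 = (y j.1).1 :=
    fun j h => if_neg (fun h' => h ((hRj j).1 h'))
  have hD0 : ∀ j : {j : ι // j ≠ i0}, ldist d (y i0).1 (z j.1) = ldist d (y i0).1 (y j.1).1 := by
    intro j
    by_cases h : c + 1 ≤ a j
    · rw [hzR j h, mv_self hC]
    · rw [hzL j h]
  let D : ι → ι → ℤ := fun i j => (ldist d (z i) (z j) : ℤ) - ldist d (y i).1 (y j).1
  have h2 : 0 ≤ ∑ i, ∑ j, D i j := by
    simp only [D, Finset.sum_sub_distrib]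
    linarith
  have hDi : ∀ j, D i0 j = 0 := by
    intro j
    simp only [D]
    rw [hz0]
    by_cases hj : j = i0
    · rw [hj, hz0, sub_self]
    · rw [hD0 ⟨j, hj⟩, sub_self]
  have hDj : ∀ i, D i i0 = 0 := by
    intro j
    simp only [D]
    rw [hz0, ldist_symm hC (z j), ldist_symm hC (y j).1]
    by_cases hj : j = i0
    · rw [hj, hz0, sub_self]
    · rw [hD0 ⟨j, hj⟩, sub_self]
  let nd : {j : ι // j ≠ i0} → {j : ι // j ≠ i0} → ℤ := fun l r =>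
    (ldist d (y l.1).1 ((y i0).1⁻¹ * (y r.1).1 * (y i0).1) : ℤ) - ldist d (y l.1).1 (y r.1).1
  have hDD : ∀ i j : {j : ι // j ≠ i0}, D i.1 j.1 =
      (if a i + e i ≤ c ∧ c + 1 ≤ a j then nd i j else 0) +
      (if a j + e j ≤ c ∧ c + 1 ≤ a i then nd j i else 0) := by
    intro i j
    have hi := hc i
    have hj := hc j
    have hei := he i
    have hej := he j
    simp only [D, nd]
    by_cases h3 : c + 1 ≤ a i
    · have h4 : ¬ a i + e i ≤ c := by omega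
      by_cases h5 : c + 1 ≤ a j
      · have h6 : ¬ a j + e j ≤ c := by omega
        rw [hzR i h3, hzR j h5, mv_conj hC, if_neg (fun h => h4 h.1), if_neg (fun h => h6 h.1)]
        ring
      · have h6 : a j + e j ≤ c := by omega
        rw [hzR i h3, hzL j h5, if_neg (fun h => h4 h.1), if_pos ⟨h6, h3⟩,
          ldist_symm hC _ (y j.1).1, ldist_symm hC (y i.1).1]
        ring
    · have h4 : a i + e i ≤ c := by omega
      by_cases h5 : c + 1 ≤ a j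
      · rw [hzL i h3, hzR j h5, if_pos ⟨h4, h5⟩, if_neg (fun h => h3 h.2)]
        ring
      · rw [hzL i h3, hzL j h5, if_neg (fun h => h5 h.2), if_neg (fun h => h3 h.2)]
        ring
  have hsum : ∑ i, ∑ j, D i j = ∑ i : {j : ι // j ≠ i0}, ∑ j : {j : ι // j ≠ i0}, D i.1 j.1 := by
    rw [Fintype.sum_eq_add_sum_subtype_ne (fun i => ∑ j, D i j) i0]
    simp only [hDi, Finset.sum_const_zero, zero_add]
    refine Finset.sum_congr rfl (fun i _ => ?_)
    rw [Fintype.sum_eq_add_sum_subtype_ne (fun j => D i.1 j) i0, hDj, zero_add]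
  rw [hsum] at h2
  simp only [hDD, Finset.sum_add_distrib] at h2
  rw [Finset.sum_comm (f := fun i j => if a j + e j ≤ c ∧ c + 1 ≤ a i then nd j i else 0)] at h2
  rw [mv_sum (fun l => a l + e l ≤ c) (fun r => c + 1 ≤ a r)]
  change 0 ≤ ∑ l : {j : ι // j ≠ i0}, ∑ r : {j : ι // j ≠ i0},
    if a l + e l ≤ c ∧ c + 1 ≤ a r then nd l r else 0
  linarith

theorem hullm (hC : CG d R) {ι : Type*} [Fintype ι] (y : ι → R) (hinj : Function.Injective y)
    (i0 : ι) (hτ : Fintype.card ι ≤ tau hC (y i0))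
    (hmin : ∀ z : ι → G,
      (∀ i, z i = (y i).1 ∨ z i = (y i0).1⁻¹ * (y i).1 * (y i0).1) →
      ∑ i, ∑ j, ldist d (y i).1 (y j).1 ≤ ∑ i, ∑ j, ldist d (z i) (z j)) :
    ∃ s t : ℤ, t - s + 1 ≤ tau hC (y i0) ∧
      ∀ j, j ≠ i0 → ∀ z, z ∈ Ax d (y j).1 → s ≤ ix hC (y i0) z ∧ ix hC (y i0) z ≤ t := by
  classical
  have hne : ∀ j : {j : ι // j ≠ i0}, y i0 ≠ y j.1 := fun j h => j.2 (hinj h).symm
  have hex := fun j : {j : ι // j ≠ i0} => mv_iv hC (hne j)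
  choose a e he hiv hlo hhi using hex
  have hcard : (Fintype.card {j : ι // j ≠ i0} : ℤ) + 1 ≤ (tau hC (y i0) : ℤ) := by
    have h1 : Fintype.card {j : ι // j ≠ i0} + 1 = Fintype.card ι := by
      have h2 : Fintype.card {j : ι // j ≠ i0} = Fintype.card ι - Fintype.card {j : ι // j = i0} :=
        Fintype.card_subtype_compl (fun j => j = i0)
      rw [Fintype.card_subtype_eq] at h2
      have h3 : 0 < Fintype.card ι := Fintype.card_pos_iff.2 ⟨i0⟩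
      omega
    have h4 : Fintype.card {j : ι // j ≠ i0} + 1 ≤ tau hC (y i0) := h1.le.trans hτ
    exact_mod_cast h4
  have hnd : ∀ l r : {j : ι // j ≠ i0}, a l + e l < a r → ∀ i j : ℤ, (i = a l ∨ i = a l + e l) →
      (j = a r ∨ j = a r + e r) →
      ((ldist d (y l.1).1 ((y i0).1⁻¹ * (y r.1).1 * (y i0).1) : ℤ) -
        ldist d (y l.1).1 (y r.1).1) ≤ |i - j + (tau hC (y i0) : ℤ)| - (a r - a l - e l) := by
    intro l r hlr i j hi hj
    have hu : ∃ u, u ∈ Ax d (y l.1).1 ∧ ix hC (y i0) u = i := by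
      rcases hi with rfl | rfl
      · exact hlo l
      · exact hhi l
    have hv : ∃ v, v ∈ Ax d (y r.1).1 ∧ ix hC (y i0) v = j := by
      rcases hj with rfl | rfl
      · exact hlo r
      · exact hhi r
    obtain ⟨u, hu1, hu2⟩ := hu
    obtain ⟨v, hv1, hv2⟩ := hv
    have h1 := mv_key hC (hne l) (hne r) hu1 hv1
    rw [hu2, hv2] at h1
    have hne' : ∀ u v, u ∈ Ax d (y l.1).1 → v ∈ Ax d (y r.1).1 →
        ix hC (y i0) u ≠ ix hC (y i0) v := by
      intro u v hu hv h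
      have h3 := hiv l u hu
      have h4 := hiv r v hv
      omega
    obtain ⟨u', v', hu', hv', h2⟩ := ldist_lb hC hne'
    have h3 := hiv l u' hu'
    have h4 := hiv r v' hv'
    rw [abs_of_nonpos (by omega)] at h2
    linarith [h3.1, h3.2, h4.1, h4.2]
  obtain ⟨s, t, hst, h⟩ := comb a e (tau hC (y i0) : ℤ)
    (fun l r => (ldist d (y l.1).1 ((y i0).1⁻¹ * (y r.1).1 * (y i0).1) : ℤ) -
      ldist d (y l.1).1 (y r.1).1) he hcard hnd (fun c hc => mv_cut hC y i0 a e he hmin c hc)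
  refine ⟨s, t, hst, fun j hj z hz => ?_⟩
  have h1 := hiv ⟨j, hj⟩ z hz
  have h2 := h ⟨j, hj⟩
  omega

end SXT
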