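import Pool.Agent.SXG.Del

/-! Project SXT, module SXT-Proj: projections of axes to axes, and the distance of two axes.

`x ≠ y : R`, `c = cht x`.
* `proj_two`: if `z, z' ∈ Ax y` have indices `i < j` with respect to `x`, then `c i, c j` are between
  `z` and `z'` (`btw_proj`), hence in `Ax y` (convex: the range of a chart of `y`, `line_conv`) and
  `Ax x`, so `j - i ≤ 1` (`hC.ov`).
* `proj_int`: `∃ a, ∀ z ∈ Ax y, a ≤ ix x z ≤ a + 1`, and `a` is attained: let `a` be the least index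
  (all indices differ from a given one by at most one).
* `ldist x y`: the least distance between vertices of the axes (`sInf` of a nonempty set of naturals,
  `Nat.sInf_mem`).
* `ldist_conj`: `ax_conj` and `hC.iso`.
* `ldist_lb`: for `u ∈ Ax y`, `v ∈ Ax z` with different indices `i, j` on the axis of `x`: by `idx2`
  `d u v = d u (c i) + |i - j| + d v (c j) ≥ ldist x y + |i - j| + ldist x z`.
* `ldist_ub`: for `i = ix x u`, `u ∈ Ax y`: there is `u' ∈ Ax y` with `d (c i) u' = ldist x y`: if all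
  vertices of `Ax y` have the same index `i`, take `u', p` realising `ldist x y`, `u' ∈ Ax y`, `p = c k`:
  `d u' (c k) = d u' (c i) + |k - i|`, so `d u' (c i) ≤ ldist x y`.  Otherwise there is another `z ∈ Ax y`
  with index `≠ i`, then `c i ∈ Ax y` (between `u` and `z`), so `ldist x y = 0` and `u' := c i`.
  So for `i = ix x u`, `j = ix x v`, `u ∈ Ax y`, `v ∈ Ax z`: `ldist y z ≤ ldist x y + |i - j| + ldist x z`
  by the triangle inequality. -/

namespace SXT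

open SXP SXG

variable {V G : Type*} [Group G] [MulAction G V] {d : V → V → ℕ} {R : Set G}

/-- Distance of two axes. -/
noncomputable def ldist (d : V → V → ℕ) (x y : G) : ℕ :=
  sInf {n | ∃ u v, u ∈ Ax d x ∧ v ∈ Ax d y ∧ d u v = n}

private theorem pr_conv (hC : CG d R) (y : R) : Conv d (Ax d y.1) := by
  have hc := cht_spec hC y
  intro a ha b hb z hz
  obtain ⟨i, rfl⟩ := (hc.rng a).1 ha
  obtain ⟨j, rfl⟩ := (hc.rng b).1 hb
  obtain ⟨k, hk, -⟩ := line_btw hC.tm hc.line hz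
  exact (hc.rng z).2 ⟨k, hk⟩

private theorem pr_mem (hC : CG d R) (x : R) (i : ℤ) : cht hC x i ∈ Ax d x.1 :=
  ((cht_spec hC x).rng _).2 ⟨i, rfl⟩

private theorem pr_in (hC : CG d R) (x y : R) {u z : V} (hu : u ∈ Ax d y.1) (hz : z ∈ Ax d y.1)
    (hne : ix hC x u ≠ ix hC x z) : cht hC x (ix hC x u) ∈ Ax d y.1 :=
  pr_conv hC y u hu z hz _ (btw_proj hC x hne (min_le_left _ _) (le_max_left _ _))

private theorem pr_two (hC : CG d R) {x y : R} (hxy : x ≠ y) {u z : V} (hu : u ∈ Ax d y.1)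
    (hz : z ∈ Ax d y.1) : |ix hC x u - ix hC x z| ≤ 1 := by
  by_cases hne : ix hC x u = ix hC x z
  · rw [hne, sub_self, abs_zero]
    exact zero_le_one
  · have h1 := pr_in hC x y hu hz hne
    have h2 := pr_in hC x y hz hu (Ne.symm hne)
    have h3 := hC.ov x.1 x.2 y.1 y.2 (fun h => hxy (Subtype.ext h)) _ _ (pr_mem hC x _) h1
      (pr_mem hC x _) h2
    rw [← (cht_spec hC x).line]
    exact_mod_cast h3

theorem proj_int (hC : CG d R) {x y : R} (hxy : x ≠ y) :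
    ∃ a : ℤ, (∀ z, z ∈ Ax d y.1 → a ≤ ix hC x z ∧ ix hC x z ≤ a + 1) ∧
      ∃ z, z ∈ Ax d y.1 ∧ ix hC x z = a := by
  have hz0 := pr_mem hC y 0
  by_cases h : ∃ z, z ∈ Ax d y.1 ∧ ix hC x z = ix hC x (cht hC y 0) - 1
  · refine ⟨_, fun z hz => ?_, h⟩
    obtain ⟨z1, hz1, h1⟩ := h
    have h2 := abs_le.1 (pr_two hC hxy hz hz0)
    have h3 := abs_le.1 (pr_two hC hxy hz hz1)
    omega
  · refine ⟨ix hC x (cht hC y 0), fun z hz => ?_, _, hz0, rfl⟩
    have h2 := abs_le.1 (pr_two hC hxy hz hz0)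
    have h3 : ix hC x z ≠ ix hC x (cht hC y 0) - 1 := fun h4 => h ⟨z, hz, h4⟩
    omega

private theorem pr_le {x y : G} {u v : V} (hu : u ∈ Ax d x) (hv : v ∈ Ax d y) :
    ldist d x y ≤ d u v :=
  Nat.sInf_le ⟨u, v, hu, hv, rfl⟩

private theorem pr_att (hC : CG d R) (x y : R) :
    ∃ u v, u ∈ Ax d x.1 ∧ v ∈ Ax d y.1 ∧ d u v = ldist d x.1 y.1 := by
  have h : {n | ∃ u v, u ∈ Ax d x.1 ∧ v ∈ Ax d y.1 ∧ d u v = n}.Nonempty :=
    ⟨_, _, _, pr_mem hC x 0, pr_mem hC y 0, rfl⟩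
  exact Nat.sInf_mem h

theorem ldist_symm (hC : CG d R) (x y : G) : ldist d x y = ldist d y x := by
  unfold ldist
  congr 1
  ext n
  constructor
  · rintro ⟨u, v, hu, hv, h⟩
    exact ⟨v, u, hv, hu, by rw [hC.tm.symm, h]⟩
  · rintro ⟨u, v, hu, hv, h⟩
    exact ⟨v, u, hv, hu, by rw [hC.tm.symm, h]⟩

theorem ldist_conj (hC : CG d R) (g x y : G) :
    ldist d (g * x * g⁻¹) (g * y * g⁻¹) = ldist d x y := by
  unfold ldist
  congr 1
  ext n
  constructor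
  · rintro ⟨u, v, hu, hv, h⟩
    refine ⟨g⁻¹ • u, g⁻¹ • v, (ax_conj hC.iso x g _).1 ?_, (ax_conj hC.iso y g _).1 ?_, ?_⟩
    · rwa [smul_inv_smul]
    · rwa [smul_inv_smul]
    · rw [hC.iso, h]
  · rintro ⟨u, v, hu, hv, h⟩
    exact ⟨g • u, g • v, (ax_conj hC.iso x g u).2 hu, (ax_conj hC.iso y g v).2 hv, by
      rw [hC.iso, h]⟩

theorem ldist_lb (hC : CG d R) {x y z : R}
    (hne : ∀ u v, u ∈ Ax d y.1 → v ∈ Ax d z.1 → ix hC x u ≠ ix hC x v) :
    ∃ u v, u ∈ Ax d y.1 ∧ v ∈ Ax d z.1 ∧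
      (ldist d x.1 y.1 + |ix hC x u - ix hC x v| + ldist d x.1 z.1 : ℤ) ≤ ldist d y.1 z.1 := by
  obtain ⟨u, v, hu, hv, huv⟩ := pr_att hC y z
  refine ⟨u, v, hu, hv, ?_⟩
  have h1 := idx2 hC.tm (cht_spec hC x).line (ix_spec hC x u) (ix_spec hC x v) (hne u v hu hv)
  have h2 : ldist d x.1 y.1 ≤ d (cht hC x (ix hC x u)) u := pr_le (pr_mem hC x _) hu
  have h3 : ldist d x.1 z.1 ≤ d (cht hC x (ix hC x v)) v := pr_le (pr_mem hC x _) hv
  rw [hC.tm.symm] at h2 h3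
  have h4 : (ldist d x.1 y.1 : ℤ) ≤ d u (cht hC x (ix hC x u)) := by exact_mod_cast h2
  have h5 : (ldist d x.1 z.1 : ℤ) ≤ d v (cht hC x (ix hC x v)) := by exact_mod_cast h3
  rw [← huv]
  linarith

private theorem pr_near (hC : CG d R) (x y : R) {u : V} (hu : u ∈ Ax d y.1) :
    ∃ u' ∈ Ax d y.1, d u' (cht hC x (ix hC x u)) ≤ ldist d x.1 y.1 := by
  by_cases h : ∃ z, z ∈ Ax d y.1 ∧ ix hC x u ≠ ix hC x z
  · obtain ⟨z, hz, hne⟩ := h
    refine ⟨_, pr_in hC x y hu hz hne, ?_⟩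
    rw [(hC.tm.zero _ _).2 rfl]
    exact Nat.zero_le _
  · obtain ⟨p, u', hp, hu', hd⟩ := pr_att hC x y
    refine ⟨u', hu', ?_⟩
    have h1 : ix hC x u = ix hC x u' := by
      by_contra hne
      exact h ⟨u', hu', hne⟩
    obtain ⟨k, rfl⟩ := ((cht_spec hC x).rng p).1 hp
    have h2 := ix_spec hC x u' k
    have h3 := abs_nonneg (k - ix hC x u')
    rw [h1, ← hd, hC.tm.symm (cht hC x k)]
    have h4 : (d u' (cht hC x (ix hC x u')) : ℤ) ≤ d u' (cht hC x k) := by linarith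
    exact_mod_cast h4

theorem ldist_ub (hC : CG d R) {x y z : R} (hxy : x ≠ y) (hxz : x ≠ z) {u v : V}
    (hu : u ∈ Ax d y.1) (hv : v ∈ Ax d z.1) :
    (ldist d y.1 z.1 : ℤ) ≤ ldist d x.1 y.1 + |ix hC x u - ix hC x v| + ldist d x.1 z.1 := by
  obtain ⟨u', hu', h1⟩ := pr_near hC x y hu
  obtain ⟨v', hv', h2⟩ := pr_near hC x z hv
  have h3 : ldist d y.1 z.1 ≤ d u' v' := pr_le hu' hv'
  have h4 := hC.tm.tri u' (cht hC x (ix hC x u)) v'
  have h5 := hC.tm.tri (cht hC x (ix hC x u)) (cht hC x (ix hC x v)) v'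
  have h6 := hC.tm.symm (cht hC x (ix hC x v)) v'
  have h7 := (cht_spec hC x).line (ix hC x u) (ix hC x v)
  have h8 : ldist d y.1 z.1 ≤ ldist d x.1 y.1 + d (cht hC x (ix hC x u)) (cht hC x (ix hC x v)) +
      ldist d x.1 z.1 := by omega
  rw [← h7]
  exact_mod_cast h8

end SXT
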