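import Pool.Agent.SXS.Defs

/-!
# SXT-Rnd: a random subgroup acts freely on the vertices of a quarter of the edges

Averaging over the homomorphisms, as in `exists_sub` of `SXS/Sub.lean`.
-/

set_option autoImplicit false

namespace Pool.Agent.SXT

open Finset Pool.Agent.RSV Pool.Agent.SXS

/-- counting for a surjective homomorphism of finite groups -/
private theorem rnd_fiber {A G : Type*} [AddCommGroup A] [Fintype A] [AddCommGroup G] [Fintype G] [DecidableEq G]
    (f : A →+ G) (hf : Function.Surjective f) (S : Finset G) :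
    (univ.filter fun a => f a ∈ S).card * Fintype.card G = S.card * Fintype.card A := by
  have h0 : ∀ g : G, (univ.filter fun a => f a = g).card = (univ.filter fun a => f a = 0).card := by
    intro g
    obtain ⟨a0, ha0⟩ := hf g
    refine Finset.card_bij' (fun a _ => a - a0) (fun a _ => a + a0) ?_ ?_ ?_ ?_
    · intro a ha
      rw [mem_filter] at ha ⊢
      exact ⟨mem_univ _, by rw [map_sub, ha.2, ha0, sub_self]⟩
    · intro a ha
      rw [mem_filter] at ha ⊢
      exact ⟨mem_univ _, by rw [map_add, ha.2, ha0, zero_add]⟩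
    · intro a _
      exact sub_add_cancel a a0
    · intro a _
      exact add_sub_cancel_right a a0
  have h1 : (univ.filter fun a => f a ∈ S).card = S.card * (univ.filter fun a => f a = 0).card := by
    have h2 : ∀ a ∈ univ.filter fun a => f a ∈ S, f a ∈ S := fun a ha => (mem_filter.1 ha).2
    rw [Finset.card_eq_sum_card_fiberwise (f := f) (t := S) h2, ← smul_eq_mul, ← Finset.sum_const]
    refine Finset.sum_congr rfl fun g hg => ?_
    rw [← h0 g]
    congr 1
    ext a
    rw [mem_filter, mem_filter, mem_filter]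
    constructor
    · rintro ⟨_, h3⟩
      exact ⟨mem_univ _, h3⟩
    · rintro ⟨_, h3⟩
      exact ⟨⟨mem_univ _, by rw [h3]; exact hg⟩, h3⟩
  have h2 : Fintype.card A = Fintype.card G * (univ.filter fun a => f a = 0).card := by
    have h3 : ∀ a ∈ (univ : Finset A), f a ∈ (univ : Finset G) := fun a _ => mem_univ _
    have h4 := Finset.card_eq_sum_card_fiberwise (f := f) (t := (univ : Finset G)) (s := (univ : Finset A)) h3
    rw [Finset.sum_congr rfl fun g _ => h0 g, Finset.sum_const, smul_eq_mul] at h4
    exact h4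
  rw [h1, h2]
  ring

/-- orbit-stabilizer theorem -/
private theorem rnd_stab {p k : ℕ} [Fact p.Prime] {V : Type*} [Fintype V] [DecidableEq V]
    (φ : Multiplicative (E p k) →* Equiv.Perm V) {K : ℕ} (hK : Orb φ K) (v : V) :
    (univ.filter fun g : E p k => φ (Multiplicative.ofAdd g) v = v).card * K ≤ Fintype.card (E p k) := by
  have h0 : ∀ w ∈ univ.image (fun g : E p k => φ (Multiplicative.ofAdd g) v),
      (univ.filter fun g : E p k => φ (Multiplicative.ofAdd g) v = w).card =
      (univ.filter fun g : E p k => φ (Multiplicative.ofAdd g) v = v).card := by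
    intro w hw
    obtain ⟨g0, -, hg0⟩ := mem_image.1 hw
    have hm : ∀ a b : E p k, φ (Multiplicative.ofAdd (a + b)) v =
        φ (Multiplicative.ofAdd a) (φ (Multiplicative.ofAdd b) v) := by
      intro a b
      rw [ofAdd_add, map_mul, Equiv.Perm.mul_apply]
    refine Finset.card_bij' (fun a _ => -g0 + a) (fun a _ => g0 + a) ?_ ?_ ?_ ?_
    · intro a ha
      rw [mem_filter] at ha ⊢
      refine ⟨mem_univ _, ?_⟩
      rw [hm, ha.2, ← hg0, ← hm, neg_add_cancel, ofAdd_zero, map_one, Equiv.Perm.one_apply]
    · intro a ha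
      rw [mem_filter] at ha ⊢
      refine ⟨mem_univ _, ?_⟩
      rw [hm, ha.2, hg0]
    · intro a _
      exact add_neg_cancel_left g0 a
    · intro a _
      exact neg_add_cancel_left g0 a
  have h1 := Finset.card_eq_sum_card_image (fun g : E p k => φ (Multiplicative.ofAdd g) v) univ
  rw [Finset.sum_congr rfl h0, Finset.sum_const, smul_eq_mul] at h1
  have h2 : K ≤ (univ.image (fun g : E p k => φ (Multiplicative.ofAdd g) v)).card := by
    refine (hK v).trans (le_of_eq ?_)
    rw [← Set.ncard_coe_finset]
    congr 1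
    ext w
    rw [Finset.mem_coe, mem_image]
    constructor
    · rintro ⟨g, hg⟩
      exact ⟨Multiplicative.toAdd g, mem_univ _, hg⟩
    · rintro ⟨g, -, hg⟩
      exact ⟨Multiplicative.ofAdd g, hg⟩
  rw [← Finset.card_univ, h1, mul_comm]
  exact Nat.mul_le_mul_right _ h2

/-- the homomorphism of a tuple -/
private def rndL {p k d : ℕ} (x : Fin d → E p k) : E p d →+ E p k :=
  AddMonoidHom.mk' (fun c => ∑ j, c j • x j) (by
    intro a b
    rw [← Finset.sum_add_distrib]
    exact Finset.sum_congr rfl fun j _ => by rw [Pi.add_apply, add_smul])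

private def rndM {p k d : ℕ} (c : E p d) : (Fin d → E p k) →+ E p k :=
  AddMonoidHom.mk' (fun x => ∑ j, c j • x j) (by
    intro a b
    rw [← Finset.sum_add_distrib]
    exact Finset.sum_congr rfl fun j _ => by rw [Pi.add_apply, smul_add])

private theorem rndM_surj {p k d : ℕ} [Fact p.Prime] {c : E p d} (hc : c ≠ 0) :
    Function.Surjective (rndM (k := k) c) := by
  obtain ⟨j, hj⟩ : ∃ j, c j ≠ 0 := by
    by_contra hcon
    push Not at hcon
    exact hc (funext hcon)
  intro g
  refine ⟨Pi.single j ((c j)⁻¹ • g), ?_⟩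
  show ∑ i, c i • (Pi.single j ((c j)⁻¹ • g) : Fin d → E p k) i = g
  rw [Finset.sum_eq_single j]
  · rw [Pi.single_eq_same, smul_smul, mul_inv_cancel₀ hj, one_smul]
  · intro i _ hi
    rw [Pi.single_eq_of_ne hi, smul_zero]
  · intro h
    exact absurd (mem_univ j) h

/-- for one vertex and one `c` -/
private theorem rnd_one {p k : ℕ} [Fact p.Prime] {V : Type*} [Fintype V] [DecidableEq V]
    (φ : Multiplicative (E p k) →* Equiv.Perm V) {K : ℕ} (hK : Orb φ K) (d : ℕ)
    (v : V) (c : E p d) (hc : c ≠ 0) :
    (univ.filter fun x : Fin d → E p k => φ (Multiplicative.ofAdd (rndL x c)) v = v).card * K ≤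
      Fintype.card (Fin d → E p k) := by
  have hEpos : 0 < Fintype.card (E p k) := Fintype.card_pos
  have h2 := rnd_fiber (rndM (k := k) c) (rndM_surj hc)
    (univ.filter fun g : E p k => φ (Multiplicative.ofAdd g) v = v)
  have h3 := rnd_stab φ hK v
  have h4 : (univ.filter fun x : Fin d → E p k => rndM c x ∈
      (univ.filter fun g : E p k => φ (Multiplicative.ofAdd g) v = v)) =
      (univ.filter fun x : Fin d → E p k => φ (Multiplicative.ofAdd (rndL x c)) v = v) := by
    ext x
    rw [mem_filter, mem_filter, mem_filter]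
    constructor
    · rintro ⟨_, _, h5⟩
      exact ⟨mem_univ _, h5⟩
    · rintro ⟨_, h5⟩
      exact ⟨mem_univ _, mem_univ _, h5⟩
  rw [h4] at h2
  refine Nat.le_of_mul_le_mul_right ?_ hEpos
  calc (univ.filter fun x : Fin d → E p k => φ (Multiplicative.ofAdd (rndL x c)) v = v).card * K *
      Fintype.card (E p k) = (univ.filter fun x : Fin d → E p k => φ (Multiplicative.ofAdd (rndL x c)) v = v).card *
      Fintype.card (E p k) * K := by ring
    _ = (univ.filter fun g : E p k => φ (Multiplicative.ofAdd g) v = v).card * K *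
      Fintype.card (Fin d → E p k) := by rw [h2]; ring
    _ ≤ Fintype.card (E p k) * Fintype.card (Fin d → E p k) := Nat.mul_le_mul_right _ h3
    _ = _ := by ring

theorem exists_hom {p k : ℕ} [Fact p.Prime] {V : Type*} [Fintype V] [DecidableEq V]
    (φ : Multiplicative (E p k) →* Equiv.Perm V) {K : ℕ} (hK : Orb φ K) (d : ℕ)
    (hd : p ^ (d + 2) ≤ K) (H : Finset (Finset V)) (h3 : Three H) :
    ∃ (L : E p d →+ E p k) (B : Finset V),
      (∀ v, v ∉ B ↔ ∀ c : E p d, c ≠ 0 → φ (Multiplicative.ofAdd (L c)) v ≠ v) ∧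
      H.card ≤ 4 * (H.filter fun e => Disjoint e B).card := by
  classical
  obtain ⟨Bx, hBx⟩ : ∃ Bx : (Fin d → E p k) → Finset V,
      Bx = fun x => univ.filter fun v => ∃ c : E p d, c ≠ 0 ∧ φ (Multiplicative.ofAdd (rndL x c)) v = v := ⟨_, rfl⟩
  have hcE : Fintype.card (E p d) = p ^ d := by
    rw [Fintype.card_fun, ZMod.card, Fintype.card_fin]
  have hp2 : 2 ≤ p := (Fact.out : p.Prime).two_le
  have hpd : 0 < p ^ d := Nat.pow_pos (by omega)
  obtain ⟨T, hT⟩ : ∃ T, T = Fintype.card (Fin d → E p k) := ⟨_, rfl⟩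
  -- the homomorphisms which are bad for an edge
  have hbad : ∀ e ∈ H, 4 * (univ.filter fun x => ¬ Disjoint e (Bx x)).card ≤ 3 * T := by
    intro e he
    have h1 : (univ.filter fun x => ¬ Disjoint e (Bx x)).card ≤
        ∑ v ∈ e, ∑ c ∈ univ.filter (fun c : E p d => c ≠ 0),
          (univ.filter fun x : Fin d → E p k => φ (Multiplicative.ofAdd (rndL x c)) v = v).card := by
      refine le_trans (Finset.card_le_card (t := e.biUnion fun v =>
        (univ.filter (fun c : E p d => c ≠ 0)).biUnion fun c =>
          univ.filter fun x : Fin d → E p k => φ (Multiplicative.ofAdd (rndL x c)) v = v) ?_)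
        (Finset.card_biUnion_le.trans (Finset.sum_le_sum fun v _ => Finset.card_biUnion_le))
      intro x hx
      have h2 := (mem_filter.1 hx).2
      rw [Finset.not_disjoint_iff] at h2
      obtain ⟨v, hv, hv'⟩ := h2
      rw [hBx, mem_filter] at hv'
      obtain ⟨_, c, hc, h4⟩ := hv'
      exact mem_biUnion.2 ⟨v, hv, mem_biUnion.2 ⟨c, mem_filter.2 ⟨mem_univ _, hc⟩,
        mem_filter.2 ⟨mem_univ _, h4⟩⟩⟩
    have h2 : (univ.filter fun x => ¬ Disjoint e (Bx x)).card * K ≤ 3 * (p ^ d * T) := by
      calc (univ.filter fun x => ¬ Disjoint e (Bx x)).card * K ≤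
          (∑ v ∈ e, ∑ c ∈ univ.filter (fun c : E p d => c ≠ 0),
          (univ.filter fun x : Fin d → E p k => φ (Multiplicative.ofAdd (rndL x c)) v = v).card) * K :=
            Nat.mul_le_mul_right _ h1
        _ = ∑ v ∈ e, ∑ c ∈ univ.filter (fun c : E p d => c ≠ 0),
          (univ.filter fun x : Fin d → E p k => φ (Multiplicative.ofAdd (rndL x c)) v = v).card * K := by
            rw [Finset.sum_mul]
            exact Finset.sum_congr rfl fun v _ => Finset.sum_mul _ _ _
        _ ≤ ∑ _v ∈ e, ∑ _c ∈ univ.filter (fun c : E p d => c ≠ 0), T :=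
            Finset.sum_le_sum fun v _ => Finset.sum_le_sum fun c hc => by
              rw [hT]
              exact rnd_one φ hK d v c (mem_filter.1 hc).2
        _ = 3 * ((univ.filter (fun c : E p d => c ≠ 0)).card * T) := by
            rw [Finset.sum_const, Finset.sum_const, smul_eq_mul, smul_eq_mul, h3 e he]
        _ ≤ 3 * (p ^ d * T) := by
            refine Nat.mul_le_mul_left _ (Nat.mul_le_mul_right _ ?_)
            rw [← hcE]
            exact Finset.card_le_univ _
    have h4 : 4 * p ^ d ≤ K := by
      refine le_trans ?_ hd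
      rw [pow_add, mul_comm]
      refine Nat.mul_le_mul_left _ ?_
      calc 4 = 2 ^ 2 := by norm_num
        _ ≤ p ^ 2 := Nat.pow_le_pow_left hp2 2
    refine Nat.le_of_mul_le_mul_right ?_ hpd
    calc 4 * (univ.filter fun x => ¬ Disjoint e (Bx x)).card * p ^ d =
        (univ.filter fun x => ¬ Disjoint e (Bx x)).card * (4 * p ^ d) := by ring
      _ ≤ (univ.filter fun x => ¬ Disjoint e (Bx x)).card * K := Nat.mul_le_mul_left _ h4
      _ ≤ 3 * (p ^ d * T) := h2
      _ = _ := by ring
  have hgood : ∀ e ∈ H, T ≤ 4 * (univ.filter fun x => Disjoint e (Bx x)).card := by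
    intro e he
    have h1 := hbad e he
    have h2 := Finset.card_filter_add_card_filter_not (s := (univ : Finset (Fin d → E p k)))
      (fun x => Disjoint e (Bx x))
    rw [Finset.card_univ, ← hT] at h2
    omega
  have hsum : ∑ _x : Fin d → E p k, H.card ≤
      ∑ x, 4 * (H.filter fun e => Disjoint e (Bx x)).card := by
    calc ∑ _x : Fin d → E p k, H.card = ∑ _e ∈ H, T := by
          rw [Finset.sum_const, Finset.sum_const, Finset.card_univ, ← hT, smul_eq_mul, smul_eq_mul,
            mul_comm]
      _ ≤ ∑ e ∈ H, 4 * (univ.filter fun x => Disjoint e (Bx x)).card :=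
          Finset.sum_le_sum fun e he => hgood e he
      _ = ∑ x, 4 * (H.filter fun e => Disjoint e (Bx x)).card := by
          rw [← Finset.mul_sum, ← Finset.mul_sum]
          congr 1
          simp_rw [Finset.card_filter]
          exact Finset.sum_comm
  obtain ⟨x, -, hx⟩ := Finset.exists_le_of_sum_le univ_nonempty hsum
  refine ⟨rndL x, Bx x, fun v => ?_, hx⟩
  rw [hBx, mem_filter]
  constructor
  · intro h c hc h4
    exact h ⟨mem_univ _, c, hc, h4⟩
  · rintro h ⟨_, c, hc, h4⟩
    exact h c hc h4

end Pool.Agent.SXT
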