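import Pool.Agent.SXT.Hull
import Pool.Agent.SXT.Core

/-! Project SXT, module SXT-Three: groups generated by two or three translations of `R`.

Two translations: `core` with the projections of `proj_int`.  Three: `core` for a generating triple with the least sum of
the distances of the axes, whose projections are bounded by `hull3`. -/

namespace SXT

open SXP SXG

variable {V G : Type*} [Group G] [MulAction G V] {d : V → V → ℕ} {R : Set G}

private theorem three_one {x : G} (hgen : Subgroup.closure {x} = ⊤) (g : G) : g ∈ Subgroup.zpowers x := by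
  rw [Subgroup.zpowers_eq_closure, hgen]
  exact Subgroup.mem_top g

theorem two (hC : CG d R) (hτ : ∀ x : R, 2 ≤ tau hC x) {x y : R}
    (hgen : Subgroup.closure {x.1, y.1} = ⊤) :
    ∃ z : R, ∀ g : G, Commute g z.1 → g ∈ Subgroup.zpowers z.1 := by
  by_cases hxy : x = y
  · subst hxy
    rw [Set.pair_eq_singleton] at hgen
    exact ⟨x, fun g _ => three_one hgen g⟩
  refine ⟨x, fun g hg => ?_⟩
  let f : Bool → R := fun b => if b = true then x else y
  have hf : ∀ i j : Bool, j ≠ i → f i ≠ f j := by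
    intro i j hij
    cases i <;> cases j
    · exact absurd rfl hij
    · exact fun h => hxy h.symm
    · exact hxy
    · exact absurd rfl hij
  have hull : ∀ i, ∃ s t : ℤ, t - s + 1 ≤ tau hC (f i) ∧
      ∀ j, j ≠ i → ∀ z, z ∈ Ax d (f j).1 → s ≤ ix hC (f i) z ∧ ix hC (f i) z ≤ t := by
    intro i
    obtain ⟨a, ha, -⟩ := proj_int hC (hf i (!i) (by cases i <;> decide))
    have h2 := hτ (f i)
    refine ⟨a, a + 1, by omega, fun j hj z hz => ha z ?_⟩
    have hji : j = !i := by cases i <;> cases j <;> simp_all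
    rwa [← hji]
  have hgc : g ∈ Subgroup.closure (Set.range fun i => (f i).1) := by
    have h1 : ({x.1, y.1} : Set G) ⊆ Set.range fun i => (f i).1 := by
      rintro w (rfl | rfl)
      · exact ⟨true, rfl⟩
      · exact ⟨false, rfl⟩
    have h2 := Subgroup.closure_mono h1
    rw [hgen] at h2
    exact h2 (Subgroup.mem_top g)
  exact core hC f hull true false (by decide) hgc hg

private theorem three_min (hC : CG d R) {n : ℕ}
    (hmin : ∀ x y z : R, Subgroup.closure {x.1, y.1, z.1} = ⊤ →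
      n ≤ ldist d x.1 y.1 + ldist d y.1 z.1 + ldist d x.1 z.1)
    {x y z : R} (hgen : Subgroup.closure {x.1, y.1, z.1} = ⊤)
    (hn : ldist d x.1 y.1 + ldist d y.1 z.1 + ldist d x.1 z.1 = n) (k : ℤ) :
    ldist d y.1 z.1 ≤ ldist d y.1 (x.1 ^ k * z.1 * (x.1 ^ k)⁻¹) := by
  have h1 : Subgroup.closure {x.1, y.1, x.1 ^ k * z.1 * (x.1 ^ k)⁻¹} = ⊤ := by
    rw [eq_top_iff, ← hgen, Subgroup.closure_le]
    have hx : x.1 ∈ Subgroup.closure {x.1, y.1, x.1 ^ k * z.1 * (x.1 ^ k)⁻¹} :=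
      Subgroup.subset_closure (by simp)
    have hy : y.1 ∈ Subgroup.closure {x.1, y.1, x.1 ^ k * z.1 * (x.1 ^ k)⁻¹} :=
      Subgroup.subset_closure (by simp)
    have hz : x.1 ^ k * z.1 * (x.1 ^ k)⁻¹ ∈
        Subgroup.closure {x.1, y.1, x.1 ^ k * z.1 * (x.1 ^ k)⁻¹} :=
      Subgroup.subset_closure (by simp)
    rintro w (rfl | rfl | rfl)
    · exact hx
    · exact hy
    · have hk := Subgroup.zpow_mem _ hx k
      have h2 := Subgroup.mul_mem _ (Subgroup.mul_mem _ (Subgroup.inv_mem _ hk) hz) hk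
      have h3 : (x.1 ^ k)⁻¹ * (x.1 ^ k * z.1 * (x.1 ^ k)⁻¹) * x.1 ^ k = z.1 := by group
      rw [h3] at h2
      exact h2
  have h2 := hmin x y ⟨x.1 ^ k * z.1 * (x.1 ^ k)⁻¹, hC.conj _ _ z.2⟩ h1
  have h3 : ldist d x.1 (x.1 ^ k * z.1 * (x.1 ^ k)⁻¹) = ldist d x.1 z.1 := by
    have h4 := ldist_conj hC (x.1 ^ k) x.1 z.1
    have h5 : x.1 ^ k * x.1 * (x.1 ^ k)⁻¹ = x.1 := by group
    rw [h5] at h4
    exact h4
  show ldist d y.1 z.1 ≤ ldist d y.1 (x.1 ^ k * z.1 * (x.1 ^ k)⁻¹)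
  have h6 : n ≤ ldist d x.1 y.1 + ldist d y.1 (x.1 ^ k * z.1 * (x.1 ^ k)⁻¹) +
      ldist d x.1 (x.1 ^ k * z.1 * (x.1 ^ k)⁻¹) := h2
  rw [h3] at h6
  omega

theorem three (hC : CG d R) (hτ : ∀ x : R, 3 ≤ tau hC x) {x y z : R}
    (hgen : Subgroup.closure {x.1, y.1, z.1} = ⊤) :
    ∃ w : R, ∀ g : G, Commute g w.1 → g ∈ Subgroup.zpowers w.1 := by
  classical
  have hτ2 : ∀ x : R, 2 ≤ tau hC x := fun x => by
    have := hτ x
    omega
  have hex : ∃ n, ∃ x y z : R, Subgroup.closure {x.1, y.1, z.1} = ⊤ ∧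
      ldist d x.1 y.1 + ldist d y.1 z.1 + ldist d x.1 z.1 = n := ⟨_, x, y, z, hgen, rfl⟩
  obtain ⟨x, y, z, hgen, hn⟩ := Nat.find_spec hex
  have hmin : ∀ x y z : R, Subgroup.closure {x.1, y.1, z.1} = ⊤ →
      Nat.find hex ≤ ldist d x.1 y.1 + ldist d y.1 z.1 + ldist d x.1 z.1 :=
    fun x y z h => Nat.find_min' hex ⟨x, y, z, h, rfl⟩
  by_cases hxy : x = y
  · subst hxy
    rw [Set.insert_eq_of_mem (by simp)] at hgen
    exact two hC hτ2 hgen
  by_cases hyz : y = z
  · subst hyz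
    rw [Set.pair_eq_singleton] at hgen
    exact two hC hτ2 hgen
  by_cases hxz : x = z
  · subst hxz
    rw [Set.insert_eq_of_mem (by simp)] at hgen
    exact two hC hτ2 hgen
  have hgy : Subgroup.closure {y.1, x.1, z.1} = ⊤ := by
    rw [Set.insert_comm]
    exact hgen
  have hgz : Subgroup.closure {z.1, x.1, y.1} = ⊤ := by
    rw [Set.insert_comm, Set.pair_comm]
    exact hgen
  have hny : ldist d y.1 x.1 + ldist d x.1 z.1 + ldist d y.1 z.1 = Nat.find hex := by
    rw [ldist_symm hC y.1 x.1, ← hn]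
    ring
  have hnz : ldist d z.1 x.1 + ldist d x.1 y.1 + ldist d z.1 y.1 = Nat.find hex := by
    rw [ldist_symm hC z.1 x.1, ldist_symm hC z.1 y.1, ← hn]
    ring
  obtain ⟨s0, t0, h0, h01, h02⟩ := hull3 hC hxy hxz (hτ x) (three_min hC hmin hgen hn)
  obtain ⟨s1, t1, h1, h10, h12⟩ := hull3 hC (Ne.symm hxy) hyz (hτ y) (three_min hC hmin hgy hny)
  obtain ⟨s2, t2, h2, h20, h21⟩ := hull3 hC (Ne.symm hxz) (Ne.symm hyz) (hτ z)
    (three_min hC hmin hgz hnz)
  refine ⟨x, fun g hg => ?_⟩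
  let f : Fin 3 → R := ![x, y, z]
  have hull : ∀ i, ∃ s t : ℤ, t - s + 1 ≤ tau hC (f i) ∧
      ∀ j, j ≠ i → ∀ z, z ∈ Ax d (f j).1 → s ≤ ix hC (f i) z ∧ ix hC (f i) z ≤ t := by
    intro i
    fin_cases i
    · refine ⟨s0, t0, h0, fun j hj => ?_⟩
      fin_cases j
      · exact absurd rfl hj
      · exact h01
      · exact h02
    · refine ⟨s1, t1, h1, fun j hj => ?_⟩
      fin_cases j
      · exact h10
      · exact absurd rfl hj
      · exact h12
    · refine ⟨s2, t2, h2, fun j hj => ?_⟩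
      fin_cases j
      · exact h20
      · exact h21
      · exact absurd rfl hj
  have hgc : g ∈ Subgroup.closure (Set.range fun i => (f i).1) := by
    have h1 : ({x.1, y.1, z.1} : Set G) ⊆ Set.range fun i => (f i).1 := by
      rintro w (rfl | rfl | rfl)
      · exact ⟨0, rfl⟩
      · exact ⟨1, rfl⟩
      · exact ⟨2, rfl⟩
    have h2 := Subgroup.closure_mono h1
    rw [hgen] at h2
    exact h2 (Subgroup.mem_top g)
  exact core hC f hull 0 1 (by decide) hgc hg

end SXT
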