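import Pool.Agent.SXS.Main

/-! SXT-Uni: a bound for `g_p(t) / p` which is uniform in `p`. -/

set_option autoImplicit false

namespace Pool.Agent.SXT

open Finset Pool.Agent.RSV Pool.Agent.SXS

private theorem uni_two : gp 2 (1 / 2) / ((2 : ℕ) : ℝ) ≤ 19 / 20 := by
  rw [gp_half]
  obtain ⟨y, hy⟩ : ∃ y, y = (2 : ℝ) ^ (2 / 3 : ℝ) := ⟨_, rfl⟩
  have hy0 : 0 < y := by rw [hy]; positivity
  have hy3 : y ^ 3 = 4 := by
    rw [hy, ← Real.rpow_natCast, ← Real.rpow_mul (by norm_num)]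
    norm_num
  rw [← hy]
  have h1 : 30 / 19 ≤ y := by
    by_contra h
    push Not at h
    have h2 : y ^ 3 < (30 / 19) ^ 3 := pow_lt_pow_left₀ h hy0.le (by norm_num)
    rw [hy3] at h2
    norm_num at h2
  rw [div_div, div_le_iff₀ (by positivity)]
  push_cast
  linarith

private theorem uni_three : gp 3 (1 / 2) / ((3 : ℕ) : ℝ) ≤ 19 / 20 := by
  obtain ⟨y, hy⟩ : ∃ y, y = (2 : ℝ) ^ (2 / 3 : ℝ) := ⟨_, rfl⟩
  have hy0 : 0 < y := by rw [hy]; positivity
  have hy3 : y ^ 3 = 4 := by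
    rw [hy, ← Real.rpow_natCast, ← Real.rpow_mul (by norm_num)]
    norm_num
  have h0 : gp 3 (1 / 2) = y * (7 / 4) := by
    unfold gp
    have h3 : (-((((3 : ℕ) : ℝ) - 1) / 3)) = -(2 / 3 : ℝ) := by norm_num
    rw [h3, one_div, Real.inv_rpow (by norm_num), Real.rpow_neg (by norm_num), inv_inv, ← hy]
    congr 1
    rw [Finset.sum_range_succ, Finset.sum_range_succ, Finset.sum_range_one]
    norm_num
  have h1 : y ≤ 57 / 35 := by
    by_contra h
    push Not at h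
    have h2 : (57 / 35) ^ 3 < y ^ 3 := pow_lt_pow_left₀ h (by norm_num) (by norm_num)
    rw [hy3] at h2
    norm_num at h2
  rw [h0, div_le_iff₀ (by norm_num)]
  push_cast
  linarith

private theorem uni_exp_neg {x : ℝ} (hx : 0 ≤ x) : Real.exp (-x) ≤ 1 - x + x ^ 2 / 2 := by
  have h1 := Real.quadratic_le_exp_of_nonneg hx
  have h2 : 0 < 1 + x + x ^ 2 / 2 := by positivity
  have h3 : 0 < 1 - x + x ^ 2 / 2 := by nlinarith [sq_nonneg (x - 1)]
  have h4 : 1 ≤ (1 - x + x ^ 2 / 2) * (1 + x + x ^ 2 / 2) := by nlinarith [sq_nonneg (x ^ 2)]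
  have h5 : 1 ≤ (1 - x + x ^ 2 / 2) * Real.exp x :=
    h4.trans (mul_le_mul_of_nonneg_left h1 h3.le)
  rw [Real.exp_neg, inv_le_iff_one_le_mul₀ (Real.exp_pos x)]
  linarith

private theorem uni_exp_up {y : ℝ} (h0 : 0 ≤ y) (h1 : y ≤ 1) :
    Real.exp y ≤ 1 + y + y ^ 2 / 2 + 2 / 9 * y ^ 3 := by
  have h := Real.exp_bound' h0 h1 (n := 3) (by norm_num)
  refine h.trans (le_of_eq ?_)
  rw [Finset.sum_range_succ, Finset.sum_range_succ, Finset.sum_range_one]
  norm_num [Nat.factorial]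
  ring

private theorem uni_e2 : 1 - Real.exp (-2) ≤ 865 / 1000 := by
  have h1 := Real.exp_one_lt_d9
  have h2 : Real.exp 2 = Real.exp 1 * Real.exp 1 := by
    rw [← Real.exp_add]
    norm_num
  have h0 := Real.exp_pos 1
  have h3 : Real.exp 2 ≤ 7.4 := by
    rw [h2]
    nlinarith
  have h4 : Real.exp (-2) ≥ 135 / 1000 := by
    rw [Real.exp_neg, ge_iff_le, le_inv_comm₀ (by norm_num) (Real.exp_pos 2)]
    refine h3.trans ?_
    norm_num
  linarith

private theorem uni_poly {y : ℝ} (h0 : 8 / 15 ≤ y) (h1 : y ≤ 2 / 3) :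
    (1 + y + y ^ 2 / 2 + 2 / 9 * y ^ 3) * (865 / 1000) ≤ 57 / 20 * y := by
  have h2 : 0 ≤ (y - 8 / 15) * (2 / 3 - y) := mul_nonneg (by linarith) (by linarith)
  have h3 : 0 ≤ y * ((y - 8 / 15) * (2 / 3 - y)) := mul_nonneg (by linarith) h2
  nlinarith

private theorem uni_five {p : ℕ} (hp : 5 ≤ p) :
    gp p (Real.exp (-(2 / (p : ℝ)))) / p ≤ 19 / 20 := by
  have hpR : (5 : ℝ) ≤ p := by exact_mod_cast hp
  have hp0 : (0 : ℝ) < p := by linarith
  obtain ⟨u, hu⟩ : ∃ u : ℝ, u = 1 - 1 / p := ⟨_, rfl⟩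
  have hu1 : 4 / 5 ≤ u := by
    rw [hu]
    have : 1 / (p : ℝ) ≤ 1 / 5 := one_div_le_one_div_of_le (by norm_num) hpR
    linarith
  have hu2 : u ≤ 1 := by
    rw [hu]
    have : 0 ≤ 1 / (p : ℝ) := by positivity
    linarith
  have hup : u * p = p - 1 := by
    rw [hu]
    field_simp
  have h1 : (Real.exp (-(2 / (p : ℝ)))) ^ (-(((p : ℝ) - 1) / 3)) = Real.exp (2 / 3 * u) := by
    rw [← Real.exp_mul]
    congr 1
    rw [← hup]
    field_simp
  have h2 : (Real.exp (-(2 / (p : ℝ)))) ^ p = Real.exp (-2) := by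
    rw [← Real.exp_nat_mul]
    congr 1
    field_simp
  have hlt : Real.exp (-(2 / (p : ℝ))) < 1 := by
    rw [Real.exp_lt_one_iff]
    have : 0 < 2 / (p : ℝ) := by positivity
    linarith
  have h3 : 2 * u / p ≤ 1 - Real.exp (-(2 / (p : ℝ))) := by
    have h4 := uni_exp_neg (x := 2 / (p : ℝ)) (by positivity)
    have h5 : 2 * u / p = 2 / p - (2 / (p : ℝ)) ^ 2 / 2 := by
      rw [hu]
      field_simp
    linarith
  have h4 : ∑ j ∈ Finset.range p, (Real.exp (-(2 / (p : ℝ)))) ^ j =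
      (1 - Real.exp (-2)) / (1 - Real.exp (-(2 / (p : ℝ)))) := by
    rw [geom_sum_eq hlt.ne, h2, ← neg_div_neg_eq]
    ring
  have h5 : (1 - Real.exp (-2)) / (1 - Real.exp (-(2 / (p : ℝ)))) ≤
      865 / 1000 / (2 * u / p) := by
    refine div_le_div₀ (by norm_num) uni_e2 (by positivity) h3
  have h6 : Real.exp (2 / 3 * u) ≤ 1 + 2 / 3 * u + (2 / 3 * u) ^ 2 / 2 + 2 / 9 * (2 / 3 * u) ^ 3 :=
    uni_exp_up (by linarith) (by linarith)
  have h7 := uni_poly (y := 2 / 3 * u) (by linarith) (by linarith)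
  unfold gp
  rw [h1, h4, div_le_iff₀ hp0]
  calc Real.exp (2 / 3 * u) * ((1 - Real.exp (-2)) / (1 - Real.exp (-(2 / (p : ℝ))))) ≤
      Real.exp (2 / 3 * u) * (865 / 1000 / (2 * u / p)) :=
        mul_le_mul_of_nonneg_left h5 (Real.exp_pos _).le
    _ = Real.exp (2 / 3 * u) * (865 / 1000) * (p / (2 * u)) := by
        field_simp
    _ ≤ (57 / 20 * (2 / 3 * u)) * (p / (2 * u)) := by
        refine mul_le_mul_of_nonneg_right ?_ (by positivity)
        exact (mul_le_mul_of_nonneg_right h6 (by norm_num)).trans h7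
    _ = 19 / 20 * p := by
        field_simp
        ring

theorem exists_t_uni {p : ℕ} (hp : p.Prime) : ∃ t : ℝ, 0 < t ∧ t < 1 ∧ gp p t / p ≤ 19 / 20 := by
  rcases lt_or_ge p 5 with h | h
  · have h2 := hp.two_le
    interval_cases p
    · exact ⟨1 / 2, by norm_num, by norm_num, uni_two⟩
    · exact ⟨1 / 2, by norm_num, by norm_num, uni_three⟩
    · exact absurd hp (by norm_num)
  · refine ⟨Real.exp (-(2 / (p : ℝ))), Real.exp_pos _, ?_, uni_five h⟩
    rw [Real.exp_lt_one_iff]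
    have h1 : (0 : ℝ) < p := by
      have : (5 : ℝ) ≤ p := by exact_mod_cast h
      linarith
    have : 0 < 2 / (p : ℝ) := by positivity
    linarith

end Pool.Agent.SXT
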