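import Pool.Agent.SXS.Main
import Pool.Agent.SXT.Rnd

/-!
# SXT-UpK: the upper bound for actions with large orbits

The edges which avoid the vertices fixed by the random subgroup are counted by `upper_noTri`.
-/

set_option autoImplicit false

namespace Pool.Agent.SXT

open Finset Pool.Agent.RSV Pool.Agent.SXS

private theorem upk_mem_back {n : ℕ} {B e : Finset (Fin n)} (h : Disjoint e B) (v : Fin n) :
    v ∈ e ↔ ∃ h : v ∉ B, (⟨v, h⟩ : {v : Fin n // v ∉ B}) ∈ e.subtype (fun v => v ∉ B) := by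
  constructor
  · intro hv
    have hvB : v ∉ B := disjoint_left.1 h hv
    exact ⟨hvB, mem_subtype.2 hv⟩
  · rintro ⟨_, h2⟩
    exact mem_subtype.1 h2

private theorem upk_map_back {n : ℕ} {B e : Finset (Fin n)} (h : Disjoint e B) :
    (e.subtype (fun v => v ∉ B)).map (Function.Embedding.subtype _) = e := by
  rw [subtype_map, filter_eq_self]
  intro v hv
  exact disjoint_left.1 h hv

private theorem upk_sub_inj {n : ℕ} {B e f : Finset (Fin n)} (he : Disjoint e B) (hf : Disjoint f B)
    (h : e.subtype (fun v => v ∉ B) = f.subtype (fun v => v ∉ B)) : e = f := by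
  rw [← upk_map_back he, h, upk_map_back hf]

theorem upper_sub {p k d n : ℕ} [Fact p.Prime] (hn : 6 ≤ n) {H : Finset (Finset (Fin n))}
    (h3 : Three H) (h6 : SixThree H) (φ : Multiplicative (E p k) →* Equiv.Perm (Fin n))
    (hA : Auts H φ) (L : E p d →+ E p k) (B : Finset (Fin n))
    (hB : ∀ v, v ∉ B ↔ ∀ c : E p d, c ≠ 0 → φ (Multiplicative.ofAdd (L c)) v ≠ v) :
    6 * (H.filter fun e => Disjoint e B).card * p ^ d ≤
      3 * n ^ 2 * (Mon p d).card + 4 * n * p ^ d := by
  classical
  have hN : NoTri H := noTri_of_sixThree hn h6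
  have hinv : ∀ (c : E p d) (v : Fin n), φ (Multiplicative.ofAdd (L c)) v ∉ B ↔ v ∉ B := by
    intro c v
    have key : ∀ c' : E p d, φ (Multiplicative.ofAdd (L c')) (φ (Multiplicative.ofAdd (L c)) v) =
        φ (Multiplicative.ofAdd (L c)) v ↔ φ (Multiplicative.ofAdd (L c')) v = v := by
      intro c'
      have hc : φ (Multiplicative.ofAdd (L c')) (φ (Multiplicative.ofAdd (L c)) v) =
          φ (Multiplicative.ofAdd (L c)) (φ (Multiplicative.ofAdd (L c')) v) := by
        rw [← Equiv.Perm.mul_apply, ← map_mul, mul_comm, map_mul, Equiv.Perm.mul_apply]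
      rw [hc, (φ (Multiplicative.ofAdd (L c))).injective.eq_iff]
    rw [hB, hB]
    constructor
    · intro h c' hc' h2
      exact h c' hc' ((key c').2 h2)
    · intro h c' hc' h2
      exact h c' hc' ((key c').1 h2)
  let ψ : Multiplicative (E p d) →* Equiv.Perm {v : Fin n // v ∉ B} :=
    { toFun := fun c => (φ (Multiplicative.ofAdd (L (Multiplicative.toAdd c)))).subtypePerm
        (fun v => hinv _ v)
      map_one' := by
        ext v
        simp
      map_mul' := by
        intro a b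
        ext v
        simp [ofAdd_add] }
  have hψ : ∀ (c : Multiplicative (E p d)) (v : {v : Fin n // v ∉ B}),
      ((ψ c v : {v : Fin n // v ∉ B}) : Fin n) =
        φ (Multiplicative.ofAdd (L (Multiplicative.toAdd c))) (v : Fin n) := fun c v => rfl
  have hfree : Free ψ := by
    intro g hg v hv
    have h1 : Multiplicative.toAdd g ≠ 0 := by
      intro h
      exact hg (Multiplicative.toAdd.injective (by rw [h]; rfl))
    have h2 := (hB v).1 v.2 (Multiplicative.toAdd g) h1
    apply h2
    rw [← hψ, hv]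
  set H0 : Finset (Finset (Fin n)) := H.filter (fun e => Disjoint e B) with hH0
  set H' : Finset (Finset {v : Fin n // v ∉ B}) := H0.image (fun e => e.subtype (fun v => v ∉ B)) with hH'
  have hcard : H'.card = H0.card := by
    apply card_image_of_injOn
    intro e he f hf hef
    have he' := (mem_filter.1 (mem_coe.1 he)).2
    have hf' := (mem_filter.1 (mem_coe.1 hf)).2
    exact upk_sub_inj he' hf' hef
  have h3' : Three H' := by
    intro e' he'
    obtain ⟨e, he, rfl⟩ := mem_image.1 he'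
    have h1 := mem_filter.1 he
    have h2 : ((e.subtype (fun v => v ∉ B)).map (Function.Embedding.subtype _)).card = e.card := by
      rw [upk_map_back h1.2]
    rw [card_map] at h2
    rw [h2]
    exact h3 e h1.1
  have hN' : NoTri H' := by
    intro e' he' f' hf' g' hg' hef hfg heg
    obtain ⟨e, he, rfl⟩ := mem_image.1 he'
    obtain ⟨f, hf, rfl⟩ := mem_image.1 hf'
    obtain ⟨g, hg, rfl⟩ := mem_image.1 hg'
    have h1 := mem_filter.1 he
    have h2 := mem_filter.1 hf
    have h4 := mem_filter.1 hg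
    have h5 := hN e h1.1 f h2.1 g h4.1 (fun h => hef (by rw [h])) (fun h => hfg (by rw [h]))
      (fun h => heg (by rw [h]))
    have h6 : ((e.subtype (fun v => v ∉ B) ∪ f.subtype (fun v => v ∉ B) ∪
        g.subtype (fun v => v ∉ B)).map (Function.Embedding.subtype _)).card = (e ∪ f ∪ g).card := by
      rw [map_union, map_union, upk_map_back h1.2, upk_map_back h2.2, upk_map_back h4.2]
    rw [card_map] at h6
    rw [h6]
    exact h5
  have hA' : Auts H' ψ := by
    intro c e' he'
    obtain ⟨e, he, rfl⟩ := mem_image.1 he'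
    have h1 := mem_filter.1 he
    set f := e.image (φ (Multiplicative.ofAdd (L (Multiplicative.toAdd c)))) with hf
    have hfH : f ∈ H := hA _ e h1.1
    have hfB : Disjoint f B := by
      rw [disjoint_left]
      intro v hv
      obtain ⟨u, hu, rfl⟩ := mem_image.1 hv
      exact (hinv _ u).2 (disjoint_left.1 h1.2 hu)
    refine mem_image.2 ⟨f, mem_filter.2 ⟨hfH, hfB⟩, ?_⟩
    ext v
    rw [mem_subtype, mem_image, mem_image]
    constructor
    · rintro ⟨u, hu, huv⟩
      have huB : u ∉ B := disjoint_left.1 h1.2 hu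
      refine ⟨⟨u, huB⟩, mem_subtype.2 hu, Subtype.ext ?_⟩
      rw [hψ]
      exact huv
    · rintro ⟨u, hu, rfl⟩
      exact ⟨u, mem_subtype.1 hu, (hψ c u).symm⟩
  have hup := upper_noTri h3' hN' ψ hA' hfree
  have hV' : Fintype.card {v : Fin n // v ∉ B} ≤ n := by
    have := Fintype.card_subtype_le (fun v : Fin n => v ∉ B)
    rwa [Fintype.card_fin] at this
  rw [hcard] at hup
  have hVm : Fintype.card {v : Fin n // v ∉ B} ^ 2 ≤ n ^ 2 := Nat.pow_le_pow_left hV' 2
  refine hup.trans (Nat.add_le_add ?_ ?_)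
  · exact Nat.mul_le_mul_right _ (Nat.mul_le_mul_left _ hVm)
  · exact Nat.mul_le_mul_right _ (Nat.mul_le_mul_left _ hV')

theorem upper_K {p k n K : ℕ} [Fact p.Prime] (hn : 6 ≤ n) {H : Finset (Finset (Fin n))}
    (h3 : Three H) (h6 : SixThree H) (φ : Multiplicative (E p k) →* Equiv.Perm (Fin n))
    (hA : Auts H φ) (hK : Orb φ K) (d : ℕ) (hd : p ^ (d + 2) ≤ K) :
    H.card * p ^ d ≤ 3 * n ^ 2 * (Mon p d).card := by
  obtain ⟨L, B, hB, hc⟩ := exists_hom φ hK d hd H h3
  have hs := upper_sub hn h3 h6 φ hA L B hB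
  have hp2 : 2 ≤ p := (Fact.out : p.Prime).two_le
  have hKn : K ≤ n := by
    refine (hK ⟨0, by omega⟩).trans ?_
    have h7 := Set.ncard_le_card (Set.range fun g : Multiplicative (E p k) => φ g ⟨0, by omega⟩)
    rwa [Nat.card_fin] at h7
  have hM : 1 ≤ (Mon p d).card := one_le_card_Mon (by omega)
  have h1 : 4 * n * p ^ d ≤ n ^ 2 * (Mon p d).card := by
    calc 4 * n * p ^ d ≤ (p * p) * n * p ^ d := by
          refine Nat.mul_le_mul_right _ (Nat.mul_le_mul_right _ ?_)
          exact Nat.mul_le_mul hp2 hp2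
      _ = n * p ^ (d + 2) := by ring
      _ ≤ n * n := Nat.mul_le_mul_left _ (hd.trans hKn)
      _ = n ^ 2 * 1 := by ring
      _ ≤ n ^ 2 * (Mon p d).card := Nat.mul_le_mul_left _ hM
  have h2 : 6 * (H.card * p ^ d) ≤ 4 * (6 * (H.filter fun e => Disjoint e B).card * p ^ d) := by
    calc 6 * (H.card * p ^ d) = 6 * p ^ d * H.card := by ring
      _ ≤ 6 * p ^ d * (4 * (H.filter fun e => Disjoint e B).card) := Nat.mul_le_mul_left _ hc
      _ = 4 * (6 * (H.filter fun e => Disjoint e B).card * p ^ d) := by ring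
  have h4 : 3 * n ^ 2 * (Mon p d).card = 3 * (n ^ 2 * (Mon p d).card) := by ring
  rw [h4] at hs ⊢
  omega

theorem upper_Kg {p k n K : ℕ} [Fact p.Prime] (hn : 6 ≤ n) {H : Finset (Finset (Fin n))}
    (h3 : Three H) (h6 : SixThree H) (φ : Multiplicative (E p k) →* Equiv.Perm (Fin n))
    (hA : Auts H φ) (hK : Orb φ K) (d : ℕ) (hd : p ^ (d + 2) ≤ K) {t : ℝ} (h0 : 0 < t)
    (h1 : t ≤ 1) : (H.card : ℝ) ≤ 3 * (n : ℝ) ^ 2 * (gp p t / p) ^ d := by
  have hp : 0 < (p : ℝ) := by exact_mod_cast (Fact.out : p.Prime).pos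
  have h := upper_K hn h3 h6 φ hA hK d hd
  have h' : (H.card : ℝ) * (p : ℝ) ^ d ≤ 3 * (n : ℝ) ^ 2 * ((Mon p d).card : ℝ) := by
    exact_mod_cast h
  have hM := card_Mon_le (k := d) (Fact.out : p.Prime).one_lt.le h0 h1
  rw [div_pow, ← mul_div_assoc, le_div_iff₀ (pow_pos hp d)]
  exact h'.trans (mul_le_mul_of_nonneg_left hM (by positivity))

end Pool.Agent.SXT
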