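import Pool.Agent.SXT.UpK

/-!
# SXT-UpTwo: the exponent for `p = 2`
-/

set_option autoImplicit false

namespace Pool.Agent.SXT

open Finset Pool.Agent.RSV Pool.Agent.SXS

private theorem utwo_base : (3 / 2 ^ (5 / 3 : ℝ) : ℝ) =
    (2 : ℝ) ^ (-(5 / 3 - Real.log 3 / Real.log 2)) := by
  have h2 : (0 : ℝ) < 2 := by norm_num
  have hl : Real.log 2 ≠ 0 := (Real.log_pos (by norm_num)).ne'
  have h3 : (2 : ℝ) ^ (Real.log 3 / Real.log 2) = 3 := by
    rw [Real.rpow_def_of_pos h2, mul_div_cancel₀ _ hl, Real.exp_log (by norm_num)]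
  rw [neg_sub, Real.rpow_sub h2, h3]

private theorem utwo_cube : (3 / 2 ^ (5 / 3 : ℝ) : ℝ) ^ 3 = 27 / 32 := by
  have h : ((2 : ℝ) ^ (5 / 3 : ℝ)) ^ 3 = 32 := by
    rw [← Real.rpow_natCast, ← Real.rpow_mul (by norm_num)]
    norm_num
  rw [div_pow, h]
  norm_num

private theorem utwo_kap0 : 0 ≤ 5 / 3 - Real.log 3 / Real.log 2 := by
  have hl : 0 < Real.log 2 := Real.log_pos (by norm_num)
  have h1 : 3 * Real.log 3 ≤ 5 * Real.log 2 := by
    have h2 : Real.log ((3 : ℝ) ^ 3) ≤ Real.log ((2 : ℝ) ^ 5) :=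
      Real.log_le_log (by norm_num) (by norm_num)
    rw [Real.log_pow, Real.log_pow] at h2
    exact_mod_cast h2
  rw [sub_nonneg, div_le_iff₀ hl]
  linarith

private theorem utwo_kap1 : 5 / 3 - Real.log 3 / Real.log 2 ≤ 1 := by
  have hl : 0 < Real.log 2 := Real.log_pos (by norm_num)
  have h1 : Real.log 2 ≤ Real.log 3 := Real.log_le_log (by norm_num) (by norm_num)
  have h2 : 1 ≤ Real.log 3 / Real.log 2 := by
    rw [le_div_iff₀ hl]
    linarith
  linarith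

theorem upper_two_K {k n K : ℕ} (hn : 6 ≤ n) (hK1 : 1 ≤ K) {H : Finset (Finset (Fin n))}
    (h3 : Three H) (h6 : SixThree H) (φ : Multiplicative (E 2 k) →* Equiv.Perm (Fin n))
    (hA : Auts H φ) (hK : Orb φ K) :
    (H.card : ℝ) ≤ 4 * (n : ℝ) ^ 2 * (K : ℝ) ^ (-(5 / 3 - Real.log 3 / Real.log 2)) := by
  have hk0 := utwo_kap0
  have hk1 := utwo_kap1
  have hb := utwo_base
  have hcu := utwo_cube
  set κ : ℝ := 5 / 3 - Real.log 3 / Real.log 2 with hκ
  set r : ℝ := 3 / 2 ^ (5 / 3 : ℝ) with hr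
  have hr0 : 0 < r := by positivity
  have hKr : (1 : ℝ) ≤ K := by exact_mod_cast hK1
  have hK0 : (0 : ℝ) < K := by linarith
  rcases Nat.lt_or_ge K 4 with hK4 | hK4
  · have h := upper_two (k := 0) hn h3 h6 (1 : Multiplicative (E 2 0) →* Equiv.Perm (Fin n))
      (by
        intro g e he
        have h1 : e.image ((1 : Multiplicative (E 2 0) →* Equiv.Perm (Fin n)) g) = e := by
          rw [MonoidHom.one_apply]
          ext v
          simp
        rw [h1]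
        exact he)
      (by
        intro g hg
        exact absurd (Subsingleton.elim (α := E 2 0) (Multiplicative.toAdd g) 0) hg)
    rw [pow_zero, mul_one] at h
    have h1 : (1 / 4 : ℝ) ≤ (K : ℝ) ^ (-κ) := by
      have h2 : (4 : ℝ) ^ (-(1 : ℝ)) ≤ (4 : ℝ) ^ (-κ) :=
        Real.rpow_le_rpow_of_exponent_le (by norm_num) (by linarith)
      have h4 : (K : ℝ) ≤ 4 := by
        have : K ≤ 4 := hK4.le
        exact_mod_cast this
      have h5 : (4 : ℝ) ^ (-κ) ≤ (K : ℝ) ^ (-κ) :=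
        Real.rpow_le_rpow_of_nonpos hK0 h4 (by linarith)
      have h7 : (4 : ℝ) ^ (-(1 : ℝ)) = 1 / 4 := by
        rw [Real.rpow_neg_one]
        norm_num
      rw [h7] at h2
      exact h2.trans h5
    have hn2 : (0 : ℝ) ≤ (n : ℝ) ^ 2 := by positivity
    nlinarith [mul_le_mul_of_nonneg_left h1 hn2]
  · obtain ⟨d, hd⟩ : ∃ d, Nat.log 2 K = d + 2 := by
      have h1 : 2 ≤ Nat.log 2 K := Nat.le_log_of_pow_le (by norm_num) (by omega)
      exact ⟨Nat.log 2 K - 2, by omega⟩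
    have hlo : 2 ^ (d + 2) ≤ K := by
      rw [← hd]
      exact Nat.pow_log_le_self 2 (by omega)
    have hhi : K < 2 ^ (d + 3) := by
      have h1 := Nat.lt_pow_succ_log_self (b := 2) (by norm_num) K
      rw [hd] at h1
      exact h1
    have h := upper_Kg hn h3 h6 φ hA hK d hlo (t := 1 / 2) (by norm_num) (by norm_num)
    rw [gp_half] at h
    have h2 : (3 / 2 ^ (2 / 3 : ℝ) / ((2 : ℕ) : ℝ) : ℝ) = r := by
      have h3 : (2 : ℝ) ^ (5 / 3 : ℝ) = 2 ^ (2 / 3 : ℝ) * 2 := by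
        rw [show (5 / 3 : ℝ) = 2 / 3 + 1 by norm_num, Real.rpow_add (by norm_num), Real.rpow_one]
      rw [hr, h3, div_div]
      norm_num
    rw [h2] at h
    have h5 : r ^ (d + 3) ≤ (K : ℝ) ^ (-κ) := by
      have h6 : r ^ (d + 3) = ((2 : ℝ) ^ (d + 3)) ^ (-κ) := by
        rw [hb, ← Real.rpow_natCast, ← Real.rpow_natCast, ← Real.rpow_mul (by norm_num),
          ← Real.rpow_mul (by norm_num), mul_comm]
      rw [h6]
      refine Real.rpow_le_rpow_of_nonpos hK0 ?_ (by linarith)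
      exact_mod_cast hhi.le
    have h7 : 3 * r ^ d ≤ 4 * r ^ (d + 3) := by
      rw [pow_add, hcu]
      have h8 : 0 ≤ r ^ d := by positivity
      linarith
    have hn2 : (0 : ℝ) ≤ (n : ℝ) ^ 2 := by positivity
    calc (H.card : ℝ) ≤ 3 * (n : ℝ) ^ 2 * r ^ d := h
      _ = (n : ℝ) ^ 2 * (3 * r ^ d) := by ring
      _ ≤ (n : ℝ) ^ 2 * (4 * r ^ (d + 3)) := mul_le_mul_of_nonneg_left h7 hn2
      _ ≤ (n : ℝ) ^ 2 * (4 * (K : ℝ) ^ (-κ)) := by
          refine mul_le_mul_of_nonneg_left ?_ hn2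
          linarith
      _ = 4 * (n : ℝ) ^ 2 * (K : ℝ) ^ (-κ) := by ring

end Pool.Agent.SXT
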