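import Pool.Agent.SXG.Cross
import Pool.Agent.SXT.Three

/-! Project SXT, module SXT-Wall: translation to wall spaces.

The regions of the wall space form a tree; the elements of `R` are translations whose axes overlap in at most
one edge (`wall_CG`), so the theorems on groups generated by two or three translations apply. -/

namespace SXT

open SXP SXG

variable {X W G : Type*} [Group G] [MulAction G X] [MulAction G W] {sep : W → X → X → Prop}

theorem wall_CG (hS : WS sep)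
    (heq : ∀ (g : G) w x y, sep (g • w) (g • x) (g • y) ↔ sep w x y) [Nonempty X] (R : Set G)
    (hconj : ∀ g : G, ∀ x ∈ R, g * x * g⁻¹ ∈ R) {k : ℕ} (hk : 2 ≤ k)
    (h2 : ∀ x ∈ R, ∀ p : X, k ≤ ds sep p (x • p))
    (hov : ∀ x ∈ R, ∀ y ∈ R, x ≠ y → ∀ w w', w ≠ w' → Cross sep x w → Cross sep x w' →
      Cross sep y w → Cross sep y w' → False) :
    letI := regAct hS heq
    ∃ hC : CG (rd hS) R, ∀ x : R, k ≤ tau hC x := by
  letI := regAct hS heq
  have hsm : ∀ (g : G) (x : X), g • reg hS x = reg hS (g • x) := fun _ _ => rfl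
  have hiso := rd_iso hS heq hsm
  haveI : Nonempty (Reg hS) := ⟨reg hS (Classical.arbitrary X)⟩
  have hk' : ∀ x ∈ R, ∀ v : Reg hS, k ≤ rd hS v (x • v) := by
    intro x hx v
    obtain ⟨y, rfl⟩ := reg_surj hS v
    rw [hsm, rd_reg]
    exact h2 x hx y
  have hch : ∀ x ∈ R, ∃ (c : ℤ → Reg hS) (τ : ℕ), Chart (rd hS) x c τ := by
    intro x hx
    obtain ⟨c, τ, h3, h4, h5, h6⟩ := axis (reg_tm hS) hiso x (fun v => hk.trans (hk' x hx v))
    refine ⟨c, τ, h3, h4, h5, ?_⟩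
    have h7 := h3 0 τ
    have h8 := h4 0
    rw [zero_add] at h8
    rw [← h8] at h7
    have h9 := hk' x hx (c 0)
    have h10 : |(0 : ℤ) - (τ : ℕ)| = (τ : ℕ) := by
      rw [zero_sub, abs_neg]
      exact abs_of_nonneg (Int.natCast_nonneg _)
    rw [h10] at h7
    omega
  have hcr : ∀ x ∈ R, ∀ p q : X, reg hS p ∈ Ax (rd hS) x → reg hS q ∈ Ax (rd hS) x →
      ∀ w, sep w p q → Cross sep x w := by
    intro x hx p q hp hq w hw
    obtain ⟨c, τ, hc⟩ := hch x hx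
    obtain ⟨i, hi⟩ := (hc.rng _).1 hp
    obtain ⟨j, hj⟩ := (hc.rng _).1 hq
    exact ax_cross hS heq hsm hc.pos hc.line hc.tr hi hj hw
  have hC : CG (rd hS) R :=
    { tm := reg_tm hS
      iso := hiso
      conj := hconj
      ch := hch
      ov := by
        intro x hx y hy hxy a b ha1 ha2 hb1 hb2
        by_contra hcon
        push Not at hcon
        obtain ⟨p, rfl⟩ := reg_surj hS a
        obtain ⟨q, rfl⟩ := reg_surj hS b
        rw [rd_reg] at hcon
        unfold ds at hcon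
        rw [Set.one_lt_ncard (hS.fin p q)] at hcon
        obtain ⟨w, hw, w', hw', hne⟩ := hcon
        exact hov x hx y hy hxy w w' hne (hcr x hx p q ha1 hb1 w hw)
          (hcr x hx p q ha1 hb1 w' hw') (hcr y hy p q ha2 hb2 w hw) (hcr y hy p q ha2 hb2 w' hw') }
  refine ⟨hC, fun x => ?_⟩
  have hsp := cht_spec hC x
  have h7 := hsp.line 0 (tau hC x)
  have h8 := hsp.tr 0
  rw [zero_add] at h8
  rw [← h8] at h7
  have h9 := hk' x.1 x.2 (cht hC x 0)
  have h10 : |(0 : ℤ) - (tau hC x : ℕ)| = (tau hC x : ℕ) := by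
    rw [zero_sub, abs_neg]
    exact abs_of_nonneg (Int.natCast_nonneg _)
  rw [h10] at h7
  omega

theorem ws_two (hS : WS sep)
    (heq : ∀ (g : G) w x y, sep (g • w) (g • x) (g • y) ↔ sep w x y) [Nonempty X] (R : Set G)
    (hconj : ∀ g : G, ∀ x ∈ R, g * x * g⁻¹ ∈ R)
    (h2 : ∀ x ∈ R, ∀ p : X, 2 ≤ ds sep p (x • p))
    (hov : ∀ x ∈ R, ∀ y ∈ R, x ≠ y → ∀ w w', w ≠ w' → Cross sep x w → Cross sep x w' →
      Cross sep y w → Cross sep y w' → False)
    {x y : G} (hx : x ∈ R) (hy : y ∈ R) (hgen : Subgroup.closure {x, y} = ⊤) :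
    ∃ w ∈ R, ∀ g : G, Commute g w → g ∈ Subgroup.zpowers w := by
  letI := regAct hS heq
  obtain ⟨hC, hτ⟩ := wall_CG hS heq R hconj le_rfl h2 hov
  obtain ⟨w, hw⟩ := two hC hτ (x := ⟨x, hx⟩) (y := ⟨y, hy⟩) hgen
  exact ⟨w.1, w.2, hw⟩

theorem ws_three (hS : WS sep)
    (heq : ∀ (g : G) w x y, sep (g • w) (g • x) (g • y) ↔ sep w x y) [Nonempty X] (R : Set G)
    (hconj : ∀ g : G, ∀ x ∈ R, g * x * g⁻¹ ∈ R)
    (h3 : ∀ x ∈ R, ∀ p : X, 3 ≤ ds sep p (x • p))
    (hov : ∀ x ∈ R, ∀ y ∈ R, x ≠ y → ∀ w w', w ≠ w' → Cross sep x w → Cross sep x w' →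
      Cross sep y w → Cross sep y w' → False)
    {x y z : G} (hx : x ∈ R) (hy : y ∈ R) (hz : z ∈ R) (hgen : Subgroup.closure {x, y, z} = ⊤) :
    ∃ w ∈ R, ∀ g : G, Commute g w → g ∈ Subgroup.zpowers w := by
  letI := regAct hS heq
  obtain ⟨hC, hτ⟩ := wall_CG hS heq R hconj (by norm_num) h3 hov
  obtain ⟨w, hw⟩ := three hC hτ (x := ⟨x, hx⟩) (y := ⟨y, hy⟩) (z := ⟨z, hz⟩) hgen
  exact ⟨w.1, w.2, hw⟩

end SXT
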